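import Pool.Agent.H422R2.LP.Defs
import Pool.Agent.H783R2.NVW

/-!
# Non-vanishing of the Hankel determinants (helper783)

One of the three determinants of size `4n-1`, `4n`, `4n+1` is nonzero: shift argument.
-/

open Polynomial

namespace Pool.Agent.LP

noncomputable section

open Pool.Agent.H783R2

/-! ### The functional without the numerator -/

/-- `S(1/(s+k))` up to the sign `(-1)^k` -/
def sg (α β γ : ℚ) (k : ℕ) : ℚ := γ + α * Sh 1 k + β * Sh 2 k

lemma Sh_succ (j k : ℕ) : Sh j (k + 1) = Sh j k + (-1) ^ (k + 1) / ((k + 1 : ℕ) : ℚ) ^ j := by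
  unfold Sh
  rw [Finset.sum_Icc_succ_top (by omega)]

lemma sg_step (α β γ : ℚ) (l : ℕ) :
    (-1 : ℚ) ^ l * (sg α β γ l - sg α β γ (l + 1)) = α / (l + 1) + β / (l + 1) ^ 2 := by
  unfold sg
  rw [Sh_succ, Sh_succ]
  have h1 : ((l : ℚ) + 1) ≠ 0 := by positivity
  have h2 : ((-1 : ℚ) ^ l) * ((-1 : ℚ) ^ l) = 1 := by
    rw [← mul_pow]; norm_num
  push_cast
  rw [pow_succ, pow_one]
  have h3 : (-1 : ℚ) ^ l * (γ + α * Sh 1 l + β * Sh 2 l -
      (γ + α * (Sh 1 l + (-1) ^ l * -1 / ((l : ℚ) + 1)) + β * (Sh 2 l + (-1) ^ l * -1 / ((l : ℚ) + 1) ^ 2)))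
      = ((-1 : ℚ) ^ l * (-1 : ℚ) ^ l) * (α / (l + 1) + β / (l + 1) ^ 2) := by
    field_simp
    ring
  rw [h3, h2, one_mul]

/-- node polynomial -/
def nds (s : Finset ℕ) : ℚ[X] := ∏ k ∈ s, (X + C (k : ℚ))

lemma nds_monic (s : Finset ℕ) : (nds s).Monic := monic_prod_of_monic _ _ fun k _ => monic_X_add_C _

lemma nds_natDegree (s : Finset ℕ) : (nds s).natDegree = s.card := by
  unfold nds
  rw [natDegree_prod_of_monic _ _ fun j _ => monic_X_add_C _]
  simp only [natDegree_X_add_C, Finset.sum_const, smul_eq_mul, mul_one]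

lemma nds_eval (s : Finset ℕ) (x : ℚ) : (nds s).eval x = ∏ j ∈ s, (x + j) := by
  unfold nds
  rw [eval_prod]
  simp

lemma nds_insert {s : Finset ℕ} {k : ℕ} (h : k ∉ s) : nds (insert k s) = (X + C (k : ℚ)) * nds s := by
  unfold nds
  rw [Finset.prod_insert h]

lemma nds_comp (s : Finset ℕ) : (nds s).comp (X + 1) = nds (s.image (· + 1)) := by
  unfold nds
  rw [Polynomial.prod_comp, Finset.prod_image (fun x _ y _ h => Nat.succ_injective h)]
  refine Finset.prod_congr rfl fun k _ => ?_
  simp only [add_comp, X_comp, C_comp, Nat.succ_eq_add_one, Nat.cast_succ, C_add, C_1]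
  ring

/-- division by `Pn` as a linear map -/
def dvP (a b : ℕ) : ℚ[X] →ₗ[ℚ] ℚ[X] where
  toFun f := f /ₘ Pn a b
  map_add' f g := divByMonic_add' (Pn_monic a b) f g
  map_smul' c f := divByMonic_smul' (Pn_monic a b) c f

lemma dvP_apply (a b : ℕ) (f : ℚ[X]) : dvP a b f = f /ₘ Pn a b := rfl

/-- the functional `g ↦ S(g / Pn)` -/
def Lt (a b : ℕ) (α β γ : ℚ) : ℚ[X] →ₗ[ℚ] ℚ :=
  ∑ k ∈ Finset.Icc a b, ((-1 : ℚ) ^ k * sg α β γ k / ∏ j ∈ (Finset.Icc a b).erase k, ((j : ℚ) - k)) •
    (Polynomial.leval (-(k : ℚ))) + (β • (AB ∘ₗ derivative) - α • AB) ∘ₗ dvP a b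

lemma Lt_apply (a b : ℕ) (α β γ : ℚ) (g : ℚ[X]) :
    Lt a b α β γ g = ∑ k ∈ Finset.Icc a b,
      ((-1 : ℚ) ^ k * sg α β γ k / ∏ j ∈ (Finset.Icc a b).erase k, ((j : ℚ) - k)) * g.eval (-(k : ℚ))
      + (β * AB (derivative (g /ₘ Pn a b)) - α * AB (g /ₘ Pn a b)) := by
  unfold Lt
  simp only [LinearMap.add_apply, LinearMap.sum_apply, LinearMap.smul_apply, leval_apply, smul_eq_mul,
    LinearMap.comp_apply, LinearMap.sub_apply, dvP_apply]

lemma L_eq_Lt (a b : ℕ) (α β γ : ℚ) (f : ℚ[X]) : L a b α β γ f = Lt a b α β γ (An a * f) := by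
  rw [Lt_apply]
  show Lf a b α β γ f = _
  unfold Lf rs pp sg
  have h1 : ∑ k ∈ Finset.Icc a b, (-1 : ℚ) ^ k *
      ((An a * f).eval (-(k : ℚ)) / ∏ j ∈ (Finset.Icc a b).erase k, ((j : ℚ) - k)) *
        (γ + α * Sh 1 k + β * Sh 2 k) = ∑ k ∈ Finset.Icc a b,
      ((-1 : ℚ) ^ k * (γ + α * Sh 1 k + β * Sh 2 k) / ∏ j ∈ (Finset.Icc a b).erase k, ((j : ℚ) - k)) *
        (An a * f).eval (-(k : ℚ)) := Finset.sum_congr rfl fun k _ => by ring
  rw [h1]
  ring

lemma Pn_eq (a b : ℕ) : Pn a b = nds (Finset.Icc a b) := rfl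

lemma Lt_Pn_mul (a b : ℕ) (α β γ : ℚ) (q : ℚ[X]) :
    Lt a b α β γ (Pn a b * q) = β * AB (derivative q) - α * AB q := by
  rw [Lt_apply, mul_divByMonic_cancel_left _ (Pn_monic a b), Finset.sum_eq_zero, zero_add]
  intro k hk
  have : (Pn a b * q).eval (-(k : ℚ)) = 0 := by
    rw [eval_mul, Pn_eq, nds_eval, Finset.prod_eq_zero hk (by ring), zero_mul]
  rw [this, mul_zero]

lemma Lt_nds (a b : ℕ) (α β γ : ℚ) (k : ℕ) (hk : k ∈ Finset.Icc a b) :
    Lt a b α β γ (nds ((Finset.Icc a b).erase k)) = (-1 : ℚ) ^ k * sg α β γ k := by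
  have hdiv : nds ((Finset.Icc a b).erase k) /ₘ Pn a b = 0 := by
    rw [divByMonic_eq_zero_iff (Pn_monic a b)]
    have h1 : (nds ((Finset.Icc a b).erase k)).natDegree < (Pn a b).natDegree := by
      rw [Pn_eq, nds_natDegree, nds_natDegree]
      exact Finset.card_erase_lt_of_mem hk
    exact degree_lt_degree h1
  rw [Lt_apply, hdiv, derivative_zero, map_zero, mul_zero, mul_zero, sub_zero, add_zero,
    Finset.sum_eq_single k]
  · rw [nds_eval]
    have h2 : ∏ j ∈ (Finset.Icc a b).erase k, (-(k : ℚ) + j) =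
        ∏ j ∈ (Finset.Icc a b).erase k, ((j : ℚ) - k) := Finset.prod_congr rfl fun j _ => by ring
    have h3 : ∏ j ∈ (Finset.Icc a b).erase k, ((j : ℚ) - k) ≠ 0 := by
      rw [Finset.prod_ne_zero_iff]
      intro j hj
      rw [sub_ne_zero]
      exact_mod_cast (Finset.mem_erase.mp hj).1
    rw [h2, div_mul_cancel₀ _ h3]
  · intro j hj hjk
    rw [nds_eval, Finset.prod_eq_zero (Finset.mem_erase.mpr ⟨hjk, hj⟩) (by ring), mul_zero]
  · intro h
    exact absurd hk h

/-- Lagrange interpolation -/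
lemma decomp (s : Finset ℕ) (r : ℚ[X]) (hr : r.degree < s.card) :
    ∃ c : ℕ → ℚ, r = ∑ l ∈ s, c l • nds (s.erase l) := by
  have hinj : Set.InjOn (fun j : ℕ => -(j : ℚ)) (s : Set ℕ) := by
    intro x _ y _ hxy
    have : (x : ℚ) = y := neg_injective hxy
    exact_mod_cast this
  have h1 := Lagrange.eq_interpolate hinj hr
  rw [Lagrange.interpolate_apply] at h1
  refine ⟨fun l => r.eval (-(l : ℚ)) * ∏ j ∈ s.erase l, (-(l : ℚ) - -(j : ℚ))⁻¹, ?_⟩
  conv_lhs => rw [h1]
  refine Finset.sum_congr rfl fun l _ => ?_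
  unfold Lagrange.basis Lagrange.basisDivisor nds
  rw [Finset.prod_mul_distrib, smul_eq_C_mul, C_mul, ← map_prod]
  rw [mul_assoc]
  congr 2
  refine Finset.prod_congr rfl fun j _ => ?_
  rw [C_neg, sub_neg_eq_add]

/-- the shift identity of `Lt` -/
theorem Lt_shift (a c : ℕ) (hac : a ≤ c + 1) (α β γ : ℚ) (u : ℚ[X]) :
    Lt a (c + 1) α β γ ((X + C ((c + 1 : ℕ) : ℚ)) * u) + Lt a (c + 1) α β γ ((X + C (a : ℚ)) * u.comp (X + 1)) =
      α * (u.eval 1 / (Pn a c).eval 1) -
        β * (((derivative u).eval 1 * (Pn a c).eval 1 - u.eval 1 * (derivative (Pn a c)).eval 1) /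
          (Pn a c).eval 1 ^ 2) := by
  classical
  have hD : (Pn a c).eval 1 ≠ 0 := by
    rw [Pn_eq, nds_eval, Finset.prod_ne_zero_iff]
    intro j _
    positivity
  -- closure properties
  let Q : ℚ[X] → Prop := fun u =>
    Lt a (c + 1) α β γ ((X + C ((c + 1 : ℕ) : ℚ)) * u) + Lt a (c + 1) α β γ ((X + C (a : ℚ)) * u.comp (X + 1)) =
      α * (u.eval 1 / (Pn a c).eval 1) -
        β * (((derivative u).eval 1 * (Pn a c).eval 1 - u.eval 1 * (derivative (Pn a c)).eval 1) /
          (Pn a c).eval 1 ^ 2)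
  have hadd : ∀ u v, Q u → Q v → Q (u + v) := by
    intro u v hu hv
    simp only [Q] at hu hv ⊢
    rw [mul_add, map_add, add_comp, mul_add, map_add, eval_add, derivative_add, eval_add]
    have : ∀ x y z w : ℚ, (x + y) + (z + w) = (x + z) + (y + w) := by intros; ring
    rw [this, hu, hv]
    ring
  have hsmul : ∀ (k : ℚ) u, Q u → Q (k • u) := by
    intro k u hu
    simp only [Q] at hu ⊢
    rw [mul_smul_comm, map_smul, smul_comp, mul_smul_comm, map_smul, eval_smul, derivative_smul, eval_smul]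
    simp only [smul_eq_mul]
    rw [← mul_add, hu]
    ring
  have hzero : Q 0 := by
    simp [Q]
  -- polynomial multiples of Pn
  have e1 : (X + C ((c + 1 : ℕ) : ℚ)) * Pn a c = Pn a (c + 1) := by
    rw [Pn_eq, Pn_eq, ← nds_insert (by simp)]
    congr 1
    ext x
    simp only [Finset.mem_insert, Finset.mem_Icc]
    omega
  have e2 : (X + C (a : ℚ)) * (Pn a c).comp (X + 1) = Pn a (c + 1) := by
    rw [Pn_eq, Pn_eq, nds_comp, ← nds_insert]
    · congr 1
      ext x
      simp only [Finset.mem_insert, Finset.mem_image, Finset.mem_Icc]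
      constructor
      · rintro (h | ⟨y, hy, rfl⟩) <;> omega
      · intro h
        by_cases hx : x = a
        · left; exact hx
        · right; exact ⟨x - 1, by omega, by omega⟩
    · simp only [Finset.mem_image, Finset.mem_Icc, not_exists, not_and]
      intro y hy
      omega
  have hpoly : ∀ q : ℚ[X], Q (Pn a c * q) := by
    intro q
    simp only [Q]
    rw [← mul_assoc, e1, mul_comp, ← mul_assoc, e2, Lt_Pn_mul, Lt_Pn_mul]
    have h1 := AB_shift q
    have h2 := AB_shift (derivative q)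
    have h3 : derivative (q.comp (X + 1)) = (derivative q).comp (X + 1) := by
      rw [derivative_comp]
      simp
    rw [h3]
    simp only [derivative_mul, eval_mul, eval_add]
    have h4 : β * AB (derivative q) - α * AB q + (β * AB ((derivative q).comp (X + 1)) - α * AB (q.comp (X + 1)))
        = α * q.eval 1 - β * (derivative q).eval 1 := by
      linear_combination (-α) * h1 + β * h2
    rw [h4]
    field_simp
    ring
  -- simple fractions
  have hfrac : ∀ l ∈ Finset.Icc a c, Q (nds ((Finset.Icc a c).erase l)) := by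
    intro l hl
    have hl' := Finset.mem_Icc.mp hl
    simp only [Q]
    have f1 : (X + C ((c + 1 : ℕ) : ℚ)) * nds ((Finset.Icc a c).erase l) =
        nds ((Finset.Icc a (c + 1)).erase l) := by
      rw [← nds_insert (by simp)]
      congr 1
      ext x
      simp only [Finset.mem_insert, Finset.mem_Icc, Finset.mem_erase]
      omega
    have f2 : (X + C (a : ℚ)) * (nds ((Finset.Icc a c).erase l)).comp (X + 1) =
        nds ((Finset.Icc a (c + 1)).erase (l + 1)) := by
      rw [nds_comp, ← nds_insert]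
      · congr 1
        ext x
        simp only [Finset.mem_insert, Finset.mem_image, Finset.mem_Icc, Finset.mem_erase]
        constructor
        · rintro (h | ⟨y, hy, rfl⟩) <;> omega
        · intro h
          by_cases hx : x = a
          · left; exact hx
          · right; exact ⟨x - 1, by omega, by omega⟩
      · simp only [Finset.mem_image, Finset.mem_Icc, Finset.mem_erase, not_exists, not_and]
        intro y hy
        omega
    rw [f1, f2, Lt_nds _ _ _ _ _ _ (Finset.mem_Icc.mpr ⟨by omega, by omega⟩),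
      Lt_nds _ _ _ _ _ _ (Finset.mem_Icc.mpr ⟨by omega, by omega⟩)]
    have h1 : (X + C (l : ℚ)) * nds ((Finset.Icc a c).erase l) = Pn a c := by
      rw [Pn_eq, ← nds_insert (by simp), Finset.insert_erase hl]
    have h2 : (1 + (l : ℚ)) * (nds ((Finset.Icc a c).erase l)).eval 1 = (Pn a c).eval 1 := by
      rw [← h1]; simp
    have h3 : (nds ((Finset.Icc a c).erase l)).eval 1 +
        (1 + (l : ℚ)) * (derivative (nds ((Finset.Icc a c).erase l))).eval 1 = (derivative (Pn a c)).eval 1 := by
      rw [← h1]; simp [derivative_mul]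
    have hl1 : (1 + (l : ℚ)) ≠ 0 := by positivity
    have hn : (nds ((Finset.Icc a c).erase l)).eval 1 ≠ 0 := by
      intro h0
      rw [h0, mul_zero] at h2
      exact hD h2.symm
    have h4 := sg_step α β γ l
    have h5 : (-1 : ℚ) ^ l * sg α β γ l + (-1) ^ (l + 1) * sg α β γ (l + 1) = α / (l + 1) + β / (l + 1) ^ 2 := by
      rw [← h4]; ring
    rw [h5, ← h3, ← h2]
    set x := (nds ((Finset.Icc a c).erase l)).eval 1 with hx
    set y := (derivative (nds ((Finset.Icc a c).erase l))).eval 1 with hy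
    have hl2 : ((l : ℚ) + 1) ≠ 0 := by positivity
    have h6 : (y * ((1 + (l : ℚ)) * x) - x * (x + (1 + (l : ℚ)) * y)) = - x ^ 2 := by ring
    rw [h6]
    field_simp
    ring
  have hdec := modByMonic_add_div u (Pn a c)
  obtain ⟨k, hk⟩ := decomp (Finset.Icc a c) (u %ₘ Pn a c) (by
    have h1 := degree_modByMonic_lt u (Pn_monic a c)
    have h2 : (Pn a c).degree = ((Finset.Icc a c).card : ℕ) := by
      rw [degree_eq_natDegree (Pn_monic a c).ne_zero, Pn_eq, nds_natDegree]
    rwa [h2] at h1)
  have hQ : Q u := by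
    rw [← hdec]
    apply hadd _ _ _ (hpoly _)
    rw [hk]
    exact Finset.sum_induction _ Q hadd hzero fun l hl => hsmul _ _ (hfrac l hl)
  exact hQ

lemma An_eq (a : ℕ) : An a = nds (Finset.range a) := rfl

lemma An_comp (a : ℕ) : X * (An a).comp (X + 1) = (X + C (a : ℚ)) * An a := by
  have h1 : An (a + 1) = (X + C (a : ℚ)) * An a := by
    unfold An
    rw [Finset.prod_range_succ, mul_comm]
  have h2 : An (a + 1) = X * (An a).comp (X + 1) := by
    unfold An
    rw [Finset.prod_range_succ', Polynomial.prod_comp, mul_comm]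
    simp only [Nat.cast_zero, C_0, add_zero, Nat.cast_succ, C_add, C_1, add_comp, X_comp, C_comp]
    congr 1
    refine Finset.prod_congr rfl fun k _ => ?_
    ring
  rw [← h2, h1]

/-- the shift identity of `L` -/
theorem L_shift (a c : ℕ) (hac : a ≤ c + 1) (α β γ : ℚ) (v : ℚ[X]) :
    L a (c + 1) α β γ ((X + C ((c + 1 : ℕ) : ℚ)) * (X - 1) * v) +
      L a (c + 1) α β γ ((X + C (a : ℚ)) ^ 2 * v.comp (X + 1)) =
      (-β * (An a).eval 1 / (Pn a c).eval 1) * v.eval 1 := by
  have hD : (Pn a c).eval 1 ≠ 0 := by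
    rw [Pn_eq, nds_eval, Finset.prod_ne_zero_iff]
    intro j _
    positivity
  have h1 := Lt_shift a c hac α β γ (An a * (X - 1) * v)
  have e1 : An a * ((X + C ((c + 1 : ℕ) : ℚ)) * (X - 1) * v) =
      (X + C ((c + 1 : ℕ) : ℚ)) * (An a * (X - 1) * v) := by ring
  have e2 : An a * ((X + C (a : ℚ)) ^ 2 * v.comp (X + 1)) =
      (X + C (a : ℚ)) * (An a * (X - 1) * v).comp (X + 1) := by
    rw [mul_comp, mul_comp]
    simp only [sub_comp, X_comp, one_comp, add_sub_cancel_right]
    have h2 := An_comp a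
    calc An a * ((X + C (a : ℚ)) ^ 2 * v.comp (X + 1))
        = (X + C (a : ℚ)) * ((X + C (a : ℚ)) * An a) * v.comp (X + 1) := by ring
      _ = (X + C (a : ℚ)) * (X * (An a).comp (X + 1)) * v.comp (X + 1) := by rw [h2]
      _ = _ := by ring
  rw [L_eq_Lt, L_eq_Lt, e1, e2, h1]
  simp only [derivative_mul, eval_mul, eval_add, eval_sub, eval_X, eval_one, sub_self, mul_zero,
    zero_mul, derivative_sub, derivative_X, derivative_one, sub_zero, mul_one, zero_add, zero_div,
    add_zero]
  field_simp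
  ring

/-! ### All moments vanish -/

lemma all_zero2 (L : ℚ[X] →ₗ[ℚ] ℚ) (N d : ℕ) (V W : ℚ[X]) (hVd : V.natDegree ≤ d) (hWd : W.natDegree ≤ d)
    (hc : V.coeff d + W.coeff d ≠ 0) (hN : d ≤ N + 1)
    (hP : ∀ u : ℚ[X], L (V * u) + L (W * u.comp (X + 1)) = 0)
    (h0 : ∀ f : ℚ[X], f.natDegree ≤ N → L f = 0) : ∀ f : ℚ[X], L f = 0 := by
  have key : ∀ n : ℕ, ∀ f : ℚ[X], f.natDegree ≤ N + n → L f = 0 := by
    intro n
    induction n with
    | zero => intro f hf; exact h0 f hf
    | succ n ih =>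
      intro f hf
      obtain ⟨k, hk⟩ : ∃ k, N + n + 1 = d + k := ⟨N + n + 1 - d, by omega⟩
      have hs : (((X : ℚ[X]) + 1) ^ k).Monic := by
        apply Monic.pow
        have : (X : ℚ[X]) + 1 = X + C 1 := by rw [C_1]
        rw [this]
        exact monic_X_add_C 1
      have hsd : (((X : ℚ[X]) + 1) ^ k).natDegree = k := by
        rw [natDegree_pow, natDegree_Xp1, mul_one]
      set F : ℚ[X] := V * X ^ k + W * (X ^ k : ℚ[X]).comp (X + 1) with hF
      have hFc : F.coeff (d + k) = V.coeff d + W.coeff d := by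
        rw [hF, coeff_add, coeff_mul_X_pow, pow_comp, X_comp,
          coeff_mul_add_eq_of_natDegree_le hWd hsd.le]
        have h9 := hs.coeff_natDegree
        rw [hsd] at h9
        rw [h9, mul_one]
      have hFd : F.natDegree ≤ d + k := by
        rw [hF]
        refine natDegree_add_le_of_degree_le ?_ ?_
        · refine le_trans natDegree_mul_le ?_
          rw [natDegree_X_pow]
          omega
        · refine le_trans natDegree_mul_le ?_
          rw [pow_comp, X_comp, hsd]
          omega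
      have hLF : L F = 0 := by
        rw [hF, map_add]
        exact hP _
      set c := f.coeff (d + k) / (V.coeff d + W.coeff d) with hcd
      set g := f - C c * F with hg
      have hgd : g.natDegree ≤ N + n := by
        rw [natDegree_le_iff_coeff_eq_zero]
        intro i hi
        rcases Nat.lt_or_ge (d + k) i with h1 | h1
        · rw [hg, coeff_sub, coeff_C_mul, coeff_eq_zero_of_natDegree_lt (by omega : f.natDegree < i),
            coeff_eq_zero_of_natDegree_lt (by omega : F.natDegree < i)]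
          simp
        · have : i = d + k := by omega
          rw [this, hg, coeff_sub, coeff_C_mul, hFc, hcd, div_mul_cancel₀ _ hc, sub_self]
      have hfg : f = c • F + g := by
        rw [hg, smul_eq_C_mul]; ring
      rw [hfg, map_add, map_smul, hLF, smul_zero, zero_add]
      exact ih g hgd
  intro f
  exact key f.natDegree f (by omega)

/-! ### The functional is not zero -/

theorem exists_L_ne_zero (a c : ℕ) (hac : a ≤ c + 1) (α β γ : ℚ) (hab : α ≠ 0 ∨ β ≠ 0) :
    ∃ f : ℚ[X], L a (c + 1) α β γ f ≠ 0 := by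
  classical
  by_contra hcon
  push Not at hcon
  have hD : (Pn a c).eval 1 ≠ 0 := by
    rw [Pn_eq, nds_eval, Finset.prod_ne_zero_iff]
    intro j _
    positivity
  have hP := Lt_shift a c hac α β γ
  set T := Lt a (c + 1) α β γ with hT
  have hcon' : ∀ f : ℚ[X], T (An a * f) = 0 := by
    intro f
    have := hcon f
    rwa [L_eq_Lt] at this
  let J : Ideal ℚ[X] :=
    { carrier := {w | ∀ q : ℚ[X], T (w * q) = 0}
      add_mem' := by
        intro x y hx hy q
        rw [add_mul, map_add, hx q, hy q, add_zero]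
      zero_mem' := by
        intro q
        rw [zero_mul, map_zero]
      smul_mem' := by
        intro c x hx q
        have : c • x * q = x * (c * q) := by rw [smul_eq_mul]; ring
        rw [this]
        exact hx _ }
  have hJ : ∀ w : ℚ[X], w ∈ J ↔ ∀ q : ℚ[X], T (w * q) = 0 := fun w => Iff.rfl
  have hWJ : An a ∈ J := (hJ _).mpr hcon'
  set w0 := Submodule.IsPrincipal.generator J with hw0
  have hmem : ∀ w : ℚ[X], w ∈ J ↔ w0 ∣ w := fun w =>
    Submodule.IsPrincipal.mem_iff_generator_dvd J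
  have hw0J : w0 ∈ J := (hmem w0).mpr dvd_rfl
  have hAn0 : An a ≠ 0 := by
    rw [An_eq]
    exact (nds_monic _).ne_zero
  have hw00 : w0 ≠ 0 := by
    intro h0
    have := (hmem _).mp hWJ
    rw [h0, zero_dvd_iff] at this
    exact hAn0 this
  have hdown : w0 ∣ (X + C ((c + 1 : ℕ) : ℚ)) * (X - 1) ^ 2 * w0.comp (X - 1) := by
    rw [← hmem, hJ]
    intro q
    have h1 := hP ((X - 1) ^ 2 * w0.comp (X - 1) * q)
    have hz : T ((X + C (a : ℚ)) * ((X - 1) ^ 2 * w0.comp (X - 1) * q).comp (X + 1)) = 0 := by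
      have : (X + C (a : ℚ)) * ((X - 1) ^ 2 * w0.comp (X - 1) * q).comp (X + 1)
          = w0 * ((X + C (a : ℚ)) * X ^ 2 * q.comp (X + 1)) := by
        rw [mul_comp, mul_comp, pow_comp, comp_assoc]
        simp only [sub_comp, X_comp, one_comp, add_sub_cancel_right, comp_X]
        ring
      rw [this]
      exact (hJ w0).mp hw0J _
    have hc : (X + C ((c + 1 : ℕ) : ℚ)) * ((X - 1) ^ 2 * w0.comp (X - 1) * q)
        = (X + C ((c + 1 : ℕ) : ℚ)) * (X - 1) ^ 2 * w0.comp (X - 1) * q := by ring
    rw [hz, hc, add_zero] at h1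
    rw [h1]
    simp [derivative_mul, derivative_pow]
  by_cases hpos : w0.natDegree = 0
  · obtain ⟨k, hk⟩ := natDegree_eq_zero.mp hpos
    have hk0 : k ≠ 0 := by
      intro h0
      rw [h0, C_0] at hk
      exact hw00 hk.symm
    have hall : ∀ f : ℚ[X], T f = 0 := by
      intro f
      have h1 := (hJ w0).mp hw0J (C k⁻¹ * f)
      rwa [← hk, ← mul_assoc, ← C_mul, mul_inv_cancel₀ hk0, C_1, one_mul] at h1
    have h2 := hP (X - 1)
    rw [hall, hall] at h2
    simp only [eval_sub, eval_X, eval_one, sub_self, derivative_sub, derivative_X, derivative_one,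
      sub_zero, one_mul, zero_mul, zero_div, mul_zero, add_zero, zero_sub] at h2
    have hβ : β = 0 := by
      by_contra hne
      have : β * ((Pn a c).eval 1 / (Pn a c).eval 1 ^ 2) ≠ 0 :=
        mul_ne_zero hne (div_ne_zero hD (pow_ne_zero 2 hD))
      apply this
      linarith
    have h3 := hP 1
    rw [hall, hall, hβ] at h3
    simp only [eval_one, zero_mul, sub_zero, add_zero] at h3
    have hα : α = 0 := by
      by_contra hne
      have : α * (1 / (Pn a c).eval 1) ≠ 0 := mul_ne_zero hne (div_ne_zero one_ne_zero hD)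
      exact this h3.symm
    rcases hab with h | h
    · exact h hα
    · exact h hβ
  · let F := AlgebraicClosure ℚ
    obtain ⟨x, hx⟩ := IsAlgClosed.exists_aeval_eq_zero F w0 (by
      intro h0
      exact hpos (natDegree_eq_of_degree_eq_some h0))
    obtain ⟨R, hR⟩ := (hmem _).mp hWJ
    have hxA : aeval x (An a) = 0 := by rw [hR, map_mul, hx, zero_mul]
    unfold An at hxA
    rw [map_prod, Finset.prod_eq_zero_iff] at hxA
    obtain ⟨i, hi, hxi⟩ := hxA
    have hia := Finset.mem_range.mp hi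
    have hxi' : x = -(i : F) := by
      simp only [map_add, aeval_X, aeval_C, map_natCast] at hxi
      linear_combination hxi
    have h0 : w0.eval (-(i : ℚ)) = 0 := by
      have h4 : aeval (algebraMap ℚ F (-(i : ℚ))) w0 = algebraMap ℚ F (w0.eval (-(i : ℚ))) :=
        aeval_algebraMap_apply _ _ _
      rw [map_neg, map_natCast, ← hxi', hx] at h4
      exact (map_eq_zero (algebraMap ℚ F)).mp h4.symm
    obtain ⟨R2, hR2⟩ := hdown
    have hd : ∀ j : ℕ, i + j ≤ a → w0.eval (-((i + j : ℕ) : ℚ)) = 0 := by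
      intro j
      induction j with
      | zero => intro _; simpa using h0
      | succ j ih =>
        intro hj
        have h1 := congrArg (eval (-((i + j : ℕ) : ℚ))) hR2
        rw [eval_mul, eval_mul, eval_mul, ih (by omega), zero_mul, eval_comp] at h1
        simp only [eval_sub, eval_X, eval_one, eval_add, eval_C, eval_pow] at h1
        have h3 : -((i + (j + 1) : ℕ) : ℚ) = -((i + j : ℕ) : ℚ) - 1 := by push_cast; ring
        rw [h3]
        rcases mul_eq_zero.mp h1 with h2 | h2
        · rcases mul_eq_zero.mp h2 with h5 | h5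
          · exfalso
            have h6 : ((c + 1 : ℕ) : ℚ) = ((i + j : ℕ) : ℚ) := by linear_combination h5
            have h7 : c + 1 = i + j := by exact_mod_cast h6
            omega
          · exfalso
            have h6 : -((i + j : ℕ) : ℚ) - 1 = 0 := by
              rcases pow_eq_zero_iff (two_ne_zero) |>.mp h5 with h8
              exact h8
            have h7 : ((i + j : ℕ) : ℚ) + 1 = 0 := by linear_combination -h6
            have h8 : i + j + 1 = 0 := by exact_mod_cast h7
            omega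
        · exact h2
    have h5 := hd (a - i) (by omega)
    have h6 : i + (a - i) = a := by omega
    rw [h6] at h5
    have h7 : (An a).eval (-(a : ℚ)) = 0 := by rw [hR, eval_mul, h5, zero_mul]
    rw [An_eq, nds_eval, Finset.prod_eq_zero_iff] at h7
    obtain ⟨j, hj, h8⟩ := h7
    have h9 : (a : ℚ) = (j : ℚ) := by linear_combination -h8
    have h10 : a = j := by exact_mod_cast h9
    have := Finset.mem_range.mp hj
    omega

/-! ### The zero estimate -/

theorem ze (a c N : ℕ) (hac : a ≤ c + 1) (hN : 2 ≤ N) (L : ℚ[X] →ₗ[ℚ] ℚ) (c0 : ℚ)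
    (hP : ∀ v : ℚ[X], L ((X + C ((c + 1 : ℕ) : ℚ)) * (X - 1) * v) +
      L ((X + C (a : ℚ)) ^ 2 * v.comp (X + 1)) = c0 * v.eval 1)
    (hL0 : ∃ f, L f ≠ 0) (Q : ℚ[X]) (hQ0 : Q ≠ 0) (hQ : Zp L N Q)
    (hQh : Q.natDegree + a ≤ c + 1) : N ≤ Q.natDegree + 1 := by
  classical
  by_contra hcon
  have hex : ∃ r : ℕ, ∃ P : ℚ[X], P ≠ 0 ∧ Zp L N P ∧ P.natDegree = r := ⟨_, Q, hQ0, hQ, rfl⟩
  obtain ⟨P, hP0, hPZ, hPr⟩ := Nat.find_spec hex
  have hmin : ∀ P' : ℚ[X], P' ≠ 0 → Zp L N P' → P.natDegree ≤ P'.natDegree := by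
    intro P' h1 h2
    rw [hPr]
    exact Nat.find_min' hex ⟨P', h1, h2, rfl⟩
  have hle := hmin Q hQ0 hQ
  have hr : P.natDegree + 3 ≤ N + 1 := by omega
  clear hPr hcon
  have hdiv1 : P ∣ X * (X + C (a : ℚ)) ^ 2 * P.comp (X + 1) := by
    apply dvd_of_min' L N 3 P _ hP0 hPZ hmin hr
    · refine le_trans natDegree_mul_le ?_
      have h2 : (X * (X + C (a : ℚ)) ^ 2 : ℚ[X]).natDegree ≤ 3 := by
        refine le_trans natDegree_mul_le ?_
        rw [natDegree_pow, natDegree_X_add_C, natDegree_X]
      rw [natDegree_comp, natDegree_Xp1]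
      omega
    · intro g hg
      have h1 := hP (P * ((X - 1) * g.comp (X - 1)))
      have hz : L ((X + C ((c + 1 : ℕ) : ℚ)) * (X - 1) * (P * ((X - 1) * g.comp (X - 1)))) = 0 := by
        have : (X + C ((c + 1 : ℕ) : ℚ)) * (X - 1) * (P * ((X - 1) * g.comp (X - 1)))
            = P * ((X + C ((c + 1 : ℕ) : ℚ)) * (X - 1) * ((X - 1) * g.comp (X - 1))) := by ring
        rw [this]
        apply hPZ
        refine le_trans natDegree_mul_le ?_
        have h3 : ((X + C ((c + 1 : ℕ) : ℚ)) * (X - 1) : ℚ[X]).natDegree ≤ 2 := by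
          refine le_trans natDegree_mul_le ?_
          rw [natDegree_X_add_C, natDegree_Xm1]
        have h2 : ((X - 1) * g.comp (X - 1) : ℚ[X]).natDegree ≤ 1 + g.natDegree := by
          refine le_trans natDegree_mul_le ?_
          rw [natDegree_Xm1, natDegree_comp, natDegree_Xm1]
          omega
        omega
      have hc : (X + C (a : ℚ)) ^ 2 * (P * ((X - 1) * g.comp (X - 1))).comp (X + 1)
          = X * (X + C (a : ℚ)) ^ 2 * P.comp (X + 1) * g := by
        rw [mul_comp, mul_comp, comp_assoc]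
        simp only [sub_comp, X_comp, one_comp, add_sub_cancel_right, comp_X]
        ring
      rw [hz, hc, zero_add] at h1
      rw [h1]
      simp
  have hdiv2 : P ∣ (X + C ((c + 1 : ℕ) : ℚ)) * (X - 1) ^ 2 * P.comp (X - 1) := by
    apply dvd_of_min' L N 3 P _ hP0 hPZ hmin hr
    · refine le_trans natDegree_mul_le ?_
      have h2 : ((X + C ((c + 1 : ℕ) : ℚ)) * (X - 1) ^ 2 : ℚ[X]).natDegree ≤ 3 := by
        refine le_trans natDegree_mul_le ?_
        rw [natDegree_X_add_C, natDegree_pow, natDegree_Xm1]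
      rw [natDegree_comp, natDegree_Xm1]
      omega
    · intro g hg
      have h1 := hP ((X - 1) * P.comp (X - 1) * g)
      have hz : L ((X + C (a : ℚ)) ^ 2 * ((X - 1) * P.comp (X - 1) * g).comp (X + 1)) = 0 := by
        have : (X + C (a : ℚ)) ^ 2 * ((X - 1) * P.comp (X - 1) * g).comp (X + 1)
            = P * ((X + C (a : ℚ)) ^ 2 * X * g.comp (X + 1)) := by
          rw [mul_comp, mul_comp, comp_assoc]
          simp only [sub_comp, X_comp, one_comp, add_sub_cancel_right, comp_X]
          ring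
        rw [this]
        apply hPZ
        refine le_trans natDegree_mul_le ?_
        have h3 : ((X + C (a : ℚ)) ^ 2 * X : ℚ[X]).natDegree ≤ 3 := by
          refine le_trans natDegree_mul_le ?_
          rw [natDegree_pow, natDegree_X_add_C, natDegree_X]
        rw [natDegree_comp, natDegree_Xp1]
        omega
      have hc : (X + C ((c + 1 : ℕ) : ℚ)) * (X - 1) * ((X - 1) * P.comp (X - 1) * g)
          = (X + C ((c + 1 : ℕ) : ℚ)) * (X - 1) ^ 2 * P.comp (X - 1) * g := by ring
      rw [hz, hc, add_zero] at h1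
      rw [h1]
      simp
  by_cases hpos : P.natDegree = 0
  · obtain ⟨k, hk⟩ := natDegree_eq_zero.mp hpos
    have hk0 : k ≠ 0 := by
      rintro rfl
      exact hP0 (by rw [← hk, C_0])
    have hall : ∀ f : ℚ[X], f.natDegree ≤ N → L f = 0 := by
      intro f hf
      have h1 := hPZ (C k⁻¹ * f) (le_trans natDegree_mul_le (by rw [natDegree_C]; omega))
      rwa [← hk, ← mul_assoc, ← C_mul, mul_inv_cancel₀ hk0, C_1, one_mul] at h1
    have hV : ((X + C ((c + 1 : ℕ) : ℚ)) * (X - 1) : ℚ[X]).natDegree ≤ 2 := by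
      refine le_trans natDegree_mul_le ?_
      rw [natDegree_X_add_C, natDegree_Xm1]
    have hW : ((X + C (a : ℚ)) ^ 2 : ℚ[X]).natDegree ≤ 2 := by
      rw [natDegree_pow, natDegree_X_add_C]
    have hc0 : c0 = 0 := by
      have h1 := hP 1
      rw [mul_one, one_comp, mul_one, hall _ (by omega), hall _ (by omega)] at h1
      simpa using h1.symm
    have hVc : ((X + C ((c + 1 : ℕ) : ℚ)) * (X - 1) : ℚ[X]).coeff 2 = 1 := by
      have e1 : (X + C ((c + 1 : ℕ) : ℚ)) * (X - 1) = (X + C ((c + 1 : ℕ) : ℚ)) * (X - C 1) := by rw [C_1]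
      have h1 : ((X + C ((c + 1 : ℕ) : ℚ)) * (X - C 1) : ℚ[X]).Monic :=
        (monic_X_add_C _).mul (monic_X_sub_C _)
      have h2 : ((X + C ((c + 1 : ℕ) : ℚ)) * (X - C 1) : ℚ[X]).natDegree = 2 := by
        rw [(monic_X_add_C _).natDegree_mul (monic_X_sub_C _), natDegree_X_add_C, natDegree_X_sub_C]
      have h3 := h1.coeff_natDegree
      rw [h2] at h3
      rw [e1, h3]
    have hWc : ((X + C (a : ℚ)) ^ 2 : ℚ[X]).coeff 2 = 1 := by
      have h1 : ((X + C (a : ℚ)) ^ 2 : ℚ[X]).Monic := (monic_X_add_C _).pow 2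
      have h3 := h1.coeff_natDegree
      rwa [natDegree_pow, natDegree_X_add_C, mul_one] at h3
    obtain ⟨f, hf⟩ := hL0
    apply hf
    apply all_zero2 L N 2 _ _ hV hW (by rw [hVc, hWc]; norm_num) (by omega) _ hall
    intro u
    rw [hP u, hc0, zero_mul]
  · let F := AlgebraicClosure ℚ
    obtain ⟨x, hx⟩ := IsAlgClosed.exists_aeval_eq_zero F P (by
      intro h0
      exact hpos (natDegree_eq_of_degree_eq_some h0))
    obtain ⟨R1, hR1⟩ := hdiv1
    obtain ⟨R2, hR2⟩ := hdiv2
    have up : ∀ y : F, aeval y P = 0 → y ≠ 0 → y + (a : F) ≠ 0 → aeval (y + 1) P = 0 := by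
      intro y hy hy0 hya
      have h1 := congrArg (aeval y) hR1
      rw [map_mul, map_mul, map_mul, hy, zero_mul, map_pow, aeval_X, aeval_comp] at h1
      simp only [map_add, aeval_X, map_one, aeval_C, map_natCast] at h1
      rcases mul_eq_zero.mp h1 with h2 | h2
      · exact absurd h2 (mul_ne_zero hy0 (pow_ne_zero _ hya))
      · exact h2
    have down : ∀ y : F, aeval y P = 0 → y ≠ 1 → y + ((c + 1 : ℕ) : F) ≠ 0 →
        aeval (y - 1) P = 0 := by
      intro y hy hy1 hyh
      have h1 := congrArg (aeval y) hR2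
      rw [map_mul, map_mul, map_mul, hy, zero_mul, map_pow, aeval_comp] at h1
      simp only [map_add, map_sub, aeval_X, map_one, aeval_C, map_natCast] at h1
      rcases mul_eq_zero.mp h1 with h2 | h2
      · exact absurd h2 (mul_ne_zero hyh (pow_ne_zero _ (sub_ne_zero.mpr hy1)))
      · exact h2
    have hxn : ∃ n : ℕ, x + (n : F) = 0 := by
      by_contra hno
      push Not at hno
      apply hP0
      apply eq_zero_of_roots P x (P.natDegree + 1) (Nat.lt_succ_self _) (1 : F) one_ne_zero
      intro i _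
      rw [one_mul]
      induction i with
      | zero => simpa using hx
      | succ i ih =>
        have h1 := up _ (ih (by omega)) (hno i) (by
          intro h0
          apply hno (i + a)
          push_cast
          rw [← h0]
          ring)
        have h2 : x + ((i + 1 : ℕ) : F) = x + (i : F) + 1 := by push_cast; ring
        rw [h2]; exact h1
    obtain ⟨n, hn⟩ := hxn
    have hxn' : x = -(n : F) := by linear_combination hn
    have neg1 : ∀ j : ℕ, -(j : F) ≠ 1 := by
      intro j h0
      have : ((j + 1 : ℕ) : F) = 0 := by push_cast; linear_combination -h0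
      have : j + 1 = 0 := by exact_mod_cast this
      omega
    have hnb : n ≤ c + 1 := by
      by_contra hnb
      apply hP0
      apply eq_zero_of_roots P x (P.natDegree + 1) (Nat.lt_succ_self _) (-1 : F) (by norm_num)
      intro i _
      induction i with
      | zero => simpa using hx
      | succ i ih =>
        have e1 : x + -1 * (i : F) = -((n + i : ℕ) : F) := by rw [hxn']; push_cast; ring
        have h1 := ih (by omega)
        rw [e1] at h1
        have h2 := down _ h1 (neg1 _) (by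
          intro h0
          have h3 : ((c + 1 : ℕ) : F) = ((n + i : ℕ) : F) := by linear_combination h0
          have h4 : c + 1 = n + i := by exact_mod_cast h3
          omega)
        have h5 : x + -1 * ((i + 1 : ℕ) : F) = -((n + i : ℕ) : F) - 1 := by
          rw [hxn']; push_cast; ring
        rw [h5]; exact h2
    -- going down from `-n`
    have hdown : ∀ j : ℕ, n ≤ j → j ≤ c + 1 → aeval (-(j : F)) P = 0 := by
      intro j hj
      induction j, hj using Nat.le_induction with
      | base => intro _; rw [← hxn']; exact hx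
      | succ j hj ih =>
        intro hj2
        have h2 := down _ (ih (by omega)) (neg1 j) (by
          intro h0
          have h3 : ((c + 1 : ℕ) : F) = ((j : ℕ) : F) := by linear_combination h0
          have h4 : c + 1 = j := by exact_mod_cast h3
          omega)
        have h3 : -((j + 1 : ℕ) : F) = -(j : F) - 1 := by push_cast; ring
        rw [h3]; exact h2
    -- going up from `-n`
    have hup : ∀ i : ℕ, a + i ≤ n → aeval (-((n - i : ℕ) : F)) P = 0 := by
      intro i
      induction i with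
      | zero => intro _; rw [Nat.sub_zero, ← hxn']; exact hx
      | succ i ih =>
        intro hi
        have h2 := up _ (ih (by omega)) (by
          rw [neg_ne_zero]
          have : n - i ≠ 0 := by omega
          exact_mod_cast this) (by
          intro h0
          have h3 : ((a : ℕ) : F) = ((n - i : ℕ) : F) := by linear_combination h0
          have h4 : a = n - i := by exact_mod_cast h3
          omega)
        have h3 : -((n - i : ℕ) : F) + 1 = -((n - (i + 1) : ℕ) : F) := by
          have : n - i = (n - (i + 1)) + 1 := by omega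
          rw [this]; push_cast; ring
        rw [← h3]; exact h2
    apply hP0
    apply eq_zero_of_roots P (-(a : F)) (c + 1 - a + 1) (by omega) (-1 : F) (by norm_num)
    intro i hi
    have h3 : -(a : F) + -1 * (i : F) = -((a + i : ℕ) : F) := by push_cast; ring
    rw [h3]
    by_cases hcase : n ≤ a + i
    · exact hdown _ hcase (by omega)
    · have h4 := hup (n - (a + i)) (by omega)
      have h5 : n - (n - (a + i)) = a + i := by omega
      rwa [h5] at h4

/-- general non-vanishing statement -/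
theorem nv_gen (a c N : ℕ) (hac : a ≤ c + 1) (hN : 2 ≤ N) (hNc : N ≤ c + 3 - a) (α β γ : ℚ)
    (h : α ≠ 0 ∨ β ≠ 0) : ∃ m : ℕ, N - 1 ≤ m ∧ m ≤ N + 1 ∧ DD a (c + 1) m α β γ ≠ 0 := by
  obtain ⟨s, hs, hD, Q, hQm, hQd, hQ⟩ := exists_orth (L a (c + 1) α β γ) (N + 1)
  refine ⟨s, ?_, hs, hD⟩
  by_contra hcon
  have := ze a c N hac hN (L a (c + 1) α β γ) _ (L_shift a c hac α β γ)
    (exists_L_ne_zero a c hac α β γ h) Q hQm.ne_zero
    (fun f hf => orth_ext _ Q N (fun j hj => hQ j (by omega)) f hf) (by omega)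
  omega

theorem N_main {n : ℕ} (hn : 1 ≤ n) (α β γ : ℚ) (h : α ≠ 0 ∨ β ≠ 0) :
    ∃ m : ℕ, 4 * n - 1 ≤ m ∧ m ≤ 4 * n + 1 ∧ DD n (5 * n) m α β γ ≠ 0 := by
  have h1 := nv_gen n (5 * n - 1) (4 * n) (by omega) (by omega) (by omega) α β γ h
  have h2 : 5 * n - 1 + 1 = 5 * n := by omega
  rw [h2] at h1
  exact h1

end

end Pool.Agent.LP
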