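import Pool.Agent.H422R2.LP.Reduce

/-!
# `p`-adic bounds for the Hankel determinants, `p` odd
-/

open Polynomial

namespace Pool.Agent.LP

noncomputable section

lemma lam0_norm {p : ℕ} [Fact p.Prime] (r k : ℕ) : padicNorm p (lam0 r k) ≤ 1 := by
  unfold lam0
  split_ifs
  · simp
  · simp
  · have := padicNorm.of_int (p := p) (1 - (k : ℤ))
    push_cast at this
    exact this

lemma lam1_norm {p : ℕ} [Fact p.Prime] (r k : ℕ) : padicNorm p (lam1 r k) ≤ 1 := by
  unfold lam1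
  split_ifs
  · simp
  · simp
  · exact padicNorm.of_nat k

lemma ratio0 {p : ℕ} [Fact p.Prime] {h l : ℕ} (r : ℕ) (hl : l ≤ h) :
    padicNorm p (cc h l * lam0 r l / cc h 0) ≤ 1 := by
  have h7 : ((h.factorial : ℕ) : ℚ) ≠ 0 := by exact_mod_cast Nat.factorial_ne_zero h
  have h1 : cc h l * lam0 r l / cc h 0 = (h.choose l : ℚ) * lam0 r l := by
    rw [cc_eq hl, cc_eq (Nat.zero_le h), Nat.choose_zero_right]
    field_simp
    simp
  rw [h1]
  simpa using norm_mul_le (padicNorm.of_nat (p := p) (h.choose l)) (lam0_norm r l)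

lemma ratio1 {p : ℕ} [Fact p.Prime] {h l : ℕ} (r : ℕ) (hh : 1 ≤ h) (hl : l ≤ h) :
    padicNorm p (cc h l * lam1 r l / cc h 1) ≤ 1 := by
  unfold lam1
  split_ifs
  · simp
  · simp
  · have h7 : ((h.factorial : ℕ) : ℚ) ≠ 0 := by exact_mod_cast Nat.factorial_ne_zero h
    have h8 : (h : ℚ) ≠ 0 := by positivity
    have h1 : cc h l * (l : ℚ) / cc h 1 = (h.choose l : ℚ) * l / h := by
      rw [cc_eq hl, cc_eq hh, Nat.choose_one_right]
      field_simp
    rw [h1]
    rcases Nat.eq_zero_or_pos l with rfl | hlpos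
    · simp
    · obtain ⟨n, rfl⟩ : ∃ n, h = n + 1 := ⟨h - 1, by omega⟩
      obtain ⟨k, rfl⟩ : ∃ k, l = k + 1 := ⟨l - 1, by omega⟩
      have h2 := Nat.add_one_mul_choose_eq n k
      have h3 : ((n : ℚ) + 1) * (n.choose k : ℚ) = ((n + 1).choose (k + 1) : ℚ) * ((k : ℚ) + 1) := by
        exact_mod_cast h2
      have h4 : ((n + 1).choose (k + 1) : ℚ) * ((k + 1 : ℕ) : ℚ) / ((n + 1 : ℕ) : ℚ) = (n.choose k : ℚ) := by
        rw [div_eq_iff h8]
        push_cast
        linear_combination -h3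
      rw [h4]
      exact padicNorm.of_nat _

lemma norm_sub_le {p : ℕ} [Fact p.Prime] {a b A : ℚ} (ha : padicNorm p a ≤ A) (hb : padicNorm p b ≤ A) :
    padicNorm p (a - b) ≤ A := (padicNorm.sub).trans (max_le ha hb)

lemma L_bb (L : ℚ[X] →ₗ[ℚ] ℚ) (h r k l : ℕ) (c : ℚ) :
    c * L (bb h r k * bb h r l) =
      (c * L (n1 h k * n1 h l) - c * lam0 r l * L (n1 h k * n1 h 0) - c * lam1 r l * L (n1 h k * n1 h 1)) -
      lam0 r k * (c * L (n1 h 0 * n1 h l) - c * lam0 r l * L (n1 h 0 * n1 h 0) - c * lam1 r l * L (n1 h 0 * n1 h 1)) -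
      lam1 r k * (c * L (n1 h 1 * n1 h l) - c * lam0 r l * L (n1 h 1 * n1 h 0) - c * lam1 r l * L (n1 h 1 * n1 h 1)) := by
  have h1 : bb h r k * bb h r l =
      (n1 h k * n1 h l - lam0 r l • (n1 h k * n1 h 0) - lam1 r l • (n1 h k * n1 h 1)) -
      lam0 r k • (n1 h 0 * n1 h l - lam0 r l • (n1 h 0 * n1 h 0) - lam1 r l • (n1 h 0 * n1 h 1)) -
      lam1 r k • (n1 h 1 * n1 h l - lam0 r l • (n1 h 1 * n1 h 0) - lam1 r l • (n1 h 1 * n1 h 1)) := by
    unfold bb
    simp only [smul_eq_C_mul]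
    ring
  rw [h1]
  simp only [map_sub, map_smul, smul_eq_mul]
  ring

/-- uniform bound -/
lemma norm_bb {p : ℕ} [Fact p.Prime] (L : ℚ[X] →ₗ[ℚ] ℚ) {h r : ℕ} (hh : 1 ≤ h) {B : ℚ}
    (hB : ∀ k l : ℕ, k ≤ h → l ≤ h → padicNorm p (cc h l * L (n1 h k * n1 h l)) ≤ B) {k l : ℕ}
    (hk : k ≤ h) (hl : l ≤ h) : padicNorm p (cc h l * L (bb h r k * bb h r l)) ≤ B := by
  have hF : ∀ j : ℕ, j ≤ h → padicNorm p (cc h l * L (n1 h j * n1 h l) -
      cc h l * lam0 r l * L (n1 h j * n1 h 0) - cc h l * lam1 r l * L (n1 h j * n1 h 1)) ≤ B := by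
    intro j hj
    have hc0 : cc h 0 ≠ 0 := (cc_pos h _).ne'
    have hc1 : cc h 1 ≠ 0 := (cc_pos h _).ne'
    refine norm_sub_le (norm_sub_le (hB j l hj hl) ?_) ?_
    · have h1 : cc h l * lam0 r l * L (n1 h j * n1 h 0) =
        (cc h l * lam0 r l / cc h 0) * (cc h 0 * L (n1 h j * n1 h 0)) := by
        field_simp
      rw [h1]
      simpa using norm_mul_le (ratio0 (p := p) r hl) (hB j 0 hj (Nat.zero_le _))
    · have h1 : cc h l * lam1 r l * L (n1 h j * n1 h 1) =
        (cc h l * lam1 r l / cc h 1) * (cc h 1 * L (n1 h j * n1 h 1)) := by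
        field_simp
      rw [h1]
      simpa using norm_mul_le (ratio1 (p := p) r hh hl) (hB j 1 hj hh)
  rw [L_bb]
  refine norm_sub_le (norm_sub_le (hF k hk) ?_) ?_
  · simpa using norm_mul_le (lam0_norm (p := p) r k) (hF 0 (Nat.zero_le _))
  · simpa using norm_mul_le (lam1_norm (p := p) r k) (hF 1 hh)

/-- integral bound -/
lemma norm_bb_IC {p : ℕ} [Fact p.Prime] (L : ℚ[X] →ₗ[ℚ] ℚ) {h r : ℕ} {k l : ℕ}
    (hl : ∀ j : ℕ, padicNorm p (L (n1 h j * n1 h l)) ≤ 1)
    (h0 : ∀ j : ℕ, padicNorm p (L (n1 h j * n1 h 0)) ≤ 1)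
    (h1 : ∀ j : ℕ, padicNorm p (L (n1 h j * n1 h 1)) ≤ 1) :
    padicNorm p (cc h l * L (bb h r k * bb h r l)) ≤ padicNorm p (cc h l) := by
  have hF : ∀ j : ℕ, padicNorm p (1 * L (n1 h j * n1 h l) -
      1 * lam0 r l * L (n1 h j * n1 h 0) - 1 * lam1 r l * L (n1 h j * n1 h 1)) ≤ 1 := by
    intro j
    simp only [one_mul]
    refine norm_sub_le (norm_sub_le (hl j) ?_) ?_
    · simpa using norm_mul_le (lam0_norm (p := p) r l) (h0 j)
    · simpa using norm_mul_le (lam1_norm (p := p) r l) (h1 j)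
  have h2 : padicNorm p (1 * L (bb h r k * bb h r l)) ≤ 1 := by
    rw [L_bb]
    refine norm_sub_le (norm_sub_le (hF k) ?_) ?_
    · simpa using norm_mul_le (lam0_norm (p := p) r k) (hF 0)
    · simpa using norm_mul_le (lam1_norm (p := p) r k) (hF 1)
  rw [one_mul] at h2
  simpa using norm_mul_le (le_refl (padicNorm p (cc h l))) h2

lemma norm_prod_mu {p : ℕ} [Fact p.Prime] {h r m : ℕ} (hr : r ≤ 2) (hm : r + m = h + 1) :
    padicNorm p ((h.factorial : ℚ) ^ 2) ≤ padicNorm p (∏ i : Fin m, mu r (r + i)) := by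
  have h1 : ∃ z : ℤ, ((h.factorial : ℚ) ^ 2) = z * ∏ i : Fin m, mu r (r + i) := by
    interval_cases r
    · refine ⟨(h.factorial : ℤ) ^ 2, ?_⟩
      simp [mu]
    · have hm' : m = h := by omega
      subst hm'
      refine ⟨(-1) ^ m * (m.factorial : ℤ), ?_⟩
      have h2 : ∏ i : Fin m, mu 1 (1 + i) = (-1) ^ m * (m.factorial : ℚ) := by
        rw [Fin.prod_univ_eq_prod_range (fun i => mu 1 (1 + i)) m, ← Finset.prod_range_add_one_eq_factorial]
        push_cast
        rw [← Finset.card_range m, ← Finset.prod_const, Finset.card_range, ← Finset.prod_mul_distrib]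
        refine Finset.prod_congr rfl fun j _ => ?_
        unfold mu
        rw [if_neg one_ne_zero, if_pos rfl]
        push_cast
        ring
      rw [h2]
      push_cast
      have h3 : ((-1 : ℚ) ^ m) * (-1) ^ m = 1 := by rw [← mul_pow]; norm_num
      linear_combination (-(m.factorial : ℚ) ^ 2) * h3
    · have hm' : h = m + 1 := by omega
      subst hm'
      refine ⟨(m : ℤ) + 1, ?_⟩
      have h2 : ∏ i : Fin m, mu 2 (2 + i) = ((m + 1).factorial : ℚ) * (m.factorial : ℚ) := by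
        rw [Fin.prod_univ_eq_prod_range (fun i => mu 2 (2 + i)) m]
        have h4 : ((m + 1).factorial : ℚ) = ∏ i ∈ Finset.range m, ((i : ℚ) + 2) := by
          rw [← Finset.prod_range_add_one_eq_factorial, Finset.prod_range_succ']
          push_cast
          simp only [zero_add, mul_one]
          refine Finset.prod_congr rfl fun j _ => ?_
          ring
        rw [h4, ← Finset.prod_range_add_one_eq_factorial]
        push_cast
        rw [← Finset.prod_mul_distrib]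
        refine Finset.prod_congr rfl fun j _ => ?_
        unfold mu
        rw [if_neg two_ne_zero, if_neg (by norm_num)]
        push_cast
        ring
      rw [h2, Nat.factorial_succ]
      push_cast
      ring
  obtain ⟨z, hz⟩ := h1
  rw [hz]
  simpa using norm_mul_le (padicNorm.of_int (p := p) z) (le_refl (padicNorm p (∏ i : Fin m, mu r (r + i))))

/-- general column bound -/
theorem norm_hankel {p : ℕ} [Fact p.Prime] (L : ℚ[X] →ₗ[ℚ] ℚ) {h r m : ℕ} (hr : r ≤ 2)
    (hm : r + m = h + 1) (B : ℕ → ℚ)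
    (hB : ∀ k l : ℕ, k ≤ h → l ≤ h → padicNorm p (cc h l * L (bb h r k * bb h r l)) ≤ B l) :
    padicNorm p ((h.factorial : ℚ) ^ 2 * (HkQ L m).det) ≤ ∏ i ∈ Finset.range m, B (r + i) := by
  rw [padicNorm.mul]
  refine (mul_le_mul_of_nonneg_right (norm_prod_mu hr hm) (padicNorm.nonneg _)).trans ?_
  rw [norm_hankel_bb L hr hm, ← Fin.prod_univ_eq_prod_range (fun i => B (r + i)) m]
  refine norm_det _ (fun j => B (r + j)) fun i j => ?_
  have hi := i.2
  have hj := j.2
  exact hB _ _ (by omega) (by omega)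

end

end Pool.Agent.LP
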