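import Pool.Agent.H422R2.LP.Defs

/-! The two quantities used by the p-adic bounds `P_large`, `P_small`, `P_main` (copied from `Stubs.lean`). -/

namespace Pool.Agent.LP

/-- cost of the column of the pole `n + l` (`0 ≤ l ≤ 4n`) -/
def wl (n p l : ℕ) : ℕ := if p ≤ l + n then 2 else min 2 ((4 * n - l) / p)

/-- `∏_{l=0}^{4n} (l+n)!/l!` -/
def dB (n : ℕ) : ℕ := ∏ l ∈ Finset.range (4 * n + 1), (l + 1).ascFactorial n

end Pool.Agent.LP
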