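import Pool.Agent.H422R2.LP.Red2
import Pool.Agent.H422R2.LP.Bound
import Pool.Agent.H422R2.LP.DefsP

/-!
# `P_big`, `P_large`, `P_small`
-/

open Polynomial

namespace Pool.Agent.LP

noncomputable section

/-! ### `P_big` -/

theorem P_big {n p m : ℕ} [Fact p.Prime] (hn : 1 ≤ n) (hp : 5 * n < p) (_hm : m ≤ 4 * n + 1) (α β γ : ℤ) :
    padicNorm p (DD n (5 * n) m α β γ) ≤ 1 := by
  have hp2 : p ≠ 2 := by omega
  have hab : n ≤ 5 * n := by omega
  have hα : padicNorm p (α : ℚ) ≤ 1 := padicNorm.of_int α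
  have hβ : padicNorm p (β : ℚ) ≤ 1 := padicNorm.of_int β
  have hγ : padicNorm p (γ : ℚ) ≤ 1 := padicNorm.of_int γ
  have hlt : 5 * n < p ^ 2 := by nlinarith
  have key : ∀ f : ℚ[X], IC p f → padicNorm p (L n (5 * n) α β γ f) ≤ 1 := by
    intro f hf
    rw [L_eq_LL hab, LL_apply]
    have hA : IC p (An n) := IC_nd _
    have hF : IC p (1 * (An n * (An n * f))) := IC.one.mul (hA.mul (hA.mul hf))
    refine norm_add_le ?_ ?_
    · refine padicNorm.sum_le' (fun k hk => ?_) zero_le_one
      rw [Finset.mem_range] at hk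
      have h1 : padicNorm p (cc (5 * n) k) ≤ 1 := by
        rw [norm_cc (by omega) hlt, Nat.div_eq_of_lt (by omega), Nat.div_eq_of_lt (by omega)]
        simp
      have h2 := hF.eval (-k)
      push_cast at h2
      have h3 : padicNorm p ((γ : ℚ) + sS α β k) ≤ 1 :=
        norm_add_le hγ (by simpa using norm_sS (κ := 0) hα hβ (show k < p ^ (0 + 1) by rw [zero_add, pow_one]; omega))
      simpa using norm_mul_le (norm_mul_le h1 h2) h3
    · -- division by the monic product keeps integrality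
      refine norm_EE_IC hp2 hα hβ ?_
      have hdiv : ∀ (S : Finset ℕ) (q : ℚ[X]), IC p q → IC p (q /ₘ nd S) := by
        intro S
        induction S using Finset.induction_on with
        | empty =>
          intro q hq
          have : nd ∅ = 1 := by simp [nd]
          rw [this, divByMonic_one]
          exact hq
        | insert j S hj ih =>
          intro q hq
          have h4 : nd (insert j S) = (X + C (j : ℚ)) * nd S := by
            unfold nd
            rw [Finset.prod_insert hj]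
          have h5 : q /ₘ nd (insert j S) = (q /ₘ (X + C (j : ℚ))) /ₘ nd S := by
            rw [h4]
            have hm1 : (X + C (j : ℚ)).Monic := monic_X_add_C _
            have hm2 : (nd S).Monic := nd_monic _
            have e1 := modByMonic_add_div q (X + C (j : ℚ))
            have e2 := modByMonic_add_div (q /ₘ (X + C (j : ℚ))) (nd S)
            refine (div_modByMonic_unique _ (q %ₘ (X + C (j : ℚ)) +
              (X + C (j : ℚ)) * ((q /ₘ (X + C (j : ℚ))) %ₘ nd S)) (hm1.mul hm2) ⟨?_, ?_⟩).1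
            · linear_combination e1 + (X + C (j : ℚ)) * e2
            · refine (degree_add_le _ _).trans_lt (max_lt ?_ ?_)
              · refine (degree_modByMonic_lt _ hm1).trans_le ?_
                rw [degree_mul]
                have : (0 : WithBot ℕ) ≤ (nd S).degree := by
                  rw [degree_eq_natDegree hm2.ne_zero]
                  exact_mod_cast Nat.zero_le _
                exact le_add_of_nonneg_right this
              · rw [degree_mul, degree_mul]
                exact WithBot.add_lt_add_left (degree_ne_bot.2 hm1.ne_zero) (degree_modByMonic_lt _ hm2)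
          rw [h5]
          apply ih
          have h6 : (X + C (j : ℚ) : ℚ[X]) = X - C (((-(j : ℤ) : ℤ)) : ℚ) := by
            push_cast
            rw [C_neg, sub_neg_eq_add]
          rw [h6]
          exact hq.div _
      exact hdiv _ _ hF
  have hX : ∀ j : ℕ, IC p ((X : ℚ[X]) ^ j) := by
    intro j i
    rw [coeff_X_pow]
    split_ifs <;> simp
  unfold DD
  refine (norm_det _ (fun _ => 1) fun i j => ?_).trans (by simp)
  rw [Matrix.of_apply]
  exact key _ (hX _)

/-! ### common part -/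

lemma la0_norm {p : ℕ} [Fact p.Prime] (r s k : ℕ) : padicNorm p (la0 r s k) ≤ 1 := by
  unfold la0
  split_ifs
  · simp
  · simp
  · have := padicNorm.of_int (p := p) (1 - ((k : ℤ) - s))
    push_cast at this
    exact this

lemma la1_norm {p : ℕ} [Fact p.Prime] (r s k : ℕ) : padicNorm p (la1 r s k) ≤ 1 := by
  unfold la1
  split_ifs
  · simp
  · simp
  · have := padicNorm.of_int (p := p) ((k : ℤ) - s)
    push_cast at this
    exact this

lemma L_gg (L : ℚ[X] →ₗ[ℚ] ℚ) (a b r s k l : ℕ) (c : ℚ) :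
    c * L (gg a b r s k * gg a b r s l) =
      (c * L (el a b k * el a b l) - c * la0 r s l * L (el a b k * el a b s) - c * la1 r s l * L (el a b k * el a b (s + 1))) -
      la0 r s k * (c * L (el a b s * el a b l) - c * la0 r s l * L (el a b s * el a b s) - c * la1 r s l * L (el a b s * el a b (s + 1))) -
      la1 r s k * (c * L (el a b (s + 1) * el a b l) - c * la0 r s l * L (el a b (s + 1) * el a b s) - c * la1 r s l * L (el a b (s + 1) * el a b (s + 1))) := by
  have h1 : gg a b r s k * gg a b r s l =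
      (el a b k * el a b l - la0 r s l • (el a b k * el a b s) - la1 r s l • (el a b k * el a b (s + 1))) -
      la0 r s k • (el a b s * el a b l - la0 r s l • (el a b s * el a b s) - la1 r s l • (el a b s * el a b (s + 1))) -
      la1 r s k • (el a b (s + 1) * el a b l - la0 r s l • (el a b (s + 1) * el a b s) - la1 r s l • (el a b (s + 1) * el a b (s + 1))) := by
    unfold gg
    simp only [smul_eq_C_mul]
    ring
  rw [h1]
  simp only [map_sub, map_smul, smul_eq_mul]
  ring

/-- entry bound, unified -/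
lemma norm_gg {p : ℕ} [Fact p.Prime] (L : ℚ[X] →ₗ[ℚ] ℚ) {a b r s k l : ℕ} {c B : ℚ}
    (hk : k ∈ Finset.Icc a b) (hs : s ∈ Finset.Icc a b) (hs1 : s + 1 ∈ Finset.Icc a b)
    (h1 : ∀ j ∈ Finset.Icc a b, padicNorm p (c * L (el a b j * el a b l)) ≤ B)
    (h2 : ∀ j ∈ Finset.Icc a b, padicNorm p (c * la0 r s l * L (el a b j * el a b s)) ≤ B)
    (h3 : ∀ j ∈ Finset.Icc a b, padicNorm p (c * la1 r s l * L (el a b j * el a b (s + 1))) ≤ B) :
    padicNorm p (c * L (gg a b r s k * gg a b r s l)) ≤ B := by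
  have hF : ∀ j ∈ Finset.Icc a b, padicNorm p (c * L (el a b j * el a b l) -
      c * la0 r s l * L (el a b j * el a b s) - c * la1 r s l * L (el a b j * el a b (s + 1))) ≤ B :=
    fun j hj => norm_sub_le (norm_sub_le (h1 j hj) (h2 j hj)) (h3 j hj)
  rw [L_gg]
  refine norm_sub_le (norm_sub_le (hF k hk) ?_) ?_
  · simpa using norm_mul_le (la0_norm (p := p) r s k) (hF s hs)
  · simpa using norm_mul_le (la1_norm (p := p) r s k) (hF (s + 1) hs1)

/-- products of differences -/
lemma norm_fac_le_prod {p : ℕ} [Fact p.Prime] {b s : ℕ} (hs : s ≤ b) (S : Finset ℕ)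
    (hS : S ⊆ (Finset.range (b + 1)).erase s) :
    padicNorm p (b.factorial : ℚ) ≤ ∏ k ∈ S, padicNorm p ((k : ℚ) - s) := by
  have h1 : padicNorm p ((n1 b s).eval (-(s : ℚ))) = ∏ k ∈ (Finset.range (b + 1)).erase s, padicNorm p ((k : ℚ) - s) := by
    unfold n1
    rw [nd_eval, norm_prod]
    refine Finset.prod_congr rfl fun j _ => ?_
    congr 1
    ring
  have h2 : padicNorm p (b.factorial : ℚ) ≤ padicNorm p ((n1 b s).eval (-(s : ℚ))) := by
    rw [n1_eval_self hs, div_eq_mul_inv, padicNorm.mul, norm_neg_one_pow, one_mul]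
    have h3 := Nat.choose_mul_factorial_mul_factorial hs
    have h4 : (b.factorial : ℚ) = (b.choose s : ℚ) * (cc b s)⁻¹ := by
      rw [← h3]
      unfold cc
      push_cast
      rw [one_div, inv_inv]
      ring
    rw [h4]
    simpa using norm_mul_le (padicNorm.of_nat (p := p) (b.choose s)) (le_refl (padicNorm p (cc b s)⁻¹))
  refine h2.trans (h1.trans_le ?_)
  rw [← Finset.prod_sdiff hS]
  have h3 : ∏ x ∈ (Finset.range (b + 1)).erase s \ S, padicNorm p ((x : ℚ) - s) ≤ 1 := by
    refine Finset.prod_le_one (fun _ _ => padicNorm.nonneg _) fun x _ => ?_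
    have := padicNorm.of_int (p := p) ((x : ℤ) - s)
    push_cast at this
    exact this
  have h4 : 0 ≤ ∏ x ∈ S, padicNorm p ((x : ℚ) - s) := Finset.prod_nonneg fun _ _ => padicNorm.nonneg _
  nlinarith

lemma norm_fac_le_mm {p : ℕ} [Fact p.Prime] {a b r s : ℕ} (hr : r ≤ 2) (hs : s ∈ Finset.Icc a b)
    (hs1 : s + 1 ∈ Finset.Icc a b) :
    padicNorm p (b.factorial : ℚ) ^ 2 ≤ padicNorm p (∏ k ∈ SS a b r s, mm r s k) := by
  rw [Finset.mem_Icc] at hs hs1
  have hle : padicNorm p (b.factorial : ℚ) ≤ 1 := padicNorm.of_nat _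
  have h0 : 0 ≤ padicNorm p (b.factorial : ℚ) := padicNorm.nonneg _
  rw [norm_prod]
  interval_cases r
  · simp only [mm, if_true, padicNorm.one, Finset.prod_const_one]
    exact pow_le_one₀ h0 hle
  · have h1 := norm_fac_le_prod (p := p) (b := b) (s := s) hs.2 (SS a b 1 s) (by
      intro j hj
      simp only [SS, one_ne_zero, if_false, if_true] at hj
      rw [Finset.mem_erase, Finset.mem_Icc] at hj
      rw [Finset.mem_erase, Finset.mem_range]
      omega)
    simp only [mm, one_ne_zero, if_false, if_true]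
    simp only [padicNorm.neg]
    nlinarith
  · have h1 := norm_fac_le_prod (p := p) (b := b) (s := s) hs.2 (SS a b 2 s) (by
      intro j hj
      simp only [SS] at hj
      rw [if_neg two_ne_zero, if_neg (by norm_num : ¬ (2 : ℕ) = 1), Finset.mem_erase, Finset.mem_erase, Finset.mem_Icc] at hj
      rw [Finset.mem_erase, Finset.mem_range]
      omega)
    have h2 := norm_fac_le_prod (p := p) (b := b) (s := s + 1) hs1.2 (SS a b 2 s) (by
      intro j hj
      simp only [SS] at hj
      rw [if_neg two_ne_zero, if_neg (by norm_num : ¬ (2 : ℕ) = 1), Finset.mem_erase, Finset.mem_erase, Finset.mem_Icc] at hj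
      rw [Finset.mem_erase, Finset.mem_range]
      omega)
    simp only [mm, if_neg (show ¬ (2 : ℕ) = 0 by norm_num), if_neg (show ¬ (2 : ℕ) = 1 by norm_num),
      padicNorm.mul]
    rw [Finset.prod_mul_distrib, pow_two]
    exact mul_le_mul h1 h2 h0 (h0.trans h1)

lemma An_eval {a k : ℕ} (hk : a ≤ k) :
    (An a).eval (-(k : ℚ)) = (-1) ^ a * (k.descFactorial a : ℚ) := by
  rw [An_eq_nd, nd_eval, Nat.descFactorial_eq_prod_range]
  push_cast
  rw [← Finset.card_range a, ← Finset.prod_const, Finset.card_range, ← Finset.prod_mul_distrib]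
  refine Finset.prod_congr rfl fun j hj => ?_
  rw [Finset.mem_range] at hj
  rw [Nat.cast_sub (by omega)]
  ring

lemma norm_An_ge {p : ℕ} [Fact p.Prime] {a b k : ℕ} (hk : k ∈ Finset.Icc a b) :
    padicNorm p (b.factorial : ℚ) ≤ padicNorm p ((An a).eval (-(k : ℚ))) := by
  rw [Finset.mem_Icc] at hk
  rw [An_eval hk.1, padicNorm.mul, norm_neg_one_pow, one_mul]
  have h1 : k.descFactorial a ∣ b.factorial := by
    refine dvd_trans ?_ (Nat.factorial_dvd_factorial hk.2)
    refine ⟨(k - a).factorial, ?_⟩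
    rw [mul_comm]
    exact (Nat.factorial_mul_descFactorial hk.1).symm
  obtain ⟨q, hq⟩ := h1
  rw [hq]
  push_cast
  simpa using norm_mul_le (le_refl (padicNorm p (k.descFactorial a : ℚ))) (padicNorm.of_nat (p := p) q)

lemma norm_An_le {p : ℕ} [Fact p.Prime] (a k : ℕ) : padicNorm p ((An a).eval (-(k : ℚ))) ≤ 1 := by
  have h := IC.eval (p := p) (IC_nd (Finset.range a)) (-k)
  push_cast at h
  exact h

lemma prod_An_le {p : ℕ} [Fact p.Prime] {a b r s : ℕ} (hr : r ≤ 2) (hs : s ∈ Finset.Icc a b)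
    (hs1 : s + 1 ∈ Finset.Icc a b) :
    (∏ k ∈ SS a b r s, padicNorm p ((An a).eval (-(k : ℚ)))) * padicNorm p (b.factorial : ℚ) ^ 2 ≤
      ∏ k ∈ Finset.Icc a b, padicNorm p ((An a).eval (-(k : ℚ))) := by
  have hle : padicNorm p (b.factorial : ℚ) ≤ 1 := padicNorm.of_nat _
  have h0 : 0 ≤ padicNorm p (b.factorial : ℚ) := padicNorm.nonneg _
  have hpos : ∀ S : Finset ℕ, 0 ≤ ∏ k ∈ S, padicNorm p ((An a).eval (-(k : ℚ))) := fun S =>
    Finset.prod_nonneg fun _ _ => padicNorm.nonneg _
  interval_cases r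
  · simp only [SS, if_true]
    have h1 : padicNorm p (b.factorial : ℚ) ^ 2 ≤ 1 := pow_le_one₀ h0 hle
    nlinarith [hpos (Finset.Icc a b)]
  · simp only [SS, one_ne_zero, if_false, if_true]
    rw [← Finset.mul_prod_erase _ _ hs]
    have h1 := norm_An_ge (p := p) hs
    have h2 : padicNorm p (b.factorial : ℚ) ^ 2 ≤ padicNorm p ((An a).eval (-(s : ℚ))) := by nlinarith
    nlinarith [hpos ((Finset.Icc a b).erase s), mul_le_mul_of_nonneg_left h2 (hpos ((Finset.Icc a b).erase s))]
  · simp only [SS]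
    rw [if_neg two_ne_zero, if_neg (by norm_num : ¬ (2 : ℕ) = 1)]
    have hs1' : s + 1 ∈ (Finset.Icc a b).erase s := Finset.mem_erase.2 ⟨by omega, hs1⟩
    rw [← Finset.mul_prod_erase _ _ hs, ← Finset.mul_prod_erase _ _ hs1']
    have h1 := norm_An_ge (p := p) hs
    have h1' := norm_An_ge (p := p) hs1
    have h2 : padicNorm p (b.factorial : ℚ) ^ 2 ≤ padicNorm p ((An a).eval (-(s : ℚ))) *
        padicNorm p ((An a).eval (-((s + 1 : ℕ) : ℚ))) := by
      rw [pow_two]
      exact mul_le_mul h1 h1' h0 (padicNorm.nonneg _)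
    have h3 := mul_le_mul_of_nonneg_left h2 (hpos (((Finset.Icc a b).erase s).erase (s + 1)))
    refine h3.trans_eq ?_
    ring

/-- `p`-adic size of the factorial in terms of the valuation -/
lemma norm_nat_eq {p : ℕ} [Fact p.Prime] {N : ℕ} (hN : N ≠ 0) :
    padicNorm p (N : ℚ) = (p : ℚ) ^ (-(padicValNat p N : ℤ)) := by
  rw [padicNorm.eq_zpow_of_nonzero (by exact_mod_cast hN), padicValRat.of_nat]

lemma dB_norm {p : ℕ} [Fact p.Prime] (n : ℕ) :
    ∏ k ∈ Finset.Icc n (5 * n), padicNorm p ((An n).eval (-(k : ℚ))) = padicNorm p (dB n : ℚ) := by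
  unfold dB
  push_cast
  rw [norm_prod]
  have h1 : Finset.Icc n (5 * n) = Finset.Ico n (5 * n + 1) := by
    ext j; simp only [Finset.mem_Icc, Finset.mem_Ico]; omega
  rw [h1, Finset.prod_Ico_eq_prod_range]
  have h2 : 5 * n + 1 - n = 4 * n + 1 := by omega
  rw [h2]
  refine Finset.prod_congr rfl fun l _ => ?_
  rw [An_eval (by omega), padicNorm.mul, norm_neg_one_pow, one_mul]
  congr 1
  have h3 : (n + l).descFactorial n = (l + 1).ascFactorial n := by
    have e1 := Nat.factorial_mul_descFactorial (show n ≤ n + l by omega)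
    have e2 := Nat.factorial_mul_ascFactorial l n
    rw [Nat.add_sub_cancel_left] at e1
    have e3 : l.factorial * (n + l).descFactorial n = l.factorial * (l + 1).ascFactorial n := by
      rw [e1, e2, add_comm]
    exact Nat.eq_of_mul_eq_mul_left (Nat.factorial_pos l) e3
  rw [h3]

/-- final step: from columns to the determinant -/
theorem P_step {n p m r s : ℕ} [Fact p.Prime] (hr : r ≤ 2) (hs : s ∈ Finset.Icc n (5 * n))
    (hs1 : s + 1 ∈ Finset.Icc n (5 * n)) (hm : n + m + r = 5 * n + 1) (α β γ : ℚ) (w : ℕ → ℕ)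
    (hB : ∀ k l : ℕ, k ∈ Finset.Icc n (5 * n) → l ∈ Finset.Icc n (5 * n) → padicNorm p (cc (5 * n) l *
      L n (5 * n) α β γ (gg n (5 * n) r s k * gg n (5 * n) r s l)) ≤ (p : ℚ) ^ w l) :
    padicNorm p (DD n (5 * n) m α β γ) ≤
      (p : ℚ) ^ (((∑ l ∈ Finset.range (4 * n + 1), w (n + l) : ℕ) : ℤ) + 4 * padicValNat p (5 * n).factorial -
        padicValNat p (dB n)) := by
  have hp1 : 1 < p := (Fact.out : p.Prime).one_lt
  have hp1' : (1 : ℚ) ≤ p := by exact_mod_cast hp1.le
  have hp0 : (p : ℚ) ≠ 0 := by positivity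
  have h1 := norm_DD (p := p) (a := n) (b := 5 * n) (r := r) (s := s) (m := m) hr (fun _ => hs) (fun _ => hs1) hm
    α β γ (fun l => (p : ℚ) ^ w l) (fun k l hk hl => hB k l (SS_sub _ _ _ _ hk) (SS_sub _ _ _ _ hl))
  have h2 := norm_fac_le_mm (p := p) (a := n) (b := 5 * n) (r := r) (s := s) hr hs hs1
  have h3 := prod_An_le (p := p) (a := n) (b := 5 * n) (r := r) (s := s) hr hs hs1
  have h4 : ∏ l ∈ SS n (5 * n) r s, (p : ℚ) ^ w l ≤ ∏ l ∈ Finset.Icc n (5 * n), (p : ℚ) ^ w l := by
    rw [← Finset.prod_sdiff (SS_sub n (5 * n) r s)]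
    have h5 : 1 ≤ ∏ x ∈ Finset.Icc n (5 * n) \ SS n (5 * n) r s, (p : ℚ) ^ w x := by
      calc (1 : ℚ) = ∏ x ∈ Finset.Icc n (5 * n) \ SS n (5 * n) r s, (1 : ℚ) := by simp
        _ ≤ _ := Finset.prod_le_prod (fun _ _ => zero_le_one) fun i _ => one_le_pow₀ hp1'
    have h6 : 0 ≤ ∏ l ∈ SS n (5 * n) r s, (p : ℚ) ^ w l := Finset.prod_nonneg fun _ _ => by positivity
    nlinarith
  set F := padicNorm p ((5 * n).factorial : ℚ) with hF
  set D := padicNorm p (DD n (5 * n) m α β γ) with hD
  set M := padicNorm p (∏ k ∈ SS n (5 * n) r s, mm r s k) with hM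
  set U := ∏ k ∈ SS n (5 * n) r s, padicNorm p ((An n).eval (-(k : ℚ))) with hU
  set W := ∏ l ∈ Finset.Icc n (5 * n), (p : ℚ) ^ w l with hW
  set W' := ∏ l ∈ SS n (5 * n) r s, (p : ℚ) ^ w l with hW'
  rw [dB_norm] at h3
  have hD0 : 0 ≤ D := padicNorm.nonneg _
  have hF0 : 0 < F := by
    have : F ≠ 0 := padicNorm.nonzero (by exact_mod_cast Nat.factorial_ne_zero _)
    exact lt_of_le_of_ne (padicNorm.nonneg _) this.symm
  have hU0 : 0 ≤ U := Finset.prod_nonneg fun _ _ => padicNorm.nonneg _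
  have hW0 : 0 ≤ W := Finset.prod_nonneg fun _ _ => by positivity
  have h5 : F ^ 4 * D ≤ padicNorm p (dB n : ℚ) * W := by
    calc F ^ 4 * D = F ^ 2 * (F ^ 2 * D) := by ring
      _ ≤ F ^ 2 * (M * D) := by gcongr
      _ ≤ F ^ 2 * (U * W') := by gcongr
      _ ≤ F ^ 2 * (U * W) := by gcongr
      _ = (U * F ^ 2) * W := by ring
      _ ≤ _ := by gcongr
  have hdB : dB n ≠ 0 := by
    unfold dB
    exact Finset.prod_ne_zero_iff.2 fun l _ => (Nat.ascFactorial_pos l n).ne'
  have h6 : F ^ 4 = (p : ℚ) ^ (-(4 * (padicValNat p (5 * n).factorial : ℤ))) := by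
    rw [hF, norm_nat_eq (Nat.factorial_ne_zero _), ← zpow_natCast, ← zpow_mul]
    congr 1
    push_cast
    ring
  have h7 : W = (p : ℚ) ^ ((∑ l ∈ Finset.range (4 * n + 1), w (n + l) : ℕ) : ℤ) := by
    rw [hW, Finset.prod_pow_eq_pow_sum, zpow_natCast]
    congr 1
    have h8 : Finset.Icc n (5 * n) = Finset.Ico n (5 * n + 1) := by
      ext j; simp only [Finset.mem_Icc, Finset.mem_Ico]; omega
    rw [h8, Finset.sum_Ico_eq_sum_range]
    have h9 : 5 * n + 1 - n = 4 * n + 1 := by omega
    rw [h9]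
  rw [norm_nat_eq hdB, h6, h7] at h5
  have h8 : (p : ℚ) ^ (((∑ l ∈ Finset.range (4 * n + 1), w (n + l) : ℕ) : ℤ) + 4 * padicValNat p (5 * n).factorial -
        padicValNat p (dB n)) = (p : ℚ) ^ (4 * (padicValNat p (5 * n).factorial : ℤ)) *
        ((p : ℚ) ^ (-(padicValNat p (dB n) : ℤ)) * (p : ℚ) ^ ((∑ l ∈ Finset.range (4 * n + 1), w (n + l) : ℕ) : ℤ)) := by
    rw [← zpow_add₀ hp0, ← zpow_add₀ hp0]
    congr 1
    ring
  rw [h8]
  have h9 : (p : ℚ) ^ (4 * (padicValNat p (5 * n).factorial : ℤ)) *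
      ((p : ℚ) ^ (-(4 * (padicValNat p (5 * n).factorial : ℤ))) * D) = D := by
    rw [← mul_assoc, ← zpow_add₀ hp0, add_neg_cancel, zpow_zero, one_mul]
  rw [← h9]
  exact mul_le_mul_of_nonneg_left h5 (by positivity)

end

end Pool.Agent.LP
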