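import Pool.Agent.H422R2.LP.PL

/-!
# `P_large`, `P_small`
-/

open Polynomial

namespace Pool.Agent.LP

noncomputable section

/-! ### entries for a general constant -/

/-- off-diagonal entries with a general constant `c` -/
lemma norm_off {p : ℕ} [Fact p.Prime] (hp : p ≠ 2) {h : ℕ} {α β γ : ℚ}
    (hα : padicNorm p α ≤ 1) (hβ : padicNorm p β ≤ 1) {κ : ℕ} (hd : h < p ^ (κ + 1))
    {R c : ℚ} (hR0 : 0 ≤ R) {k l : ℕ} (hk : k ≤ h) (hl : l ≤ h) (hkl : k ≠ l)
    (hR1 : padicNorm p (((l : ℚ) - k)⁻¹) * padicNorm p (c / cc h k) ≤ R)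
    (hR2 : padicNorm p (((l : ℚ) - k)⁻¹) * padicNorm p (c / cc h l) ≤ R) :
    padicNorm p (c * LL h 1 α β γ (n1 h k * n1 h l)) ≤ p ^ κ * R := by
  rw [LL_off 1 α β γ hl hkl]
  set g : ℚ[X] := C c * (1 * n2 h k l) with hg
  have h2 : c * (-(α * AB (1 * n2 h k l)) + β * AB (derivative (1 * n2 h k l))) =
      -(α * AB g) + β * AB (derivative g) := by
    rw [hg, derivative_C_mul, ← smul_eq_C_mul, ← smul_eq_C_mul, map_smul, map_smul, smul_eq_mul, smul_eq_mul]
    ring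
  rw [h2]
  have hgd : g.natDegree < p ^ (κ + 1) := by
    have h5 : g.natDegree ≤ h := by
      rw [hg, one_mul]
      refine (natDegree_C_mul_le _ _).trans ?_
      rw [n2_natDegree hk hl hkl]
      omega
    omega
  refine norm_EE hp hα hβ hgd hR0 fun n => ?_
  have hne : ((l : ℚ) - k) ≠ 0 := by
    rw [sub_ne_zero]
    exact_mod_cast hkl.symm
  have hck : cc h k ≠ 0 := (cc_pos h k).ne'
  have hcl : cc h l ≠ 0 := (cc_pos h l).ne'
  have h1 : g.eval (n : ℚ) =
      ((l : ℚ) - k)⁻¹ * (c / cc h k) * (C (cc h k) * n1 h k).eval (n : ℚ) -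
        ((l : ℚ) - k)⁻¹ * (c / cc h l) * (C (cc h l) * n1 h l).eval (n : ℚ) := by
    have h2 := congrArg (eval (n : ℚ)) (n2_identity hk hl hkl)
    rw [hg]
    simp only [eval_mul, eval_C, eval_sub, one_mul] at h2 ⊢
    have h3 : (n2 h k l).eval (n : ℚ) = ((l : ℚ) - k)⁻¹ * ((n1 h k).eval (n : ℚ) - (n1 h l).eval (n : ℚ)) := by
      rw [← h2, ← mul_assoc, inv_mul_cancel₀ hne, one_mul]
    rw [h3]
    field_simp
  rw [h1]
  refine norm_sub_le ?_ ?_
  · rw [padicNorm.mul, padicNorm.mul]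
    calc _ ≤ R * 1 := mul_le_mul hR1 (norm_n1 hk n) (padicNorm.nonneg _) hR0
      _ = R := mul_one R
  · rw [padicNorm.mul, padicNorm.mul]
    calc _ ≤ R * 1 := mul_le_mul hR2 (norm_n1 hl n) (padicNorm.nonneg _) hR0
      _ = R := mul_one R

/-- diagonal entries -/
lemma norm_dia {p : ℕ} [Fact p.Prime] (hp : p ≠ 2) {h : ℕ} {α β γ : ℚ}
    (hα : padicNorm p α ≤ 1) (hβ : padicNorm p β ≤ 1) (hγ : padicNorm p γ ≤ 1)
    {κ : ℕ} (hd : h < p ^ (κ + 1)) {k : ℕ} (hk : k ≤ h) :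
    padicNorm p (cc h k * LL h 1 α β γ (n1 h k * n1 h k)) ≤ p ^ κ * p ^ κ := by
  have hp1 : 1 < p := (Fact.out : p.Prime).one_lt
  have hp1' : (1 : ℚ) ≤ p := by exact_mod_cast hp1.le
  rw [LL_diag 1 α β γ hk]
  set f : ℚ[X] := 1 * n1 h k with hf
  set g : ℚ[X] := C (cc h k) * f with hg
  have hm : (X - C (((-k : ℤ) : ℚ))).Monic := monic_X_sub_C _
  have h1 : g /ₘ (X - C (((-k : ℤ) : ℚ))) = C (cc h k) * (f /ₘ (X - C (((-k : ℤ) : ℚ)))) := by
    refine (div_modByMonic_unique _ (C (cc h k) * (f %ₘ (X - C (((-k : ℤ) : ℚ))))) hm ⟨?_, ?_⟩).1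
    · have h3 := modByMonic_add_div f (X - C (((-k : ℤ) : ℚ)))
      rw [hg]
      linear_combination (C (cc h k)) * h3
    · rw [← smul_eq_C_mul]
      exact lt_of_le_of_lt (degree_smul_le _ _) (degree_modByMonic_lt _ hm)
  have h2 : cc h k * ((1 : ℚ[X]).eval (-(k : ℚ)) * (γ + sS α β k) / cc h k +
    (-(α * AB (f /ₘ (X - C (((-k : ℤ) : ℚ))))) +
      β * AB (derivative (f /ₘ (X - C (((-k : ℤ) : ℚ))))))) =
      (γ + sS α β k) +
        (-(α * AB (g /ₘ (X - C (((-k : ℤ) : ℚ))))) +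
      β * AB (derivative (g /ₘ (X - C (((-k : ℤ) : ℚ)))))) := by
    have h4 : cc h k ≠ 0 := (cc_pos h k).ne'
    rw [h1, derivative_C_mul, ← smul_eq_C_mul, ← smul_eq_C_mul, map_smul, map_smul, smul_eq_mul, smul_eq_mul,
      eval_one]
    field_simp
  rw [h2]
  have hgd : g.natDegree < p ^ (κ + 1) := by
    have h5 : g.natDegree ≤ h := by
      rw [hg, hf, one_mul]
      refine (natDegree_C_mul_le _ _).trans ?_
      rw [n1_natDegree hk]
    omega
  have hgn : ∀ n : ℤ, padicNorm p (g.eval (n : ℚ)) ≤ 1 := by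
    intro n
    have h5 : g.eval (n : ℚ) = (C (cc h k) * n1 h k).eval (n : ℚ) := by
      rw [hg, hf, one_mul]
    rw [h5]
    exact norm_n1 hk n
  refine norm_add_le ?_ ?_
  · rw [← pow_add, ← two_mul]
    exact norm_add_le (hγ.trans (one_le_pow₀ hp1')) (norm_sS hα hβ (by omega))
  · have h8 : (g /ₘ (X - C (((-k : ℤ) : ℚ)))).natDegree < p ^ (κ + 1) := by
      rw [natDegree_divByMonic _ hm]
      omega
    refine (norm_EE hp hα hβ h8 (A := p ^ κ * 1) (by positivity)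
      (fun n => norm_divdiff hgd zero_le_one hgn (-k) n)).trans ?_
    rw [mul_one]

/-- any constant, any entry -/
lemma norm_any {p : ℕ} [Fact p.Prime] (hp : p ≠ 2) {h : ℕ} {α β γ : ℚ}
    (hα : padicNorm p α ≤ 1) (hβ : padicNorm p β ≤ 1) (hγ : padicNorm p γ ≤ 1)
    {κ : ℕ} (hd : h < p ^ (κ + 1)) {j k l : ℕ} (hj : j ≤ h) (hk : k ≤ h) (hl : l ≤ h) :
    padicNorm p (cc h j * LL h 1 α β γ (n1 h k * n1 h l)) ≤ (p : ℚ) ^ (3 * κ) := by
  have e1 : (p : ℚ) ^ (3 * κ) = p ^ κ * (p ^ κ * p ^ κ) := by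
    rw [← pow_add, ← pow_add]
    congr 1
    ring
  rw [e1]
  by_cases hkl : k = l
  · subst hkl
    have h1 : cc h j * LL h 1 α β γ (n1 h k * n1 h k) = (cc h j / cc h k) *
        (cc h k * LL h 1 α β γ (n1 h k * n1 h k)) := by
      have := (cc_pos h k).ne'
      field_simp
    rw [h1]
    exact norm_mul_le (norm_cc_div hk hj hd) (norm_dia hp hα hβ hγ hd hk)
  · refine norm_off hp hα hβ hd (by positivity) hk hl hkl ?_ ?_
    · exact mul_le_mul (norm_sub_inv hk hl hkl hd) (norm_cc_div hk hj hd) (padicNorm.nonneg _) (by positivity)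
    · exact mul_le_mul (norm_sub_inv hk hl hkl hd) (norm_cc_div hl hj hd) (padicNorm.nonneg _) (by positivity)

theorem P_small {n p m : ℕ} [Fact p.Prime] (hn : 1 ≤ n) (h2 : p ≠ 2)
    (hm1 : 4 * n - 1 ≤ m) (hm : m ≤ 4 * n + 1) (α β γ : ℤ) :
    padicNorm p (DD n (5 * n) m α β γ) ≤
      (p : ℚ) ^ (((3 * Nat.log p (5 * n + 1) * (4 * n + 1) : ℕ) : ℤ) + 4 * padicValNat p (5 * n).factorial -
        padicValNat p (dB n)) := by
  have hp1 : 1 < p := (Fact.out : p.Prime).one_lt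
  have hα : padicNorm p (α : ℚ) ≤ 1 := padicNorm.of_int α
  have hβ : padicNorm p (β : ℚ) ≤ 1 := padicNorm.of_int β
  have hγ : padicNorm p (γ : ℚ) ≤ 1 := padicNorm.of_int γ
  have hab : n ≤ 5 * n := by omega
  set κ := Nat.log p (5 * n + 1) with hκ
  have hd : 5 * n < p ^ (κ + 1) := by
    have := Nat.lt_pow_succ_log_self hp1 (5 * n + 1)
    rw [Nat.succ_eq_add_one, ← hκ] at this
    omega
  have hsT : n ∈ Finset.Icc n (5 * n) := Finset.mem_Icc.2 ⟨le_rfl, hab⟩
  have hs1T : n + 1 ∈ Finset.Icc n (5 * n) := Finset.mem_Icc.2 ⟨by omega, by omega⟩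
  have h1 := P_step (p := p) (n := n) (m := m) (r := 4 * n + 1 - m) (s := n) (by omega) hsT hs1T
    (by omega) α β γ (fun _ => 3 * κ) (fun k l hk hl => by
      have hl' := (Finset.mem_Icc.1 hl).2
      have key : ∀ (c : ℚ) (i j : ℕ), padicNorm p c ≤ 1 → i ∈ Finset.Icc n (5 * n) → j ∈ Finset.Icc n (5 * n) →
          padicNorm p (cc (5 * n) l * c * L n (5 * n) α β γ (el n (5 * n) i * el n (5 * n) j)) ≤ (p : ℚ) ^ (3 * κ) := by
        intro c i j hc hi hj
        rw [L_el hab _ _ _ hi hj]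
        have h3 := norm_any (γ := (γ : ℚ)) h2 hα hβ hγ hd hl' (Finset.mem_Icc.1 hi).2 (Finset.mem_Icc.1 hj).2
        have h4 : cc (5 * n) l * c * LL (5 * n) 1 α β γ (n1 (5 * n) i * n1 (5 * n) j) =
            c * (cc (5 * n) l * LL (5 * n) 1 α β γ (n1 (5 * n) i * n1 (5 * n) j)) := by ring
        rw [h4]
        simpa using norm_mul_le hc h3
      refine norm_gg _ hk hsT hs1T (fun j hj => ?_) (fun j hj => ?_) (fun j hj => ?_)
      · simpa using key 1 j l (by simp) hj hl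
      · exact key _ j n (la0_norm _ _ _) hj hsT
      · exact key _ j (n + 1) (la1_norm _ _ _) hj hs1T)
  refine h1.trans_eq ?_
  congr 3
  rw [Finset.sum_const, Finset.card_range, smul_eq_mul, mul_comm]

/-! ### `P_large` -/

lemma div_add_div_eq {p h j : ℕ} (hp : 0 < p) (hj : j ≤ h) : j / p + (h - j) / p = (h - j % p) / p := by
  have h4 : h - j = (h - j % p) - p * (j / p) := by
    have := Nat.mod_add_div j p
    omega
  rw [h4, Nat.sub_mul_div_of_le]
  · have h5 : j / p ≤ (h - j % p) / p := by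
      rw [Nat.le_div_iff_mul_le (by omega)]
      have h6 : j / p * p = p * (j / p) := mul_comm _ _
      have := Nat.mod_add_div j p
      omega
    omega
  · have := Nat.mod_add_div j p
    omega

lemma norm_entry_sq {p : ℕ} [Fact p.Prime] (hp : p ≠ 2) {h : ℕ} {α β γ : ℚ}
    (hα : padicNorm p α ≤ 1) (hβ : padicNorm p β ≤ 1) (hγ : padicNorm p γ ≤ 1)
    (hd : h < p ^ 2) (k l : ℕ) (hk : k ≤ h) (hl : l ≤ h) :
    padicNorm p (cc h l * LL h 1 α β γ (n1 h k * n1 h l)) ≤ (p : ℚ) ^ 2 := by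
  refine (norm_entry hp hα hβ hγ (W := 1) (κ := 1) (by simp) (by simpa using hd) (R := (p : ℚ)) (by simp)
    (ratio_sq hd) hk hl).trans_eq ?_
  ring

/-- primes with `3 p > 5 n` -/
theorem P_large_B {n p m : ℕ} [Fact p.Prime] (hn : 1 ≤ n) (h2 : p ≠ 2) (hp : 5 * n + 1 < p ^ 2)
    (h3p : 5 * n < 3 * p) (hm1 : 4 * n - 1 ≤ m) (hm : m ≤ 4 * n + 1) (α β γ : ℤ) :
    padicNorm p (DD n (5 * n) m α β γ) ≤
      (p : ℚ) ^ (((∑ l ∈ Finset.range (4 * n + 1), wl n p l : ℕ) : ℤ) + 4 * padicValNat p (5 * n).factorial -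
        padicValNat p (dB n)) := by
  have hp1 : 1 < p := (Fact.out : p.Prime).one_lt
  have hp1' : (1 : ℚ) ≤ p := by exact_mod_cast hp1.le
  have hα : padicNorm p (α : ℚ) ≤ 1 := padicNorm.of_int α
  have hβ : padicNorm p (β : ℚ) ≤ 1 := padicNorm.of_int β
  have hγ : padicNorm p (γ : ℚ) ≤ 1 := padicNorm.of_int γ
  have hab : n ≤ 5 * n := by omega
  have hlt : 5 * n < p ^ 2 := by omega
  have hnp : n + 1 < p := by
    have : 3 ≤ p := by omega
    omega
  have hsT : n ∈ Finset.Icc n (5 * n) := Finset.mem_Icc.2 ⟨le_rfl, hab⟩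
  have hs1T : n + 1 ∈ Finset.Icc n (5 * n) := Finset.mem_Icc.2 ⟨by omega, by omega⟩
  have hw : ∑ l ∈ Finset.range (4 * n + 1), wl n p l = ∑ l ∈ Finset.range (4 * n + 1),
      (fun j => if p ≤ j then 2 else (5 * n - j) / p) (n + l) := by
    refine Finset.sum_congr rfl fun l hl => ?_
    rw [Finset.mem_range] at hl
    unfold wl
    simp only
    rw [add_comm l n]
    split_ifs with hc
    · rfl
    · have h5 : 4 * n - l = 5 * n - (n + l) := by omega
      rw [h5]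
      refine min_eq_right ?_
      rw [Nat.div_le_iff_le_mul_add_pred (by omega)]
      omega
  rw [hw]
  refine P_step (p := p) (n := n) (m := m) (r := 4 * n + 1 - m) (s := n) (by omega) hsT hs1T
    (by omega) α β γ (fun j => if p ≤ j then 2 else (5 * n - j) / p) (fun k l hk hl => ?_)
  have hl' := (Finset.mem_Icc.1 hl).2
  -- entries of integral columns
  have key : ∀ (c : ℚ) (i j : ℕ), padicNorm p c ≤ 1 → i ∈ Finset.Icc n (5 * n) → j ∈ Finset.Icc n (5 * n) →
      j < p → padicNorm p (cc (5 * n) l * c * L n (5 * n) α β γ (el n (5 * n) i * el n (5 * n) j)) ≤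
        (p : ℚ) ^ (l / p + (5 * n - l) / p) := by
    intro c i j hc hi hj hjp
    rw [L_el hab _ _ _ hi hj]
    have h3 := norm_entry_IC (k := i) (γ := (γ : ℚ)) h2 hα hβ hγ (IC.one (p := p)) (Finset.mem_Icc.1 hj).2 hjp
    have h4 := norm_mul_le (norm_mul_le (norm_cc (p := p) hl' hlt).le hc) h3
    rwa [mul_one, mul_one] at h4
  by_cases hlp : p ≤ l
  · simp only [if_pos hlp]
    have h6 : (p : ℚ) ^ (l / p + (5 * n - l) / p) ≤ (p : ℚ) ^ 2 := by
      refine pow_le_pow_right₀ hp1' ?_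
      rw [div_add_div_eq (by omega) hl', Nat.div_le_iff_le_mul_add_pred (by omega)]
      omega
    refine norm_gg _ hk hsT hs1T (fun j hj => ?_) (fun j hj => ?_) (fun j hj => ?_)
    · rw [L_el hab _ _ _ hj hl]
      exact norm_entry_sq h2 hα hβ hγ hlt _ _ (Finset.mem_Icc.1 hj).2 hl'
    · exact (key _ j n (la0_norm _ _ _) hj hsT (by omega)).trans h6
    · exact (key _ j (n + 1) (la1_norm _ _ _) hj hs1T hnp).trans h6
  · simp only [if_neg hlp]
    have h6 : (p : ℚ) ^ (l / p + (5 * n - l) / p) = (p : ℚ) ^ ((5 * n - l) / p) := by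
      rw [Nat.div_eq_of_lt (by omega), zero_add]
    refine norm_gg _ hk hsT hs1T (fun j hj => ?_) (fun j hj => ?_) (fun j hj => ?_)
    · have := key 1 j l (by simp) hj hl (by omega)
      rw [mul_one] at this
      exact this.trans_eq h6
    · exact (key _ j n (la0_norm _ _ _) hj hsT (by omega)).trans_eq h6
    · exact (key _ j (n + 1) (la1_norm _ _ _) hj hs1T hnp).trans_eq h6

/-- primes with `3 p ≤ 5 n` -/
theorem P_large_A {n p m : ℕ} [Fact p.Prime] (hn : 1 ≤ n) (h2 : p ≠ 2) (hp : 5 * n + 1 < p ^ 2)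
    (h3p : 3 * p ≤ 5 * n) (hm1 : 4 * n - 1 ≤ m) (hm : m ≤ 4 * n + 1) (α β γ : ℤ) :
    padicNorm p (DD n (5 * n) m α β γ) ≤
      (p : ℚ) ^ (((∑ l ∈ Finset.range (4 * n + 1), wl n p l : ℕ) : ℤ) + 4 * padicValNat p (5 * n).factorial -
        padicValNat p (dB n)) := by
  have hp1 : 1 < p := (Fact.out : p.Prime).one_lt
  have hp3 : 3 ≤ p := by omega
  have hp1' : (1 : ℚ) ≤ p := by exact_mod_cast hp1.le
  have hp0 : (p : ℚ) ≠ 0 := by positivity
  have hα : padicNorm p (α : ℚ) ≤ 1 := padicNorm.of_int α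
  have hβ : padicNorm p (β : ℚ) ≤ 1 := padicNorm.of_int β
  have hγ : padicNorm p (γ : ℚ) ≤ 1 := padicNorm.of_int γ
  have hab : n ≤ 5 * n := by omega
  have hlt : 5 * n < p ^ 2 := by omega
  obtain ⟨s, hsn, hsp, hs0⟩ : ∃ s, n ≤ s ∧ s < n + p ∧ s % p = 0 := by
    refine ⟨p * ((n + (p - 1)) / p), ?_, ?_, ?_⟩
    · have e1 := Nat.div_add_mod (n + (p - 1)) p
      have e2 := Nat.mod_lt (n + (p - 1)) (show 0 < p by omega)
      omega
    · have e1 := Nat.div_add_mod (n + (p - 1)) p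
      omega
    · exact Nat.mul_mod_right _ _
  have hsT : s ∈ Finset.Icc n (5 * n) := Finset.mem_Icc.2 ⟨hsn, by omega⟩
  have hs1T : s + 1 ∈ Finset.Icc n (5 * n) := Finset.mem_Icc.2 ⟨by omega, by omega⟩
  have hw : ∑ l ∈ Finset.range (4 * n + 1), wl n p l = ∑ l ∈ Finset.range (4 * n + 1),
      (fun _ => 2) (n + l) := by
    refine Finset.sum_congr rfl fun l hl => ?_
    rw [Finset.mem_range] at hl
    unfold wl
    simp only
    split_ifs with hc
    · rfl
    · refine min_eq_left ?_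
      rw [Nat.le_div_iff_mul_le (by omega)]
      omega
  rw [hw]
  refine P_step (p := p) (n := n) (m := m) (r := 4 * n + 1 - m) (s := s) (by omega) hsT hs1T
    (by omega) α β γ (fun _ => 2) (fun k l hk hl => ?_)
  have hl' := (Finset.mem_Icc.1 hl).2
  have hs' := (Finset.mem_Icc.1 hsT).2
  have hs1' := (Finset.mem_Icc.1 hs1T).2
  have hA : ∀ j, j ≤ 5 * n → padicNorm p (cc (5 * n) j) = (p : ℚ) ^ ((5 * n - j % p) / p) := by
    intro j hj
    rw [norm_cc hj hlt, div_add_div_eq (by omega) hj]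
  -- quotient bounds
  have hq0 : padicNorm p (cc (5 * n) l * la0 (4 * n + 1 - m) s l / cc (5 * n) s) ≤ 1 := by
    rw [mul_div_right_comm]
    have h1 : padicNorm p (cc (5 * n) l / cc (5 * n) s) ≤ 1 := by
      rw [padicNorm.div, hA l hl', hA s hs', hs0, div_le_one (by positivity)]
      exact pow_le_pow_right₀ hp1' (Nat.div_le_div_right (by omega))
    simpa using norm_mul_le h1 (la0_norm (p := p) (4 * n + 1 - m) s l)
  have hq1 : padicNorm p (cc (5 * n) l * la1 (4 * n + 1 - m) s l / cc (5 * n) (s + 1)) ≤ 1 := by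
    rw [mul_div_right_comm]
    by_cases hc : (p : ℤ) ∣ (l : ℤ) - s
    · have h1 : padicNorm p (cc (5 * n) l / cc (5 * n) (s + 1)) ≤ (p : ℚ) := by
        have := norm_cc_div (p := p) (κ := 1) hs1' hl' (by simpa using hlt)
        simpa using this
      have h3 : padicNorm p (la1 (4 * n + 1 - m) s l) ≤ (p : ℚ)⁻¹ := by
        unfold la1
        split_ifs
        · rw [padicNorm.zero]; positivity
        · rw [padicNorm.zero]; positivity
        · obtain ⟨z, hz⟩ := hc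
          have h4 : ((l : ℚ) - s) = (p : ℚ) * (z : ℚ) := by exact_mod_cast hz
          rw [h4]
          have h5 := norm_mul_le (p := p) (padicNorm.padicNorm_p_of_prime (p := p)).le (padicNorm.of_int (p := p) z)
          rwa [mul_one] at h5
      have h6 := norm_mul_le h1 h3
      rwa [mul_inv_cancel₀ hp0] at h6
    · have hlm : 1 ≤ l % p := by
        by_contra hcon
        apply hc
        have e1 : l % p = 0 := by omega
        have e2 : (p : ℤ) ∣ (l : ℤ) := by exact_mod_cast Nat.dvd_of_mod_eq_zero e1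
        have e3 : (p : ℤ) ∣ (s : ℤ) := by exact_mod_cast Nat.dvd_of_mod_eq_zero hs0
        exact dvd_sub e2 e3
      have h1 : padicNorm p (cc (5 * n) l / cc (5 * n) (s + 1)) ≤ 1 := by
        have e4 : (s + 1) % p = 1 := by
          rw [Nat.add_mod, hs0, zero_add, Nat.mod_mod, Nat.mod_eq_of_lt (by omega)]
        rw [padicNorm.div, hA l hl', hA (s + 1) hs1', e4, div_le_one (by positivity)]
        exact pow_le_pow_right₀ hp1' (Nat.div_le_div_right (by omega))
      simpa using norm_mul_le h1 (la1_norm (p := p) (4 * n + 1 - m) s l)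
  have hE : ∀ i ∈ Finset.Icc n (5 * n), ∀ j ∈ Finset.Icc n (5 * n),
      padicNorm p (cc (5 * n) j * L n (5 * n) α β γ (el n (5 * n) i * el n (5 * n) j)) ≤ (p : ℚ) ^ 2 := by
    intro i hi j hj
    rw [L_el hab _ _ _ hi hj]
    exact norm_entry_sq h2 hα hβ hγ hlt _ _ (Finset.mem_Icc.1 hi).2 (Finset.mem_Icc.1 hj).2
  refine norm_gg _ hk hsT hs1T (fun j hj => hE j hj l hl) (fun j hj => ?_) (fun j hj => ?_)
  · have hc0 : cc (5 * n) s ≠ 0 := (cc_pos _ _).ne'
    have h1 : cc (5 * n) l * la0 (4 * n + 1 - m) s l * L n (5 * n) α β γ (el n (5 * n) j * el n (5 * n) s) =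
        (cc (5 * n) l * la0 (4 * n + 1 - m) s l / cc (5 * n) s) *
          (cc (5 * n) s * L n (5 * n) α β γ (el n (5 * n) j * el n (5 * n) s)) := by
      field_simp
    rw [h1]
    simpa using norm_mul_le hq0 (hE j hj s hsT)
  · have hc0 : cc (5 * n) (s + 1) ≠ 0 := (cc_pos _ _).ne'
    have h1 : cc (5 * n) l * la1 (4 * n + 1 - m) s l * L n (5 * n) α β γ (el n (5 * n) j * el n (5 * n) (s + 1)) =
        (cc (5 * n) l * la1 (4 * n + 1 - m) s l / cc (5 * n) (s + 1)) *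
          (cc (5 * n) (s + 1) * L n (5 * n) α β γ (el n (5 * n) j * el n (5 * n) (s + 1))) := by
      field_simp
    rw [h1]
    simpa using norm_mul_le hq1 (hE j hj (s + 1) hs1T)

theorem P_large {n p m : ℕ} [Fact p.Prime] (hn : 1 ≤ n) (h2 : p ≠ 2) (hp : 5 * n + 1 < p ^ 2)
    (hm1 : 4 * n - 1 ≤ m) (hm : m ≤ 4 * n + 1) (α β γ : ℤ) :
    padicNorm p (DD n (5 * n) m α β γ) ≤
      (p : ℚ) ^ (((∑ l ∈ Finset.range (4 * n + 1), wl n p l : ℕ) : ℤ) + 4 * padicValNat p (5 * n).factorial -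
        padicValNat p (dB n)) := by
  by_cases h3 : 3 * p ≤ 5 * n
  · exact P_large_A hn h2 hp h3 hm1 hm α β γ
  · exact P_large_B hn h2 hp (by omega) hm1 hm α β γ

end

end Pool.Agent.LP
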