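import Pool.Agent.H422R2.LP.PTwoA

/-! Task P_two (helper326): 2-adic bound. -/

open Polynomial

namespace Pool.Agent.LP.T2

noncomputable section

/-- row polynomials -/
def P2P (n i : ℕ) : ℚ[X] := EE n (n + i)

/-- column polynomials -/
def P2Q (n j : ℕ) : ℚ[X] := EE (5 * n + 1 - j) (5 * n + 1)

lemma norm_two_pow (k : ℕ) : padicNorm 2 ((2 : ℚ) ^ k) = (2 : ℚ) ^ (-(k : ℤ)) := by
  induction k with
  | zero => simp
  | succ k ih =>
    rw [pow_succ, padicNorm.mul, ih]
    have h : padicNorm 2 (2 : ℚ) = (2 : ℚ)⁻¹ := by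
      have := padicNorm.padicNorm_p_of_prime (p := 2)
      exact_mod_cast this
    rw [h, ← zpow_neg_one, ← zpow_add₀ (by norm_num)]
    congr 1
    push_cast
    ring

/-- alternating harmonic sums at `2` -/
lemma Sh_norm (j k K : ℕ) (hk : k < 2 ^ (K + 1)) : padicNorm 2 (Sh j k) ≤ ((2 : ℚ) ^ K) ^ j := by
  unfold Sh
  refine padicNorm.sum_le' (fun s hs => ?_) (by positivity)
  rw [Finset.mem_Icc] at hs
  rw [padicNorm.div]
  have h1 : padicNorm 2 ((-1 : ℚ) ^ s) = 1 := by
    rcases neg_one_pow_eq_or ℚ s with h | h <;> rw [h] <;> simp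
  rw [h1, one_div]
  have h2 : padicNorm 2 ((s : ℚ) ^ j) = padicNorm 2 (s : ℚ) ^ j := by
    induction j with
    | zero => simp
    | succ j ih => rw [pow_succ, pow_succ, padicNorm.mul, ih]
  rw [h2, ← inv_pow]
  refine pow_le_pow_left₀ (inv_nonneg.2 (padicNorm.nonneg _)) ?_ _
  have h3 := norm_inv_nat (p := 2) (j := s) (k := K) hs.1 (lt_of_le_of_lt hs.2 hk)
  have h4 : padicNorm 2 ((s : ℚ)⁻¹) = (padicNorm 2 (s : ℚ))⁻¹ := by
    rw [inv_eq_one_div, padicNorm.div, padicNorm.one, one_div]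
  rw [← h4]
  exact_mod_cast h3

lemma coef_norm (α β γ : ℤ) (k K : ℕ) (hk : k < 2 ^ (K + 1)) :
    padicNorm 2 ((γ : ℚ) + (α : ℚ) * Sh 1 k + (β : ℚ) * Sh 2 k) ≤ (2 : ℚ) ^ (2 * K : ℤ) := by
  have h0 : (1 : ℚ) ≤ (2 : ℚ) ^ K := one_le_pow₀ (by norm_num)
  have hT : (2 : ℚ) ^ (2 * K : ℤ) = (2 : ℚ) ^ K * (2 : ℚ) ^ K := by
    rw [← pow_add, ← zpow_natCast]
    congr 1
    push_cast
    ring
  rw [hT]
  have ha := Sh_norm 1 k K hk
  have hb := Sh_norm 2 k K hk
  rw [pow_one] at ha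
  rw [pow_two] at hb
  have h1 : padicNorm 2 (γ : ℚ) ≤ (2 : ℚ) ^ K * (2 : ℚ) ^ K :=
    (padicNorm.of_int γ).trans (by nlinarith)
  have h2 : padicNorm 2 ((α : ℚ) * Sh 1 k) ≤ (2 : ℚ) ^ K * (2 : ℚ) ^ K := by
    rw [padicNorm.mul]
    have := padicNorm.of_int (p := 2) α
    have h5 := padicNorm.nonneg (p := 2) (Sh 1 k)
    nlinarith [padicNorm.nonneg (p := 2) (α : ℚ)]
  have h3 : padicNorm 2 ((β : ℚ) * Sh 2 k) ≤ (2 : ℚ) ^ K * (2 : ℚ) ^ K := by
    rw [padicNorm.mul]
    have := padicNorm.of_int (p := 2) β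
    have h5 := padicNorm.nonneg (p := 2) (Sh 2 k)
    nlinarith [padicNorm.nonneg (p := 2) (β : ℚ)]
  refine (padicNorm.nonarchimedean (p := 2)).trans (max_le ?_ h3)
  exact (padicNorm.nonarchimedean (p := 2)).trans (max_le h1 h2)

/-- the Abel part -/
lemma abel_norm {q : ℚ[X]} {N K : ℕ} (hN : q.natDegree < N) (hK : q.natDegree < 2 ^ (K + 1)) {A : ℚ}
    (hA : 0 ≤ A) (h : ∀ n : ℤ, padicNorm 2 (q.eval (n : ℚ)) ≤ A) (α β : ℤ) :
    padicNorm 2 (-(α : ℚ) * AB q + (β : ℚ) * AB (derivative q)) ≤ 2 ^ N * (2 ^ K * A) := by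
  have h1 := norm_AB_two hN hA h
  have h2 : padicNorm 2 (AB (derivative q)) ≤ 2 ^ N * (2 ^ K * A) := by
    refine norm_AB_two (lt_of_le_of_lt (natDegree_derivative_le q) (by omega)) (by positivity) fun n => ?_
    have := norm_derivative (p := 2) hK hA h n
    exact_mod_cast this
  have hK1 : (1 : ℚ) ≤ 2 ^ K := one_le_pow₀ (by norm_num)
  have h3 : padicNorm 2 (AB q) ≤ 2 ^ N * (2 ^ K * A) := by
    refine h1.trans (mul_le_mul_of_nonneg_left ?_ (by positivity))
    nlinarith
  have hp : 0 ≤ (2 : ℚ) ^ N * (2 ^ K * A) := by positivity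
  refine (padicNorm.nonarchimedean (p := 2)).trans (max_le ?_ ?_)
  · rw [padicNorm.mul, padicNorm.neg]
    have := padicNorm.of_int (p := 2) α
    nlinarith [padicNorm.nonneg (p := 2) (α : ℚ), padicNorm.nonneg (p := 2) (AB q)]
  · rw [padicNorm.mul]
    have := padicNorm.of_int (p := 2) β
    nlinarith [padicNorm.nonneg (p := 2) (β : ℚ), padicNorm.nonneg (p := 2) (AB (derivative q))]

/-- the three pieces of `[a, b]` -/
lemma Pn_split {n i j : ℕ} (h : i + j ≤ 4 * n + 1) :
    Pn n (5 * n) = EE (n + i) (5 * n + 1 - j) * (P2P n i * P2Q n j) := by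
  rw [Pn_eq]
  unfold P2P P2Q
  rw [← EE_mul (u := n) (v := n + i) (w := 5 * n + 1) (by omega) (by omega),
    ← EE_mul (u := n + i) (v := 5 * n + 1 - j) (w := 5 * n + 1) (by omega) (by omega)]
  ring

lemma PQ_over {n i j : ℕ} (_hi : i ≤ 4 * n + 1) (hj : j ≤ 4 * n + 1) (h : 4 * n + 1 ≤ i + j) :
    P2P n i * P2Q n j = Pn n (5 * n) * EE (5 * n + 1 - j) (n + i) := by
  rw [Pn_eq]
  unfold P2P P2Q
  rw [← EE_mul (u := n) (v := 5 * n + 1 - j) (w := n + i) (by omega) (by omega),
    ← EE_mul (u := n) (v := 5 * n + 1 - j) (w := 5 * n + 1) (by omega) (by omega)]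
  ring

lemma EE_eval_neg {u v k : ℕ} (h1 : u ≤ k) (h2 : k < v) : (EE u v).eval (-(k : ℚ)) = 0 := by
  unfold EE
  rw [eval_prod]
  refine Finset.prod_eq_zero (Finset.mem_Ico.2 ⟨h1, h2⟩) ?_
  rw [eval_add, eval_X, eval_C, neg_add_cancel]

/-- absolute value of `∏_{u ≤ l < v, l ≠ k} (l - k)` is at least that of `(v-u-1)!` -/
lemma prod_erase_norm {u v k : ℕ} (h1 : u ≤ k) (h2 : k < v) :
    padicNorm 2 (((v - u - 1).factorial : ℕ) : ℚ) ≤
      padicNorm 2 (∏ l ∈ (Finset.Ico u v).erase k, ((l : ℚ) - k)) := by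
  have hs : (Finset.Ico u v).erase k = Finset.Ico u k ∪ Finset.Ico (k + 1) v := by
    ext x
    simp only [Finset.mem_erase, Finset.mem_Ico, Finset.mem_union]
    omega
  have hd : Disjoint (Finset.Ico u k) (Finset.Ico (k + 1) v) := by
    rw [Finset.disjoint_left]
    intro x hx hx'
    rw [Finset.mem_Ico] at hx hx'
    omega
  have e1 : ∏ l ∈ Finset.Ico u k, ((l : ℚ) - k) = (-1) ^ (k - u) * (((k - u).factorial : ℕ) : ℚ) := by
    rw [Finset.prod_Ico_eq_prod_range, ← Finset.prod_range_reflect]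
    have : ∀ i ∈ Finset.range (k - u), (((u + (k - u - 1 - i) : ℕ) : ℚ) - k) = (-1) * ((i + 1 : ℕ) : ℚ) := by
      intro i hi
      rw [Finset.mem_range] at hi
      rw [show u + (k - u - 1 - i) = k - (i + 1) by omega, Nat.cast_sub (by omega)]
      ring
    rw [Finset.prod_congr rfl this, Finset.prod_mul_distrib, Finset.prod_const, Finset.card_range,
      ← Finset.prod_range_add_one_eq_factorial]
    push_cast
    rfl
  have e2 : ∏ l ∈ Finset.Ico (k + 1) v, ((l : ℚ) - k) = (((v - (k + 1)).factorial : ℕ) : ℚ) := by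
    rw [Finset.prod_Ico_eq_prod_range, ← Finset.prod_range_add_one_eq_factorial]
    push_cast
    refine Finset.prod_congr rfl fun i _ => ?_
    ring
  rw [hs, Finset.prod_union hd, e1, e2]
  have hn : padicNorm 2 ((-1 : ℚ) ^ (k - u)) = 1 := by
    rcases neg_one_pow_eq_or ℚ (k - u) with h | h <;> rw [h] <;> simp
  rw [padicNorm.mul, padicNorm.mul, hn, one_mul, ← padicNorm.mul]
  have hdvd : (k - u).factorial * (v - (k + 1)).factorial ∣ (v - u - 1).factorial := by
    have := Nat.factorial_mul_factorial_dvd_factorial_add (k - u) (v - (k + 1))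
    rwa [show k - u + (v - (k + 1)) = v - u - 1 by omega] at this
  have h3 := padic_int_dvd (p := 2) (Int.natCast_dvd_natCast.2 hdvd)
  push_cast at h3 ⊢
  exact h3

/-- residues in the middle case -/
lemma rs_norm {n i j k : ℕ} (h : i + j ≤ 4 * n) (hk : k ∈ Finset.Icc n (5 * n)) :
    padicNorm 2 (rs n (5 * n) (P2P n i * P2Q n j) k) ≤
      padicNorm 2 ((n.factorial : ℕ) : ℚ) * (padicNorm 2 (((4 * n - i - j).factorial : ℕ) : ℚ))⁻¹ := by
  have hpos : 0 ≤ padicNorm 2 ((n.factorial : ℕ) : ℚ) * (padicNorm 2 (((4 * n - i - j).factorial : ℕ) : ℚ))⁻¹ :=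
    mul_nonneg (padicNorm.nonneg _) (inv_nonneg.2 (padicNorm.nonneg _))
  rw [Finset.mem_Icc] at hk
  unfold rs
  by_cases h1 : k < n + i
  · rw [eval_mul, eval_mul]
    unfold P2P
    rw [EE_eval_neg hk.1 h1]
    simpa using hpos
  by_cases h2 : 5 * n + 1 - j ≤ k
  · rw [eval_mul, eval_mul]
    unfold P2Q
    rw [EE_eval_neg h2 (by omega)]
    simpa using hpos
  push Not at h1 h2
  -- cancel the common factors
  have hden : ∏ l ∈ (Finset.Icc n (5 * n)).erase k, ((l : ℚ) - k) =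
      (P2P n i).eval (-(k : ℚ)) * (P2Q n j).eval (-(k : ℚ)) *
        ∏ l ∈ (Finset.Ico (n + i) (5 * n + 1 - j)).erase k, ((l : ℚ) - k) := by
    have hs : (Finset.Icc n (5 * n)).erase k = (Finset.Ico n (n + i) ∪ Finset.Ico (5 * n + 1 - j) (5 * n + 1)) ∪
        (Finset.Ico (n + i) (5 * n + 1 - j)).erase k := by
      ext x
      simp only [Finset.mem_erase, Finset.mem_Ico, Finset.mem_union, Finset.mem_Icc]
      omega
    have hd1 : Disjoint (Finset.Ico n (n + i)) (Finset.Ico (5 * n + 1 - j) (5 * n + 1)) := by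
      rw [Finset.disjoint_left]
      intro x hx hx'
      rw [Finset.mem_Ico] at hx hx'
      omega
    have hd2 : Disjoint (Finset.Ico n (n + i) ∪ Finset.Ico (5 * n + 1 - j) (5 * n + 1))
        ((Finset.Ico (n + i) (5 * n + 1 - j)).erase k) := by
      rw [Finset.disjoint_left]
      intro x hx hx'
      rw [Finset.mem_erase, Finset.mem_Ico] at hx'
      rw [Finset.mem_union, Finset.mem_Ico, Finset.mem_Ico] at hx
      omega
    rw [hs, Finset.prod_union hd2, Finset.prod_union hd1]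
    unfold P2P P2Q EE
    rw [eval_prod, eval_prod]
    congr 1
    congr 1
    · refine Finset.prod_congr rfl fun l _ => ?_
      rw [eval_add, eval_X, eval_C]
      ring
    · refine Finset.prod_congr rfl fun l _ => ?_
      rw [eval_add, eval_X, eval_C]
      ring
  have hne : ∀ s : Finset ℕ, k ∉ s → (∏ l ∈ s, ((l : ℚ) - k)) ≠ 0 := by
    intro s hs
    refine Finset.prod_ne_zero_iff.2 fun l hl => ?_
    intro h0
    apply hs
    have : (l : ℚ) = k := by linarith
    have : l = k := by exact_mod_cast this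
    rwa [← this]
  have hP0 : (P2P n i).eval (-(k : ℚ)) ≠ 0 := by
    unfold P2P EE
    rw [eval_prod]
    refine Finset.prod_ne_zero_iff.2 fun l hl => ?_
    rw [Finset.mem_Ico] at hl
    rw [eval_add, eval_X, eval_C]
    intro h0
    have : (l : ℚ) = k := by linarith
    have : l = k := by exact_mod_cast this
    omega
  have hQ0 : (P2Q n j).eval (-(k : ℚ)) ≠ 0 := by
    unfold P2Q EE
    rw [eval_prod]
    refine Finset.prod_ne_zero_iff.2 fun l hl => ?_
    rw [Finset.mem_Ico] at hl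
    rw [eval_add, eval_X, eval_C]
    intro h0
    have : (l : ℚ) = k := by linarith
    have : l = k := by exact_mod_cast this
    omega
  have hD0 := hne ((Finset.Ico (n + i) (5 * n + 1 - j)).erase k) (by simp)
  have hval : (An n * (P2P n i * P2Q n j)).eval (-(k : ℚ)) / ∏ l ∈ (Finset.Icc n (5 * n)).erase k, ((l : ℚ) - k) =
      (An n).eval (-(k : ℚ)) / ∏ l ∈ (Finset.Ico (n + i) (5 * n + 1 - j)).erase k, ((l : ℚ) - k) := by
    rw [hden, eval_mul, eval_mul]
    field_simp
  rw [hval, padicNorm.div, div_eq_mul_inv]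
  have h3 : padicNorm 2 ((An n).eval (-(k : ℚ))) ≤ padicNorm 2 ((n.factorial : ℕ) : ℚ) := by
    rw [An_eq]
    have := EE_norm (p := 2) 0 n (-(k : ℤ))
    rw [Nat.sub_zero] at this
    push_cast at this ⊢
    exact this
  have h4 := prod_erase_norm (u := n + i) (v := 5 * n + 1 - j) (k := k) h1 h2
  rw [show 5 * n + 1 - j - (n + i) - 1 = 4 * n - i - j by omega] at h4
  refine mul_le_mul h3 ?_ (inv_nonneg.2 (padicNorm.nonneg _)) (padicNorm.nonneg _)
  refine inv_anti₀ ?_ h4
  have : (((4 * n - i - j).factorial : ℕ) : ℚ) ≠ 0 := by exact_mod_cast Nat.factorial_ne_zero _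
  exact lt_of_le_of_ne (padicNorm.nonneg _) (Ne.symm fun h0 => this (padicNorm.zero_of_padicNorm_eq_zero h0))

lemma two_fact_inv (n : ℕ) :
    (padicNorm 2 ((n.factorial : ℕ) : ℚ))⁻¹ = (2 : ℚ) ^ (padicValNat 2 n.factorial : ℤ) := by
  rw [two_fact, ← zpow_neg, neg_neg]

/-- the whole entry -/
lemma entry {n i j : ℕ} (hn : 2 ≤ n) (hi : i ≤ 4 * n) (hj : j ≤ 4 * n) (α β γ : ℤ) :
    padicNorm 2 (L n (5 * n) α β γ (P2P n i * P2Q n j)) ≤
      (2 : ℚ) ^ ((3 * n - i - j) + (3 * Nat.log 2 (5 * n) + 3)) := by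
  set K := Nat.log 2 (5 * n) with hK
  have hK1 : 5 * n < 2 ^ (K + 1) := Nat.lt_pow_succ_log_self (by norm_num) _
  have hlogn : Nat.log 2 n ≤ K := Nat.log_mono_right (by omega)
  have hvn := two_val_ge n
  have h1 : (1 : ℚ) ≤ 2 := by norm_num
  set R : ℚ := (2 : ℚ) ^ ((3 * n - i - j) + (3 * K + 3)) with hR
  have hR0 : 0 ≤ R := by positivity
  have hRz : R = (2 : ℚ) ^ (((3 * n - i - j : ℕ) : ℤ) + (3 * (K : ℤ) + 3)) := by
    rw [hR, ← zpow_natCast]
    push_cast
    rfl
  have hL : L n (5 * n) α β γ (P2P n i * P2Q n j) =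
      ∑ k ∈ Finset.Icc n (5 * n), (-1 : ℚ) ^ k * rs n (5 * n) (P2P n i * P2Q n j) k *
        ((γ : ℚ) + (α : ℚ) * Sh 1 k + (β : ℚ) * Sh 2 k) +
      (-(α : ℚ) * AB (pp n (5 * n) (P2P n i * P2Q n j)) +
        (β : ℚ) * AB (derivative (pp n (5 * n) (P2P n i * P2Q n j)))) := by
    change Lf n (5 * n) α β γ (P2P n i * P2Q n j) = _
    unfold Lf
    ring
  rw [hL]
  refine (padicNorm.nonarchimedean (p := 2)).trans (max_le ?_ ?_)
  · -- residues
    refine padicNorm.sum_le' (fun k hk => ?_) hR0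
    have hk' := Finset.mem_Icc.1 hk
    rw [padicNorm.mul, padicNorm.mul]
    have hs : padicNorm 2 ((-1 : ℚ) ^ k) = 1 := by
      rcases neg_one_pow_eq_or ℚ k with h | h <;> rw [h] <;> simp
    rw [hs, one_mul]
    by_cases hij : i + j ≤ 4 * n
    · have h2 := rs_norm hij hk
      have h3 := coef_norm α β γ k K (lt_of_le_of_lt hk'.2 hK1)
      rw [two_fact, two_fact_inv] at h2
      refine (mul_le_mul h2 h3 (padicNorm.nonneg _) (by positivity)).trans ?_
      rw [← zpow_add₀ (by norm_num), ← zpow_add₀ (by norm_num), hRz]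
      refine zpow_le_zpow_right₀ h1 ?_
      have hv2 := two_val_le (4 * n - i - j)
      omega
    · have h2 : rs n (5 * n) (P2P n i * P2Q n j) k = 0 := by
        unfold rs
        rw [PQ_over (n := n) (i := i) (j := j) (by omega) (by omega) (by omega), Pn_eq, eval_mul, eval_mul,
          EE_eval_neg hk'.1 (by omega)]
        simp
      rw [h2, padicNorm.zero, zero_mul]
      exact hR0
  · -- Abel part
    by_cases hij : i + j ≤ 4 * n
    · have hq : pp n (5 * n) (P2P n i * P2Q n j) = EE 0 n /ₘ EE (n + i) (5 * n + 1 - j) := by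
        unfold pp
        rw [An_eq, Pn_split (n := n) (i := i) (j := j) (by omega)]
        exact divByMonic_cancel (EE_monic _ _) ((EE_monic _ _).mul (EE_monic _ _))
      rw [hq]
      set g := 5 * n + 1 - j - (n + i) with hg
      have hg' : g = 4 * n + 1 - i - j := by omega
      by_cases hgn : g ≤ n
      · have hEG : EE (n + i) (5 * n + 1 - j) = GG (((1 - ((5 * n + 1 - j : ℕ) : ℤ) : ℤ)) : ℚ) g := by
          rw [EE_eq_GG (by omega)]
          push_cast
          rfl
        have hval : ∀ x : ℤ, padicNorm 2 ((EE 0 n /ₘ EE (n + i) (5 * n + 1 - j)).eval (x : ℚ)) ≤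
            (2 : ℚ) ^ ((padicValNat 2 g.factorial : ℤ) + K + (-(padicValNat 2 n.factorial : ℤ))) := by
          intro x
          rw [hEG]
          have h2 := P2_divG (p := 2) (f := EE 0 n) (k := K) (by rw [EE_natDegree]; omega) g
            (1 - ((5 * n + 1 - j : ℕ) : ℤ)) (A := padicNorm 2 ((n.factorial : ℕ) : ℚ))
            (padicNorm.nonneg _) (fun y => by
              have := EE_norm (p := 2) 0 n y
              rwa [Nat.sub_zero] at this) x
          refine h2.trans (le_of_eq ?_)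
          rw [two_fact_inv, two_fact, zpow_add₀ (by norm_num), zpow_add₀ (by norm_num), zpow_natCast (2 : ℚ) K]
          push_cast
          rfl
        have hdeg : (EE 0 n /ₘ EE (n + i) (5 * n + 1 - j)).natDegree = n - g := by
          rw [natDegree_divByMonic _ (EE_monic _ _), EE_natDegree, EE_natDegree, Nat.sub_zero]
        have h3 := abel_norm (N := n - g + 1) (K := K) (by rw [hdeg]; omega) (by rw [hdeg]; omega)
          (by positivity) hval α β
        refine h3.trans ?_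
        rw [hRz, ← zpow_natCast (2 : ℚ) (n - g + 1), ← zpow_natCast (2 : ℚ) K, ← zpow_add₀ (by norm_num),
          ← zpow_add₀ (by norm_num)]
        refine zpow_le_zpow_right₀ h1 ?_
        have hv2 := two_val_le g
        omega
      · have h0 : EE 0 n /ₘ EE (n + i) (5 * n + 1 - j) = 0 := by
          rw [divByMonic_eq_zero_iff (EE_monic _ _)]
          refine degree_lt_degree ?_
          rw [EE_natDegree, EE_natDegree]
          omega
        rw [h0]
        simpa using hR0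
    · set w := n + i - (5 * n + 1 - j) with hw
      have hq : pp n (5 * n) (P2P n i * P2Q n j) = EE 0 n * EE (5 * n + 1 - j) (n + i) := by
        unfold pp
        rw [An_eq, PQ_over (n := n) (i := i) (j := j) (by omega) (by omega) (by omega)]
        rw [show EE 0 n * (Pn n (5 * n) * EE (5 * n + 1 - j) (n + i)) =
          Pn n (5 * n) * (EE 0 n * EE (5 * n + 1 - j) (n + i)) by ring]
        exact mul_divByMonic_cancel_left _ (Pn_monic _ _)
      rw [hq]
      have hdeg : (EE 0 n * EE (5 * n + 1 - j) (n + i)).natDegree = n + w := by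
        rw [(EE_monic _ _).natDegree_mul (EE_monic _ _), EE_natDegree, EE_natDegree, Nat.sub_zero]
      have hval : ∀ x : ℤ, padicNorm 2 ((EE 0 n * EE (5 * n + 1 - j) (n + i)).eval (x : ℚ)) ≤
          (2 : ℚ) ^ (-(padicValNat 2 n.factorial : ℤ) + (-(padicValNat 2 w.factorial : ℤ))) := by
        intro x
        rw [eval_mul, padicNorm.mul, zpow_add₀ (by norm_num), ← two_fact, ← two_fact]
        have h2 := EE_norm (p := 2) 0 n x
        rw [Nat.sub_zero] at h2
        exact mul_le_mul h2 (EE_norm (p := 2) _ _ x) (padicNorm.nonneg _) (padicNorm.nonneg _)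
      have h3 := abel_norm (N := n + w + 1) (K := K) (by rw [hdeg]; omega) (by rw [hdeg]; omega)
        (by positivity) hval α β
      refine h3.trans ?_
      rw [hRz, ← zpow_natCast (2 : ℚ) (n + w + 1), ← zpow_natCast (2 : ℚ) K, ← zpow_add₀ (by norm_num),
        ← zpow_add₀ (by norm_num)]
      refine zpow_le_zpow_right₀ h1 ?_
      have hv2 := two_val_ge w
      have hlogw : Nat.log 2 w ≤ K := Nat.log_mono_right (by omega)
      omega

lemma P2_sum : ∀ m s : ℕ, 4 * ∑ i ∈ Finset.range m, (s - 2 * i) ≤ (s + 1) ^ 2 := by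
  intro m
  induction m with
  | zero => intro s; simp
  | succ m ih =>
    intro s
    rw [Finset.sum_range_succ']
    have h1 : ∑ i ∈ Finset.range m, (s - 2 * (i + 1)) = ∑ i ∈ Finset.range m, ((s - 2) - 2 * i) :=
      Finset.sum_congr rfl fun i _ => by omega
    rw [h1]
    have h2 := ih (s - 2)
    rcases s with _ | _ | s
    · simp
    · simp
    · rw [show s + 1 + 1 - 2 = s by omega] at h2 ⊢
      rw [show s + 1 + 1 - 2 * 0 = s + 2 by omega]
      nlinarith

theorem P_two : ∃ C : ℕ, ∀ {n m : ℕ}, 2 ≤ n → m ≤ 4 * n + 1 → ∀ α β γ : ℤ,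
    padicNorm 2 (DD n (5 * n) m α β γ) ≤ (2 : ℚ) ^ (9 * n ^ 2 / 4 + C * n * Nat.log 2 n) := by
  refine ⟨80, fun {n m} hn hm α β γ => ?_⟩
  set K := Nat.log 2 (5 * n) with hK
  have h0 : DD n (5 * n) m α β γ =
      (Matrix.of fun i j : Fin m => L n (5 * n) α β γ (P2P n i * P2Q n j)).det := by
    unfold DD
    rw [P2_det (L n (5 * n) α β γ) m (P2P n) (P2Q n)
      (fun i _ => ⟨EE_monic _ _, by unfold P2P; rw [EE_natDegree]; omega⟩)
      (fun i hi => ⟨EE_monic _ _, by unfold P2Q; rw [EE_natDegree]; omega⟩)]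
  rw [h0]
  have h1 := P2_leibniz 2 m (Matrix.of fun i j : Fin m => L n (5 * n) α β γ (P2P n i * P2Q n j))
    (fun i => (2 : ℚ) ^ ((3 * n - 2 * i + 1) / 2 + (3 * K + 3))) (fun j => (2 : ℚ) ^ ((3 * n - 2 * j + 1) / 2))
    (fun i => by positivity) (fun j => by positivity) (fun i j => by
      rw [Matrix.of_apply]
      refine (entry hn (by omega) (by omega) α β γ).trans ?_
      rw [← pow_add]
      exact pow_le_pow_right₀ (by norm_num) (by omega))
  refine h1.trans ?_
  rw [Finset.prod_pow_eq_pow_sum, Finset.prod_pow_eq_pow_sum, ← pow_add]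
  refine pow_le_pow_right₀ (by norm_num) ?_
  rw [Finset.sum_add_distrib, Finset.sum_const, Finset.card_range, smul_eq_mul]
  have h2 : 2 * ∑ i ∈ Finset.range m, (3 * n - 2 * i + 1) / 2 ≤ ∑ i ∈ Finset.range m, ((3 * n + 1) - 2 * i) := by
    rw [Finset.mul_sum]
    refine Finset.sum_le_sum fun i _ => ?_
    omega
  have h3 := P2_sum m (3 * n + 1)
  have hl1 : 1 ≤ Nat.log 2 n := Nat.log_pos (by norm_num) hn
  have hKl : K ≤ Nat.log 2 n + 3 := by
    have h4 : Nat.log 2 (n * 2 * 2 * 2) = Nat.log 2 n + 3 := by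
      rw [Nat.log_mul_base (by norm_num) (by omega), Nat.log_mul_base (by norm_num) (by omega),
        Nat.log_mul_base (by norm_num) (by omega)]
    rw [← h4]
    exact Nat.log_mono_right (by omega)
  set l := Nat.log 2 n with hl
  have h5 : m * (3 * K + 3) ≤ 75 * n * l := by
    calc m * (3 * K + 3) ≤ (5 * n) * (15 * l) := Nat.mul_le_mul (by omega) (by omega)
      _ = 75 * n * l := by ring
  have h6 : (3 * n + 1 + 1) ^ 2 = 9 * n ^ 2 + 12 * n + 4 := by ring
  rw [h6] at h3
  have h7 : 4 * n ≤ 4 * n * l := Nat.le_mul_of_pos_right _ (by omega)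
  have h8 : 80 * n * l = 75 * n * l + 4 * n * l + n * l := by ring
  rw [h8]
  omega

end

end Pool.Agent.LP.T2

namespace Pool.Agent.LP

theorem P_two : ∃ C : ℕ, ∀ {n m : ℕ}, 2 ≤ n → m ≤ 4 * n + 1 → ∀ α β γ : ℤ,
    padicNorm 2 (DD n (5 * n) m α β γ) ≤ (2 : ℚ) ^ (9 * n ^ 2 / 4 + C * n * Nat.log 2 n) :=
  T2.P_two

end Pool.Agent.LP
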