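import Pool.Agent.H422R2.LP.PMain
import Pool.Agent.H422R2.LP.PLarge
import Pool.Agent.H422R2.LP.PTwo

/-! `P_main`. -/

open Filter Topology Finset

namespace Pool.Agent.LP

theorem P_main : ∀ᶠ n : ℕ in atTop, ∀ m : ℕ, 4 * n - 1 ≤ m → m ≤ 4 * n + 1 → ∀ α β γ : ℤ,
    DD n (5 * n) m α β γ ≠ 0 →
    ∑ p ∈ (Finset.range (5 * n + 1)).filter Nat.Prime,
      Real.log ((padicNorm p (DD n (5 * n) m α β γ) : ℚ) : ℝ) ≤
    -(4 * (n : ℝ) ^ 2 * Real.log n) + 28.1 * (n : ℝ) ^ 2 := by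
  refine PM.P_main_of ?_ ?_ ?_
  · intro n p m _ hn h2 hp hm1 hm α β γ
    exact P_large hn h2 hp hm1 hm α β γ
  · intro n p m _ hn h2 hm1 hm α β γ
    exact P_small hn h2 hm1 hm α β γ
  · exact P_two

end Pool.Agent.LP
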