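import Mathlib

/-!
# Abel sums of polynomials and their `p`-adic size

`AB q` is the Abel sum of `∑_{t ≥ 1} (-1)^t q(t)`.
-/

open Polynomial

namespace Pool.Agent.LP

noncomputable section

/-- `n`-th forward difference of `q` at `a` -/
def fd (q : ℚ[X]) (n : ℕ) (a : ℚ) : ℚ :=
  ∑ k ∈ Finset.range (n + 1), (-1 : ℚ) ^ (n - k) * (n.choose k : ℚ) * q.eval (a + k)

lemma fd_eq (q : ℚ[X]) (n : ℕ) (a : ℚ) : fd q n a = (fwdDiff (1 : ℚ))^[n] q.eval a := by
  rw [fwdDiff_iter_eq_sum_shift]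
  unfold fd
  refine Finset.sum_congr rfl fun k _ => ?_
  rw [zsmul_eq_mul, nsmul_eq_mul, mul_one]
  push_cast
  ring

lemma fd_zero (q : ℚ[X]) (a : ℚ) : fd q 0 a = q.eval a := by
  simp [fd]

lemma fd_of_lt {q : ℚ[X]} {n : ℕ} (h : q.natDegree < n) (a : ℚ) : fd q n a = 0 := by
  rw [fd_eq, Polynomial.fwdDiff_iter_eq_zero_of_degree_lt h]
  rfl

lemma fd_add (q r : ℚ[X]) (n : ℕ) (a : ℚ) : fd (q + r) n a = fd q n a + fd r n a := by
  unfold fd
  rw [← Finset.sum_add_distrib]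
  refine Finset.sum_congr rfl fun k _ => ?_
  rw [eval_add]
  ring

lemma fd_smul (c : ℚ) (q : ℚ[X]) (n : ℕ) (a : ℚ) : fd (c • q) n a = c * fd q n a := by
  unfold fd
  rw [Finset.mul_sum]
  refine Finset.sum_congr rfl fun k _ => ?_
  rw [eval_smul, smul_eq_mul]
  ring

lemma fd_succ (q : ℚ[X]) (n : ℕ) (a : ℚ) : fd q (n + 1) a = fd q n (a + 1) - fd q n a := by
  rw [fd_eq, fd_eq, fd_eq, Function.iterate_succ_apply']
  rfl

lemma fd_shift (q : ℚ[X]) (n : ℕ) (a : ℚ) : fd (q.comp (X + 1)) n a = fd q n (a + 1) := by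
  unfold fd
  refine Finset.sum_congr rfl fun k _ => ?_
  congr 1
  rw [eval_comp, eval_add, eval_X, eval_one]
  congr 1
  ring

/-- values `AB (X^j)` -/
def ABm (j : ℕ) : ℚ := -∑ i ∈ Finset.range (j + 1), (-1 : ℚ) ^ i / 2 ^ (i + 1) * fd (X ^ j) i 1

/-- Abel sum of `∑_{t ≥ 1} (-1)^t q(t)` -/
def AB : ℚ[X] →ₗ[ℚ] ℚ := Polynomial.lsum fun j => ABm j • LinearMap.id

lemma AB_monomial (j : ℕ) (c : ℚ) : AB (monomial j c) = c * ABm j := by
  unfold AB
  rw [Polynomial.lsum_apply, Polynomial.sum_monomial_index]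
  · rw [LinearMap.smul_apply, LinearMap.id_apply, smul_eq_mul, mul_comm]
  · simp

/-- truncated formula as a linear map -/
def ABN (N : ℕ) : ℚ[X] →ₗ[ℚ] ℚ where
  toFun q := -∑ i ∈ Finset.range N, (-1 : ℚ) ^ i / 2 ^ (i + 1) * fd q i 1
  map_add' q r := by
    simp only [fd_add, mul_add, Finset.sum_add_distrib]
    ring
  map_smul' c q := by
    simp only [fd_smul, RingHom.id_apply, smul_eq_mul, mul_neg, neg_inj, Finset.mul_sum]
    refine Finset.sum_congr rfl fun i _ => ?_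
    ring

lemma ABN_apply (N : ℕ) (q : ℚ[X]) :
    ABN N q = -∑ i ∈ Finset.range N, (-1 : ℚ) ^ i / 2 ^ (i + 1) * fd q i 1 := rfl

lemma ABN_monomial {N j : ℕ} (h : j < N) (c : ℚ) : ABN N (monomial j c) = c * ABm j := by
  have h1 : (monomial j c : ℚ[X]) = c • X ^ j := by
    rw [smul_eq_C_mul, C_mul_X_pow_eq_monomial]
  rw [h1, map_smul, smul_eq_mul, ABN_apply]
  unfold ABm
  congr 2
  refine (Finset.sum_subset (Finset.range_subset_range.2 (by omega)) ?_).symm
  intro i _ hi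
  rw [Finset.mem_range, not_lt] at hi
  rw [fd_of_lt (by rw [natDegree_X_pow]; omega), mul_zero]

theorem AB_eq (q : ℚ[X]) {N : ℕ} (h : q.natDegree < N) :
    AB q = -∑ i ∈ Finset.range N, (-1 : ℚ) ^ i / 2 ^ (i + 1) * fd q i 1 := by
  rw [← ABN_apply]
  rw [q.as_sum_range' N h, map_sum, map_sum]
  refine Finset.sum_congr rfl fun j hj => ?_
  rw [AB_monomial, ABN_monomial (Finset.mem_range.1 hj)]

lemma natDegree_shift (q : ℚ[X]) : (q.comp (X + 1)).natDegree = q.natDegree := by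
  rw [natDegree_comp, show (X + 1 : ℚ[X]) = X + C 1 by simp, natDegree_X_add_C, mul_one]

/-- functional equation of the Abel sum -/
theorem AB_shift (q : ℚ[X]) : AB (q.comp (X + 1)) + AB q = -q.eval 1 := by
  have hN : q.natDegree < q.natDegree + 1 := Nat.lt_succ_self _
  rw [AB_eq q hN, AB_eq (q.comp (X + 1)) (by rw [natDegree_shift]; exact hN)]
  have h1 : ∀ i, fd (q.comp (X + 1)) i 1 = fd q i 1 + fd q (i + 1) 1 := by
    intro i
    rw [fd_shift, fd_succ]
    ring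
  simp only [h1]
  have key : ∀ N : ℕ, ∑ i ∈ Finset.range N, (-1 : ℚ) ^ i / 2 ^ (i + 1) * (fd q i 1 + fd q (i + 1) 1) +
      ∑ i ∈ Finset.range N, (-1 : ℚ) ^ i / 2 ^ (i + 1) * fd q i 1 =
      fd q 0 1 - (-1 : ℚ) ^ N / 2 ^ N * fd q N 1 := by
    intro N
    induction N with
    | zero => simp
    | succ N ih =>
      rw [Finset.sum_range_succ, Finset.sum_range_succ, pow_succ, pow_succ]
      have h2 : (2 : ℚ) ^ N ≠ 0 := pow_ne_zero _ two_ne_zero
      have h3 : (-1 : ℚ) ^ N / (2 ^ N * 2) * (fd q N 1 + fd q (N + 1) 1) + (-1 : ℚ) ^ N / (2 ^ N * 2) * fd q N 1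
          = (-1 : ℚ) ^ N / 2 ^ N * fd q N 1 - (-1 : ℚ) ^ N * -1 / (2 ^ N * 2) * fd q (N + 1) 1 := by
        field_simp
        ring
      linear_combination ih + h3
  have h4 := key (q.natDegree + 1)
  rw [fd_of_lt hN, mul_zero, sub_zero, fd_zero] at h4
  linear_combination -h4

/-! ### `p`-adic bounds -/

lemma norm_fd {p : ℕ} [Fact p.Prime] {q : ℚ[X]} {n : ℕ} {a A : ℚ} (hA : 0 ≤ A)
    (h : ∀ k : ℕ, k ≤ n → padicNorm p (q.eval (a + k)) ≤ A) : padicNorm p (fd q n a) ≤ A := by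
  unfold fd
  refine padicNorm.sum_le' (fun k hk => ?_) hA
  rw [padicNorm.mul, padicNorm.mul]
  have h1 : padicNorm p ((-1 : ℚ) ^ (n - k)) = 1 := by
    rcases neg_one_pow_eq_or ℚ (n - k) with h | h <;> rw [h] <;> simp
  have h2 : padicNorm p ((n.choose k : ℚ)) ≤ 1 := padicNorm.of_nat _
  rw [h1, one_mul]
  calc padicNorm p ((n.choose k : ℚ)) * padicNorm p (q.eval (a + k)) ≤ 1 * A :=
        mul_le_mul h2 (h k (by rw [Finset.mem_range] at hk; omega)) (padicNorm.nonneg _) zero_le_one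
    _ = A := one_mul A

lemma norm_two {p : ℕ} [Fact p.Prime] (hp : p ≠ 2) : padicNorm p (2 : ℚ) = 1 := by
  have h := (padicNorm.nat_eq_one_iff (p := p) 2).2 (by
    intro hd
    have h2 := (Nat.Prime.eq_one_or_self_of_dvd Nat.prime_two p hd)
    rcases h2 with h2 | h2
    · exact (Fact.out : p.Prime).one_lt.ne' h2
    · exact hp h2)
  exact_mod_cast h

lemma norm_coef {p : ℕ} [Fact p.Prime] (hp : p ≠ 2) (i : ℕ) :
    padicNorm p ((-1 : ℚ) ^ i / 2 ^ (i + 1)) = 1 := by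
  rw [padicNorm.div]
  have h1 : padicNorm p ((-1 : ℚ) ^ i) = 1 := by
    rcases neg_one_pow_eq_or ℚ i with h | h <;> rw [h] <;> simp
  have h2 : ∀ k : ℕ, padicNorm p ((2 : ℚ) ^ k) = 1 := by
    intro k
    induction k with
    | zero => simp
    | succ k ih => rw [pow_succ, padicNorm.mul, ih, norm_two hp, one_mul]
  rw [h1, h2, div_one]

/-- odd primes: the Abel sum is not larger than the values -/
theorem norm_AB {p : ℕ} [Fact p.Prime] (hp : p ≠ 2) {q : ℚ[X]} {A : ℚ} (hA : 0 ≤ A)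
    (h : ∀ n : ℤ, padicNorm p (q.eval (n : ℚ)) ≤ A) : padicNorm p (AB q) ≤ A := by
  rw [AB_eq q (Nat.lt_succ_self _), padicNorm.neg]
  refine padicNorm.sum_le' (fun i _ => ?_) hA
  rw [padicNorm.mul, norm_coef hp, one_mul]
  refine norm_fd hA fun k _ => ?_
  have := h (1 + k)
  push_cast at this
  exact this

/-- `p = 2` -/
theorem norm_AB_two {q : ℚ[X]} {N : ℕ} (hN : q.natDegree < N) {A : ℚ} (hA : 0 ≤ A)
    (h : ∀ n : ℤ, padicNorm 2 (q.eval (n : ℚ)) ≤ A) : padicNorm 2 (AB q) ≤ 2 ^ N * A := by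
  rw [AB_eq q hN, padicNorm.neg]
  refine padicNorm.sum_le' (fun i hi => ?_) (by positivity)
  rw [padicNorm.mul]
  have h1 : padicNorm 2 ((-1 : ℚ) ^ i) = 1 := by
    rcases neg_one_pow_eq_or ℚ i with h | h <;> rw [h] <;> simp
  have h2 : ∀ k : ℕ, padicNorm 2 ((2 : ℚ) ^ k) = (2 ^ k)⁻¹ := by
    intro k
    induction k with
    | zero => simp
    | succ k ih =>
      rw [pow_succ, padicNorm.mul, ih, mul_inv]
      congr 1
      have := padicNorm.padicNorm_p_of_prime (p := 2)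
      exact_mod_cast this
  have h3 : padicNorm 2 ((-1 : ℚ) ^ i / 2 ^ (i + 1)) ≤ 2 ^ N := by
    rw [padicNorm.div, h1, h2, one_div, inv_inv]
    exact pow_le_pow_right₀ (by norm_num) (by rw [Finset.mem_range] at hi; omega)
  refine mul_le_mul h3 ?_ (padicNorm.nonneg _) (by positivity)
  refine norm_fd hA fun k _ => ?_
  have := h (1 + k)
  push_cast at this
  exact this

/-- a polynomial whose values at the integers `≥ a` are bounded by `A` has all values at integers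
bounded by `A` -/
theorem int_ball {p : ℕ} [Fact p.Prime] {q : ℚ[X]} {a : ℤ} {A : ℚ} (hA : 0 ≤ A)
    (h : ∀ n : ℤ, a ≤ n → padicNorm p (q.eval (n : ℚ)) ≤ A) (n : ℤ) :
    padicNorm p (q.eval (n : ℚ)) ≤ A := by
  -- downward induction
  have key : ∀ m : ℕ, ∀ n : ℤ, a - m ≤ n → padicNorm p (q.eval (n : ℚ)) ≤ A := by
    intro m
    induction m with
    | zero => intro n hn; exact h n (by simpa using hn)
    | succ m ih =>
      intro n hn
      by_cases hc : a - m ≤ n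
      · exact ih n hc
      · have hn' : n = a - (m + 1 : ℕ) := by push_cast at hn hc ⊢; omega
        have h1 : fd q (q.natDegree + 1) n = 0 := fd_of_lt (Nat.lt_succ_self _) _
        unfold fd at h1
        rw [Finset.sum_range_succ'] at h1
        have h2 : q.eval (n : ℚ) = -((-1 : ℚ) ^ (q.natDegree + 1) *
            ∑ k ∈ Finset.range (q.natDegree + 1), (-1 : ℚ) ^ (q.natDegree + 1 - (k + 1)) *
              ((q.natDegree + 1).choose (k + 1) : ℚ) * q.eval ((n : ℚ) + ((k + 1 : ℕ) : ℚ))) := by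
          have h3 : (-1 : ℚ) ^ (q.natDegree + 1) * (-1 : ℚ) ^ (q.natDegree + 1) = 1 := by
            rw [← mul_pow]; norm_num
          simp only [Nat.sub_zero, Nat.choose_zero_right, Nat.cast_one, mul_one, Nat.cast_zero,
            add_zero] at h1
          linear_combination ((-1 : ℚ) ^ (q.natDegree + 1)) * h1 - q.eval (n : ℚ) * h3
        rw [h2, padicNorm.neg, padicNorm.mul]
        have h4 : padicNorm p ((-1 : ℚ) ^ (q.natDegree + 1)) = 1 := by
          rcases neg_one_pow_eq_or ℚ (q.natDegree + 1) with h | h <;> rw [h] <;> simp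
        rw [h4, one_mul]
        refine padicNorm.sum_le' (fun k _ => ?_) hA
        rw [padicNorm.mul, padicNorm.mul]
        have h5 : padicNorm p ((-1 : ℚ) ^ (q.natDegree + 1 - (k + 1))) = 1 := by
          rcases neg_one_pow_eq_or ℚ (q.natDegree + 1 - (k + 1)) with h | h <;> rw [h] <;> simp
        rw [h5, one_mul]
        have h6 : padicNorm p (((q.natDegree + 1).choose (k + 1) : ℕ) : ℚ) ≤ 1 := padicNorm.of_nat _
        have h7 := ih (n + ((k + 1 : ℕ) : ℤ)) (by push_cast at hn' ⊢; omega)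
        rw [Int.cast_add, Int.cast_natCast] at h7
        calc _ ≤ 1 * A := mul_le_mul h6 h7 (padicNorm.nonneg _) zero_le_one
          _ = A := one_mul A
  refine key (a - n).toNat n ?_
  have := Int.self_le_toNat (a - n)
  omega

/-- Newton's formula -/
lemma newton (q : ℚ[X]) (a : ℚ) (m : ℕ) :
    q.eval (a + m) = ∑ k ∈ Finset.range (m + 1), (m.choose k : ℚ) * fd q k a := by
  have h := shift_eq_sum_fwdDiff_iter (1 : ℚ) q.eval m a
  rw [nsmul_eq_mul, mul_one] at h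
  rw [h]
  refine Finset.sum_congr rfl fun k _ => ?_
  rw [nsmul_eq_mul, fd_eq]

lemma norm_inv_nat {p : ℕ} [Fact p.Prime] {j k : ℕ} (hj : 1 ≤ j) (hk : j < p ^ (k + 1)) :
    padicNorm p ((j : ℚ)⁻¹) ≤ p ^ k := by
  have hp1 : 1 < p := (Fact.out : p.Prime).one_lt
  have hj0 : (j : ℚ) ≠ 0 := by positivity
  rw [padicNorm.eq_zpow_of_nonzero (inv_ne_zero hj0), padicValRat.inv, neg_neg, padicValRat.of_nat,
    zpow_natCast]
  refine pow_le_pow_right₀ (by exact_mod_cast hp1.le) ?_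
  have h1 : p ^ padicValNat p j ∣ j := pow_padicValNat_dvd
  have h2 : p ^ padicValNat p j ≤ j := Nat.le_of_dvd hj h1
  by_contra hc
  push Not at hc
  have h3 : p ^ (k + 1) ≤ p ^ padicValNat p j := Nat.pow_le_pow_right hp1.le hc
  omega

/-- divided differences -/
theorem norm_divdiff {p : ℕ} [Fact p.Prime] {f : ℚ[X]} {k : ℕ} (hd : f.natDegree < p ^ (k + 1)) {A : ℚ}
    (hA : 0 ≤ A) (h : ∀ n : ℤ, padicNorm p (f.eval (n : ℚ)) ≤ A) (a n : ℤ) :
    padicNorm p ((f /ₘ (X - C (a : ℚ))).eval (n : ℚ)) ≤ p ^ k * A := by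
  have hp1 : 1 < p := (Fact.out : p.Prime).one_lt
  refine int_ball (a := a + 1) (by positivity) (fun n hn => ?_) n
  obtain ⟨m, hm⟩ : ∃ m : ℕ, n = a + (m + 1 : ℕ) := ⟨(n - a - 1).toNat, by
    have := Int.toNat_of_nonneg (show 0 ≤ n - a - 1 by omega); push_cast; omega⟩
  have h0 := modByMonic_add_div f (X - C (a : ℚ))
  rw [modByMonic_X_sub_C_eq_C_eval] at h0
  have h1 := congrArg (eval (n : ℚ)) h0
  rw [eval_add, eval_mul, eval_sub, eval_X, eval_C, eval_C] at h1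
  have hm' : (n : ℚ) = (a : ℚ) + ((m + 1 : ℕ) : ℚ) := by rw [hm]; push_cast; ring
  have hm1 : ((m : ℚ) + 1) ≠ 0 := by positivity
  have h2 : (f /ₘ (X - C (a : ℚ))).eval (n : ℚ) =
      ∑ j ∈ Finset.range (m + 1), (m.choose j : ℚ) * (((j + 1 : ℕ) : ℚ)⁻¹ * fd f (j + 1) a) := by
    have h3 := newton f a (m + 1)
    rw [Finset.sum_range_succ', ← hm'] at h3
    simp only [Nat.choose_zero_right, Nat.cast_one, one_mul, fd_zero] at h3
    have h4 : ((m : ℚ) + 1) * (f /ₘ (X - C (a : ℚ))).eval (n : ℚ) =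
        ∑ k ∈ Finset.range (m + 1), (((m + 1).choose (k + 1) : ℕ) : ℚ) * fd f (k + 1) a := by
      rw [← h1] at h3
      have h5 : (n : ℚ) - a = (m : ℚ) + 1 := by rw [hm']; push_cast; ring
      rw [h5] at h3
      linear_combination h3
    apply mul_left_cancel₀ hm1
    rw [h4, Finset.mul_sum]
    refine Finset.sum_congr rfl fun j _ => ?_
    have h6 := Nat.add_one_mul_choose_eq m j
    have h7 : ((m : ℚ) + 1) * (m.choose j : ℚ) = (((m + 1).choose (j + 1) : ℕ) : ℚ) * ((j : ℚ) + 1) := by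
      exact_mod_cast h6
    have hj1 : ((j : ℚ) + 1) ≠ 0 := by positivity
    have h8 : (((m + 1).choose (j + 1) : ℕ) : ℚ) = ((m : ℚ) + 1) * (m.choose j : ℚ) * ((j : ℚ) + 1)⁻¹ := by
      rw [h7, mul_assoc, mul_inv_cancel₀ hj1, mul_one]
    rw [h8]
    push_cast
    ring
  rw [h2]
  refine padicNorm.sum_le' (fun j _ => ?_) (by positivity)
  rw [padicNorm.mul, padicNorm.mul]
  by_cases hj : j + 1 ≤ f.natDegree
  · have h3 : padicNorm p ((m.choose j : ℕ) : ℚ) ≤ 1 := padicNorm.of_nat _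
    have h4 : padicNorm p (((j + 1 : ℕ) : ℚ)⁻¹) ≤ p ^ k := norm_inv_nat (by omega) (by omega)
    have h5 : padicNorm p (fd f (j + 1) a) ≤ A := by
      refine norm_fd hA fun i _ => ?_
      have := h (a + i)
      push_cast at this
      exact this
    have h6 : padicNorm p (((j + 1 : ℕ) : ℚ)⁻¹) * padicNorm p (fd f (j + 1) a) ≤ p ^ k * A :=
      mul_le_mul h4 h5 (padicNorm.nonneg _) (by positivity)
    calc _ ≤ 1 * (p ^ k * A) := mul_le_mul h3 h6 (mul_nonneg (padicNorm.nonneg _) (padicNorm.nonneg _)) zero_le_one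
      _ = _ := one_mul _
  · rw [fd_of_lt (by omega), padicNorm.zero, mul_zero, mul_zero]
    positivity

/-- derivative -/
theorem norm_derivative {p : ℕ} [Fact p.Prime] {f : ℚ[X]} {k : ℕ} (hd : f.natDegree < p ^ (k + 1)) {A : ℚ}
    (hA : 0 ≤ A) (h : ∀ n : ℤ, padicNorm p (f.eval (n : ℚ)) ≤ A) (n : ℤ) :
    padicNorm p ((derivative f).eval (n : ℚ)) ≤ p ^ k * A := by
  have h0 := modByMonic_add_div f (X - C (n : ℚ))
  rw [modByMonic_X_sub_C_eq_C_eval] at h0
  have h1 : (derivative f).eval (n : ℚ) = (f /ₘ (X - C (n : ℚ))).eval (n : ℚ) := by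
    conv_lhs => rw [← h0]
    simp
  rw [h1]
  exact norm_divdiff hd hA h n n

theorem norm_AB_derivative {p : ℕ} [Fact p.Prime] (hp : p ≠ 2) {f : ℚ[X]} {k : ℕ}
    (hd : f.natDegree < p ^ (k + 1)) {A : ℚ} (hA : 0 ≤ A)
    (h : ∀ n : ℤ, padicNorm p (f.eval (n : ℚ)) ≤ A) :
    padicNorm p (AB (derivative f)) ≤ p ^ k * A :=
  norm_AB hp (by positivity) fun n => norm_derivative hd hA h n

end

end Pool.Agent.LP
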