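import Pool.Agent.H422R2.LP.Gram

/-!
# Hankel determinants of sizes `h + 1`, `h`, `h - 1` in the node basis
-/

open Polynomial

namespace Pool.Agent.LP

noncomputable section

/-- coefficient of `n1 h 0` -/
def lam0 (r k : ℕ) : ℚ := if r = 0 then 0 else if r = 1 then 1 else 1 - (k : ℚ)

/-- coefficient of `n1 h 1` -/
def lam1 (r k : ℕ) : ℚ := if r = 0 then 0 else if r = 1 then 0 else (k : ℚ)

/-- the constant -/
def mu (r k : ℕ) : ℚ := if r = 0 then 1 else if r = 1 then -(k : ℚ) else (k : ℚ) * (k - 1)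

/-- polynomials of degree `< h + 1 - r` -/
def bb (h r k : ℕ) : ℚ[X] := n1 h k - C (lam0 r k) * n1 h 0 - C (lam1 r k) * n1 h 1

/-- nodes `-(r + i)` -/
def xx (r m : ℕ) (i : Fin m) : ℚ := -((r + (i : ℕ) : ℕ) : ℚ)

lemma xx_injective (r m : ℕ) : Function.Injective (xx r m) := by
  intro i j hij
  unfold xx at hij
  have h1 : ((r + (i : ℕ) : ℕ) : ℚ) = ((r + (j : ℕ) : ℕ) : ℚ) := neg_injective hij
  have h2 : r + (i : ℕ) = r + (j : ℕ) := by exact_mod_cast h1
  exact Fin.ext (by omega)

lemma lag_eq (r m : ℕ) (i : Fin m) :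
    lag (xx r m) i = nd ((Finset.Ico r (r + m)).erase (r + i)) := by
  unfold lag nd
  have h1 : ∀ j : Fin m, (X - C (xx r m j) : ℚ[X]) = X + C (((r + (j : ℕ) : ℕ) : ℚ)) := by
    intro j
    unfold xx
    rw [C_neg, sub_neg_eq_add]
  simp only [h1]
  have h2 : (Finset.Ico r (r + m)).erase (r + i) = (Finset.univ.erase i).image (fun j : Fin m => r + (j : ℕ)) := by
    ext k
    simp only [Finset.mem_erase, Finset.mem_Ico, Finset.mem_image, Finset.mem_univ, and_true]
    constructor
    · rintro ⟨h1, h2, h3⟩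
      refine ⟨⟨k - r, by omega⟩, ?_, by simp; omega⟩
      intro h4
      apply h1
      rw [← h4]
      simp
      omega
    · rintro ⟨j, hj, rfl⟩
      have := j.2
      refine ⟨?_, by omega, by omega⟩
      intro h4
      exact hj (Fin.ext (by omega))
  rw [h2, Finset.prod_image]
  intro a _ b _ hab
  exact Fin.ext (by simpa using hab)

lemma mu_lag {h r : ℕ} {m : ℕ} (hr : r ≤ 2) (hm : r + m = h + 1) (i : Fin m) :
    C (mu r (r + i)) * lag (xx r m) i = bb h r (r + i) := by
  have hi := i.2
  rw [lag_eq, hm]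
  set k := r + (i : ℕ) with hk
  have hkh : k ≤ h := by omega
  interval_cases r
  · have h1 : (Finset.Ico 0 (h + 1)) = Finset.range (h + 1) := by
      ext j; simp
    rw [h1]
    simp [mu, bb, lam0, lam1, n1]
  · have h1 : n1 h k = (X + C ((0 : ℕ) : ℚ)) * nd ((Finset.Ico 1 (h + 1)).erase k) := by
      unfold n1 nd
      have h2 : (Finset.Ico 1 (h + 1)).erase k = ((Finset.range (h + 1)).erase k).erase 0 := by
        ext j; simp only [Finset.mem_erase, Finset.mem_Ico, Finset.mem_range]; omega
      rw [h2]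
      exact (Finset.mul_prod_erase ((Finset.range (h + 1)).erase k) (fun j : ℕ => (X + C (j : ℚ) : ℚ[X]))
        (by simp only [Finset.mem_erase, Finset.mem_range]; omega)).symm
    have h3 : n1 h 0 = (X + C (k : ℚ)) * nd ((Finset.Ico 1 (h + 1)).erase k) := by
      unfold n1 nd
      have h2 : (Finset.Ico 1 (h + 1)).erase k = ((Finset.range (h + 1)).erase 0).erase k := by
        ext j; simp only [Finset.mem_erase, Finset.mem_Ico, Finset.mem_range]; omega
      rw [h2]
      exact (Finset.mul_prod_erase ((Finset.range (h + 1)).erase 0) (fun j : ℕ => (X + C (j : ℚ) : ℚ[X]))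
        (by simp only [Finset.mem_erase, Finset.mem_range]; omega)).symm
    unfold bb
    rw [h1, h3]
    simp only [mu, lam0, lam1]
    simp
    ring
  · have h1 : n1 h k = (X + C ((0 : ℕ) : ℚ)) * ((X + C ((1 : ℕ) : ℚ)) * nd ((Finset.Ico 2 (h + 1)).erase k)) := by
      unfold n1 nd
      have h2 : (Finset.Ico 2 (h + 1)).erase k = (((Finset.range (h + 1)).erase k).erase 0).erase 1 := by
        ext j; simp only [Finset.mem_erase, Finset.mem_Ico, Finset.mem_range]; omega
      rw [h2, Finset.mul_prod_erase (((Finset.range (h + 1)).erase k).erase 0) (fun j : ℕ => (X + C (j : ℚ) : ℚ[X]))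
        (by simp only [Finset.mem_erase, Finset.mem_range]; omega),
        Finset.mul_prod_erase (((Finset.range (h + 1)).erase k)) (fun j : ℕ => (X + C (j : ℚ) : ℚ[X]))
        (by simp only [Finset.mem_erase, Finset.mem_range]; omega)]
    have h3 : n1 h 0 = (X + C ((1 : ℕ) : ℚ)) * ((X + C (k : ℚ)) * nd ((Finset.Ico 2 (h + 1)).erase k)) := by
      unfold n1 nd
      have h2 : (Finset.Ico 2 (h + 1)).erase k = (((Finset.range (h + 1)).erase 0).erase 1).erase k := by
        ext j; simp only [Finset.mem_erase, Finset.mem_Ico, Finset.mem_range]; omega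
      rw [h2, Finset.mul_prod_erase (((Finset.range (h + 1)).erase 0).erase 1) (fun j : ℕ => (X + C (j : ℚ) : ℚ[X]))
        (by simp only [Finset.mem_erase, Finset.mem_range]; omega),
        Finset.mul_prod_erase (((Finset.range (h + 1)).erase 0)) (fun j : ℕ => (X + C (j : ℚ) : ℚ[X]))
        (by simp only [Finset.mem_erase, Finset.mem_range]; omega)]
    have h4 : n1 h 1 = (X + C ((0 : ℕ) : ℚ)) * ((X + C (k : ℚ)) * nd ((Finset.Ico 2 (h + 1)).erase k)) := by
      unfold n1 nd
      have h2 : (Finset.Ico 2 (h + 1)).erase k = (((Finset.range (h + 1)).erase 1).erase 0).erase k := by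
        ext j; simp only [Finset.mem_erase, Finset.mem_Ico, Finset.mem_range]; omega
      rw [h2, Finset.mul_prod_erase (((Finset.range (h + 1)).erase 1).erase 0) (fun j : ℕ => (X + C (j : ℚ) : ℚ[X]))
        (by simp only [Finset.mem_erase, Finset.mem_range]; omega),
        Finset.mul_prod_erase (((Finset.range (h + 1)).erase 1)) (fun j : ℕ => (X + C (j : ℚ) : ℚ[X]))
        (by simp only [Finset.mem_erase, Finset.mem_range]; omega)]
    unfold bb
    rw [h1, h3, h4]
    simp only [mu, lam0, lam1]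
    simp
    ring

lemma mu_ne {r m : ℕ} (hr : r ≤ 2) (i : Fin m) : mu r (r + i) ≠ 0 := by
  interval_cases r
  · simp [mu]
  · unfold mu
    rw [if_neg one_ne_zero, if_pos rfl]
    have h1 : (0 : ℚ) < ((1 + (i : ℕ) : ℕ) : ℚ) := by positivity
    exact neg_ne_zero.2 h1.ne'
  · simp only [mu]
    simp
    refine ⟨by positivity, ?_⟩
    have : (0 : ℚ) < 2 + ((i : ℕ) : ℚ) - 1 := by
      have : (0 : ℚ) ≤ ((i : ℕ) : ℚ) := by positivity
      linarith
    exact this.ne'

lemma n1_eval_ne {h j k : ℕ} (hj : j ≤ h) (hjk : j ≠ k) : (n1 h k).eval (-(j : ℚ)) = 0 := by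
  unfold n1
  rw [nd_eval]
  refine Finset.prod_eq_zero (Finset.mem_erase.2 ⟨hjk, Finset.mem_range.2 (by omega)⟩) ?_
  ring

lemma bb_eval {h r k : ℕ} (hr : r ≤ 2) (hk : k ≤ h) (hrk : r ≤ k) :
    (bb h r k).eval (-(k : ℚ)) = (n1 h k).eval (-(k : ℚ)) := by
  unfold bb
  rw [eval_sub, eval_sub, eval_mul, eval_mul, eval_C, eval_C]
  interval_cases r
  · simp [lam0, lam1]
  · rw [n1_eval_ne (k := 0) hk (by omega)]
    simp [lam1]
  · rw [n1_eval_ne (k := 0) hk (by omega), n1_eval_ne (k := 1) hk (by omega)]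
    simp

/-- determinant in terms of the polynomials `bb` -/
theorem norm_hankel_bb {p : ℕ} [Fact p.Prime] (L : ℚ[X] →ₗ[ℚ] ℚ) {h r m : ℕ} (hr : r ≤ 2)
    (hm : r + m = h + 1) :
    padicNorm p (∏ i : Fin m, mu r (r + i)) * padicNorm p (HkQ L m).det =
      padicNorm p (Matrix.of fun i j : Fin m => cc h (r + j) * L (bb h r (r + i) * bb h r (r + j))).det := by
  have h1 := norm_hankel_lag (p := p) L (xx r m) (xx_injective r m)
  have hcc : ∀ i : Fin m, cc h (r + i) ≠ 0 := fun i => (cc_pos h _).ne'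
  -- matrix identity
  have h2 : (Matrix.of fun i j : Fin m => cc h (r + j) * L (bb h r (r + i) * bb h r (r + j))) =
      Matrix.diagonal (fun i : Fin m => mu r (r + i)) *
        (Matrix.of fun i j : Fin m => L (lag (xx r m) i * lag (xx r m) j)) *
        Matrix.diagonal (fun i : Fin m => mu r (r + i) * cc h (r + i)) := by
    ext i j
    rw [Matrix.mul_diagonal, Matrix.diagonal_mul]
    simp only [Matrix.of_apply]
    rw [← mu_lag hr hm i, ← mu_lag hr hm j]
    have h3 : C (mu r (r + i)) * lag (xx r m) i * (C (mu r (r + j)) * lag (xx r m) j) =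
        (mu r (r + i) * mu r (r + j)) • (lag (xx r m) i * lag (xx r m) j) := by
      rw [smul_eq_C_mul, C_mul]
      ring
    rw [h3, map_smul, smul_eq_mul]
    ring
  rw [h2, Matrix.det_mul, Matrix.det_mul, Matrix.det_diagonal, Matrix.det_diagonal, padicNorm.mul,
    padicNorm.mul, h1]
  have h4 : padicNorm p (∏ i : Fin m, (lag (xx r m) i).eval (xx r m i)) *
      padicNorm p (∏ i : Fin m, mu r (r + i) * cc h (r + i)) = 1 := by
    rw [norm_prod, norm_prod, ← Finset.prod_mul_distrib]
    refine Finset.prod_eq_one fun i _ => ?_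
    have hi := i.2
    have h5 := congrArg (eval (xx r m i)) (mu_lag hr hm i)
    rw [eval_mul, eval_C] at h5
    have h6 : (bb h r (r + i)).eval (xx r m i) = (n1 h (r + i)).eval (xx r m i) :=
      bb_eval hr (by omega) (by omega)
    rw [h6] at h5
    have h7 : (n1 h (r + i)).eval (xx r m i) * (n1 h (r + i)).eval (xx r m i) *
        (cc h (r + i) * cc h (r + i)) = 1 := n1_eval_sq (by omega)
    have h8 := congrArg (padicNorm p) h7
    simp only [padicNorm.mul, padicNorm.one] at h8
    have h9 := congrArg (padicNorm p) h5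
    rw [padicNorm.mul] at h9
    rw [padicNorm.mul]
    set a := padicNorm p ((lag (xx r m) i).eval (xx r m i))
    set b := padicNorm p (mu r (r + i))
    set c := padicNorm p (cc h (r + i))
    have ha : 0 ≤ a := padicNorm.nonneg _
    have hb : 0 ≤ b := padicNorm.nonneg _
    have hc : 0 ≤ c := padicNorm.nonneg _
    rw [← h9] at h8
    have h10 : (a * (b * c)) ^ 2 = 1 := by linear_combination h8
    have h11 : 0 ≤ a * (b * c) := by positivity
    nlinarith [sq_nonneg (a * (b * c) - 1), h10, h11, (pow_eq_one_iff_of_nonneg h11 (two_ne_zero)).1 h10]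
  linear_combination (-(padicNorm p (∏ i : Fin m, mu r (r + i)) * padicNorm p (HkQ L m).det)) * h4

end

end Pool.Agent.LP
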