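import Pool.Agent.H422R2.LP.Defs
import Pool.Agent.H422R2.LP.Reduce

/-!
# `L a b f = LL b 1 (An a ^ 2 * f)`
-/

open Polynomial

namespace Pool.Agent.LP

noncomputable section

lemma sS_eq (α β : ℚ) (k : ℕ) : sS α β k = α * Sh 1 k + β * Sh 2 k := by
  unfold sS Sh
  rw [Finset.mul_sum, Finset.mul_sum, ← Finset.sum_add_distrib]
  have h1 : Finset.Icc 1 k = Finset.Ico 1 (k + 1) := by
    ext j; simp only [Finset.mem_Icc, Finset.mem_Ico]; omega
  rw [h1, Finset.sum_Ico_eq_sum_range, Nat.add_sub_cancel]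
  refine Finset.sum_congr rfl fun i _ => ?_
  push_cast
  rw [add_comm 1 i, add_comm (1 : ℚ) (i : ℚ)]
  ring

lemma An_eq_nd (a : ℕ) : An a = nd (Finset.range a) := rfl

lemma Pn_eq_nd (a b : ℕ) : Pn a b = nd (Finset.Icc a b) := rfl

lemma An_mul_Pn {a b : ℕ} (hab : a ≤ b) : An a * Pn a b = PP b := by
  rw [An_eq_nd, Pn_eq_nd]
  unfold PP nd
  have h1 : Finset.range (b + 1) = Finset.range a ∪ Finset.Icc a b := by
    ext j; simp only [Finset.mem_range, Finset.mem_union, Finset.mem_Icc]; omega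
  have h2 : Disjoint (Finset.range a) (Finset.Icc a b) := by
    rw [Finset.disjoint_left]
    intro j hj hj'
    rw [Finset.mem_range] at hj
    rw [Finset.mem_Icc] at hj'
    omega
  rw [h1, Finset.prod_union h2]

/-- `ℓ_k = ∏_{j ∈ [a,b], j ≠ k} (X + j)` -/
def el (a b k : ℕ) : ℚ[X] := nd ((Finset.Icc a b).erase k)

lemma An_mul_el {a b k : ℕ} (hk : k ∈ Finset.Icc a b) : An a * el a b k = n1 b k := by
  rw [Finset.mem_Icc] at hk
  rw [An_eq_nd]
  unfold el n1 nd
  have h1 : (Finset.range (b + 1)).erase k = Finset.range a ∪ (Finset.Icc a b).erase k := by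
    ext j; simp only [Finset.mem_range, Finset.mem_union, Finset.mem_Icc, Finset.mem_erase]; omega
  have h2 : Disjoint (Finset.range a) ((Finset.Icc a b).erase k) := by
    rw [Finset.disjoint_left]
    intro j hj hj'
    rw [Finset.mem_range] at hj
    rw [Finset.mem_erase, Finset.mem_Icc] at hj'
    omega
  rw [h1, Finset.prod_union h2]

lemma n1_eval_self {h l : ℕ} (hl : l ≤ h) :
    (n1 h l).eval (-(l : ℚ)) = (-1) ^ l / cc h l := by
  have h1 : (n1 h l).eval (-(l : ℚ)) = (-1) ^ l * ((l.factorial : ℚ) * ((h - l).factorial : ℚ)) := by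
    unfold n1
    rw [nd_eval]
    have h2 : (Finset.range (h + 1)).erase l = Finset.range l ∪ (Finset.Ico (l + 1) (h + 1)) := by
      ext j
      simp only [Finset.mem_erase, Finset.mem_range, Finset.mem_union, Finset.mem_Ico]
      omega
    have h3 : Disjoint (Finset.range l) (Finset.Ico (l + 1) (h + 1)) := by
      rw [Finset.disjoint_left]
      intro j hj hj'
      rw [Finset.mem_range] at hj
      rw [Finset.mem_Ico] at hj'
      omega
    rw [h2, Finset.prod_union h3, Finset.prod_Ico_eq_prod_range]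
    have h4 : ∀ l : ℕ, ∏ j ∈ Finset.range l, (-(l : ℚ) + (j : ℚ)) = (-1) ^ l * (l.factorial : ℚ) := by
      intro l
      rw [← Finset.prod_range_reflect, ← Finset.prod_range_add_one_eq_factorial]
      push_cast
      rw [← Finset.card_range l, ← Finset.prod_const, Finset.card_range, ← Finset.prod_mul_distrib]
      refine Finset.prod_congr rfl fun j hj => ?_
      rw [Finset.mem_range] at hj
      rw [Nat.sub_sub, Nat.cast_sub (by omega)]
      push_cast
      ring
    have h5 : ∏ j ∈ Finset.range (h + 1 - (l + 1)), (-(l : ℚ) + ((l + 1 + j : ℕ) : ℚ)) = ((h - l).factorial : ℚ) := by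
      have h6 : h + 1 - (l + 1) = h - l := by omega
      rw [h6, ← Finset.prod_range_add_one_eq_factorial]
      push_cast
      refine Finset.prod_congr rfl fun j _ => ?_
      ring
    rw [h4, h5]
    ring
  rw [h1]
  unfold cc
  rw [one_div, div_inv_eq_mul]

lemma An_eval_zero {a k : ℕ} (hk : k < a) : (An a).eval (-(k : ℚ)) = 0 := by
  rw [An_eq_nd, nd_eval]
  refine Finset.prod_eq_zero (Finset.mem_range.2 hk) ?_
  ring

/-- the bridge -/
theorem L_eq_LL {a b : ℕ} (hab : a ≤ b) (α β γ : ℚ) (f : ℚ[X]) :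
    L a b α β γ f = LL b 1 α β γ (An a * (An a * f)) := by
  have h0 : L a b α β γ f = Lf a b α β γ f := rfl
  rw [h0, LL_apply, one_mul]
  unfold Lf
  have h1 : pp a b f = (An a * (An a * f)) /ₘ PP b := by
    unfold pp
    have h2 : (PP b).Monic := nd_monic _
    have hA : (An a).Monic := nd_monic _
    have h3 := modByMonic_add_div (An a * f) (Pn a b)
    refine (div_modByMonic_unique _ (An a * ((An a * f) %ₘ Pn a b)) h2 ⟨?_, ?_⟩).1.symm
    · rw [← An_mul_Pn hab]
      linear_combination (An a) * h3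
    · rw [← An_mul_Pn hab, degree_mul, degree_mul]
      exact WithBot.add_lt_add_left (degree_ne_bot.2 hA.ne_zero) (degree_modByMonic_lt _ (Pn_monic a b))
  rw [h1]
  have h4 : ∑ k ∈ Finset.Icc a b, (-1 : ℚ) ^ k * rs a b f k * (γ + α * Sh 1 k + β * Sh 2 k) =
      ∑ k ∈ Finset.range (b + 1), cc b k * (An a * (An a * f)).eval (-(k : ℚ)) * (γ + sS α β k) := by
    have h5 : Finset.Icc a b ⊆ Finset.range (b + 1) := by
      intro j; simp only [Finset.mem_range, Finset.mem_Icc]; omega
    rw [← Finset.sum_subset h5]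
    · refine Finset.sum_congr rfl fun k hk => ?_
      have h6 : (An a * el a b k).eval (-(k : ℚ)) = (-1) ^ k / cc b k := by
        rw [An_mul_el hk, n1_eval_self (Finset.mem_Icc.1 hk).2]
      have h7 : (el a b k).eval (-(k : ℚ)) = ∏ j ∈ (Finset.Icc a b).erase k, ((j : ℚ) - k) := by
        unfold el
        rw [nd_eval]
        refine Finset.prod_congr rfl fun j _ => ?_
        ring
      have h8 : ∏ j ∈ (Finset.Icc a b).erase k, ((j : ℚ) - k) ≠ 0 := by
        refine Finset.prod_ne_zero_iff.2 fun j hj => ?_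
        rw [sub_ne_zero]
        exact_mod_cast (Finset.mem_erase.1 hj).1
      have h9 : cc b k ≠ 0 := (cc_pos _ _).ne'
      rw [eval_mul, h7, eq_div_iff h9] at h6
      rw [sS_eq]
      unfold rs
      rw [eval_mul, eval_mul, eval_mul]
      have h10 : (-1 : ℚ) ^ k * (-1) ^ k = 1 := by rw [← mul_pow]; norm_num
      have h11 : (-1 : ℚ) ^ k * ((An a).eval (-(k : ℚ)) * f.eval (-(k : ℚ)) /
          ∏ j ∈ (Finset.Icc a b).erase k, ((j : ℚ) - k)) =
          cc b k * ((An a).eval (-(k : ℚ)) * ((An a).eval (-(k : ℚ)) * f.eval (-(k : ℚ)))) := by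
        field_simp
        linear_combination (-(An a).eval (-(k : ℚ)) * f.eval (-(k : ℚ))) * h6 +
          (0 : ℚ) * h10
      rw [h11]
      ring
    · intro k hk hk'
      rw [Finset.mem_range] at hk
      rw [Finset.mem_Icc] at hk'
      rw [eval_mul, An_eval_zero (by omega)]
      ring
  rw [h4]
  ring

/-- entries -/
theorem L_el {a b k l : ℕ} (hab : a ≤ b) (α β γ : ℚ) (hk : k ∈ Finset.Icc a b) (hl : l ∈ Finset.Icc a b) :
    L a b α β γ (el a b k * el a b l) = LL b 1 α β γ (n1 b k * n1 b l) := by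
  rw [L_eq_LL hab]
  congr 1
  rw [← An_mul_el hk, ← An_mul_el hl]
  ring

end

end Pool.Agent.LP
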