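import Pool.Agent.H422R2.LP.Abel

/-!
# Hankel determinants of linear forms in `1, log 2, π²`: definitions

`R_f(s) = f(s) s(s+1)…(s+a-1) / ∏_{k=a}^{b} (s+k)`, and (for `α log 2 + β π²/12 = γ`)
`L(f) = -α ∑_{s ≥ 1} (-1)^s R_f(s) + β ∑_{s ≥ 1} (-1)^s R_f'(s)` (Abel sums).
Final shape: `a = n`, `b = 5 n`, sizes `4n-1, 4n, 4n+1`.
-/

open Polynomial

namespace Pool.Agent.LP

noncomputable section

/-- numerator `s(s+1)…(s+a-1)` -/
def An (a : ℕ) : ℚ[X] := ∏ i ∈ Finset.range a, (X + C (i : ℚ))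

/-- denominator `∏_{k ∈ [a,b]} (s+k)` -/
def Pn (a b : ℕ) : ℚ[X] := ∏ k ∈ Finset.Icc a b, (X + C (k : ℚ))

/-- alternating harmonic sums `∑_{1 ≤ s ≤ k} (-1)^s / s^j` -/
def Sh (j k : ℕ) : ℚ := ∑ s ∈ Finset.Icc 1 k, (-1 : ℚ) ^ s / (s : ℚ) ^ j

/-- residue of `An a * f / Pn a b` at `-k` -/
def rs (a b : ℕ) (f : ℚ[X]) (k : ℕ) : ℚ :=
  (An a * f).eval (-(k : ℚ)) / ∏ j ∈ (Finset.Icc a b).erase k, ((j : ℚ) - k)

/-- polynomial part of `An a * f / Pn a b` -/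
def pp (a b : ℕ) (f : ℚ[X]) : ℚ[X] := (An a * f) /ₘ Pn a b

/-- the linear form, as a function -/
def Lf (a b : ℕ) (α β γ : ℚ) (f : ℚ[X]) : ℚ :=
  ∑ k ∈ Finset.Icc a b, (-1 : ℚ) ^ k * rs a b f k * (γ + α * Sh 1 k + β * Sh 2 k) -
    α * AB (pp a b f) + β * AB (derivative (pp a b f))

lemma Pn_monic (a b : ℕ) : (Pn a b).Monic := monic_prod_of_monic _ _ fun k _ => monic_X_add_C _

lemma rs_add (a b : ℕ) (f g : ℚ[X]) (k : ℕ) : rs a b (f + g) k = rs a b f k + rs a b g k := by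
  unfold rs
  rw [mul_add, eval_add, add_div]

lemma rs_smul (a b : ℕ) (c : ℚ) (f : ℚ[X]) (k : ℕ) : rs a b (c • f) k = c * rs a b f k := by
  unfold rs
  rw [mul_smul_comm, eval_smul, smul_eq_mul, mul_div_assoc]

lemma divByMonic_add' {P : ℚ[X]} (hP : P.Monic) (f g : ℚ[X]) : (f + g) /ₘ P = f /ₘ P + g /ₘ P := by
  refine (div_modByMonic_unique (f /ₘ P + g /ₘ P) (f %ₘ P + g %ₘ P) hP ⟨?_, ?_⟩).1
  · have h1 := modByMonic_add_div f P
    have h2 := modByMonic_add_div g P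
    calc f %ₘ P + g %ₘ P + P * (f /ₘ P + g /ₘ P) = (f %ₘ P + P * (f /ₘ P)) + (g %ₘ P + P * (g /ₘ P)) := by ring
      _ = f + g := by rw [h1, h2]
  · exact (degree_add_le _ _).trans_lt (max_lt (degree_modByMonic_lt _ hP) (degree_modByMonic_lt _ hP))

lemma divByMonic_smul' {P : ℚ[X]} (hP : P.Monic) (c : ℚ) (f : ℚ[X]) : (c • f) /ₘ P = c • (f /ₘ P) := by
  refine (div_modByMonic_unique (c • (f /ₘ P)) (c • (f %ₘ P)) hP ⟨?_, ?_⟩).1
  · have h1 := modByMonic_add_div f P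
    rw [mul_smul_comm, ← smul_add, h1]
  · exact (degree_smul_le _ _).trans_lt (degree_modByMonic_lt _ hP)

lemma pp_add (a b : ℕ) (f g : ℚ[X]) : pp a b (f + g) = pp a b f + pp a b g := by
  unfold pp
  rw [mul_add, divByMonic_add' (Pn_monic a b)]

lemma pp_smul (a b : ℕ) (c : ℚ) (f : ℚ[X]) : pp a b (c • f) = c • pp a b f := by
  unfold pp
  rw [mul_smul_comm, divByMonic_smul' (Pn_monic a b)]

/-- the linear form `L` -/
def L (a b : ℕ) (α β γ : ℚ) : ℚ[X] →ₗ[ℚ] ℚ where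
  toFun := Lf a b α β γ
  map_add' f g := by
    unfold Lf
    simp only [rs_add, pp_add, map_add, mul_add, add_mul, Finset.sum_add_distrib]
    ring
  map_smul' c f := by
    unfold Lf
    simp only [rs_smul, pp_smul, map_smul, smul_eq_mul, RingHom.id_apply]
    rw [mul_add, mul_sub, Finset.mul_sum]
    have h1 : ∑ k ∈ Finset.Icc a b, (-1 : ℚ) ^ k * (c * rs a b f k) * (γ + α * Sh 1 k + β * Sh 2 k) =
        ∑ k ∈ Finset.Icc a b, c * ((-1 : ℚ) ^ k * rs a b f k * (γ + α * Sh 1 k + β * Sh 2 k)) :=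
      Finset.sum_congr rfl fun k _ => by ring
    rw [h1]
    ring

/-- Hankel determinant of size `m` -/
def DD (a b m : ℕ) (α β γ : ℚ) : ℚ :=
  (Matrix.of fun i j : Fin m => L a b α β γ (X ^ ((i : ℕ) + (j : ℕ)))).det

/-- point of the line `Re s = 1/2` -/
def zl (y : ℝ) : ℂ := 1 / 2 + y * Complex.I

/-- kernel on the line: `∫ F(1/2+iy) ker dy = -α ∑ (-1)^s F(s) + β ∑ (-1)^s F'(s)` -/
def ker (α β : ℚ) (y : ℝ) : ℂ :=
  (α : ℂ) / (2 * Real.cosh (Real.pi * y)) +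
    (β : ℂ) * (Complex.I * Real.pi / 2) * (Real.sinh (Real.pi * y) / Real.cosh (Real.pi * y) ^ 2)

/-- weight of `L` on the line -/
def Gw (a b : ℕ) (α β : ℚ) (y : ℝ) : ℂ := aeval (zl y) (An a) / aeval (zl y) (Pn a b) * ker α β y

/-- real majorant of the weight (up to a constant) -/
def ww (a b : ℕ) (y : ℝ) : ℝ := ‖aeval (zl y) (An a)‖ / ‖aeval (zl y) (Pn a b)‖ / Real.cosh (Real.pi * y)

end

end Pool.Agent.LP
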