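import Pool.Agent.H422R2.LP.Form

/-!
# `p`-adic bounds for the entries, `p` odd
-/

open Polynomial

namespace Pool.Agent.LP

noncomputable section

lemma norm_neg_one_pow {p : ℕ} [Fact p.Prime] (i : ℕ) : padicNorm p ((-1 : ℚ) ^ i) = 1 := by
  rcases neg_one_pow_eq_or ℚ i with h | h <;> rw [h] <;> simp

lemma norm_pow {p : ℕ} [Fact p.Prime] (a : ℚ) (n : ℕ) : padicNorm p (a ^ n) = padicNorm p a ^ n := by
  induction n with
  | zero => simp
  | succ m ih => rw [pow_succ, pow_succ, padicNorm.mul, ih]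

lemma mul_le_of {a b A B : ℚ} (ha : a ≤ A) (hb : b ≤ B) (h0 : 0 ≤ b) (hA : 0 ≤ A) : a * b ≤ A * B :=
  mul_le_mul ha hb h0 hA

lemma norm_mul_le {p : ℕ} [Fact p.Prime] {a b A B : ℚ} (ha : padicNorm p a ≤ A) (hb : padicNorm p b ≤ B) :
    padicNorm p (a * b) ≤ A * B := by
  rw [padicNorm.mul]
  exact mul_le_mul ha hb (padicNorm.nonneg _) ((padicNorm.nonneg _).trans ha)

lemma norm_add_le {p : ℕ} [Fact p.Prime] {a b A : ℚ} (ha : padicNorm p a ≤ A) (hb : padicNorm p b ≤ A) :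
    padicNorm p (a + b) ≤ A := (padicNorm.nonarchimedean).trans (max_le ha hb)

lemma norm_sS {p : ℕ} [Fact p.Prime] {α β : ℚ} (hα : padicNorm p α ≤ 1) (hβ : padicNorm p β ≤ 1) {k κ : ℕ}
    (hk : k < p ^ (κ + 1)) : padicNorm p (sS α β k) ≤ p ^ (2 * κ) := by
  have hp1 : 1 < p := (Fact.out : p.Prime).one_lt
  have hp1' : (1 : ℚ) ≤ p := by exact_mod_cast hp1.le
  unfold sS
  refine padicNorm.sum_le' (fun i hi => ?_) (by positivity)
  rw [Finset.mem_range] at hi
  rw [padicNorm.mul, norm_neg_one_pow, one_mul]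
  have h1 : padicNorm p (((i + 1 : ℕ) : ℚ)⁻¹) ≤ p ^ κ := norm_inv_nat (by omega) (by omega)
  push_cast at h1
  refine norm_add_le ?_ ?_
  · rw [div_eq_mul_inv]
    refine (norm_mul_le hα h1).trans ?_
    rw [one_mul]
    exact pow_le_pow_right₀ hp1' (by omega)
  · rw [div_eq_mul_inv, ← inv_pow, pow_two]
    refine (norm_mul_le hβ (norm_mul_le h1 h1)).trans ?_
    rw [one_mul, ← pow_add]
    exact pow_le_pow_right₀ hp1' (by omega)

/-- `E[q]` for an odd prime -/
lemma norm_EE {p : ℕ} [Fact p.Prime] (hp : p ≠ 2) {α β : ℚ} (hα : padicNorm p α ≤ 1)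
    (hβ : padicNorm p β ≤ 1) {q : ℚ[X]} {κ : ℕ} (hd : q.natDegree < p ^ (κ + 1)) {A : ℚ} (hA : 0 ≤ A)
    (h : ∀ n : ℤ, padicNorm p (q.eval (n : ℚ)) ≤ A) :
    padicNorm p (-(α * AB q) + β * AB (derivative q)) ≤ p ^ κ * A := by
  have hp1 : 1 < p := (Fact.out : p.Prime).one_lt
  have hp1' : (1 : ℚ) ≤ p := by exact_mod_cast hp1.le
  have h1 : (1 : ℚ) ≤ (p : ℚ) ^ κ := one_le_pow₀ hp1'
  refine norm_add_le ?_ ?_
  · rw [padicNorm.neg]
    refine (norm_mul_le hα (norm_AB hp hA h)).trans ?_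
    nlinarith
  · refine (norm_mul_le hβ (norm_AB_derivative hp hd hA h)).trans ?_
    rw [one_mul]

/-- entries, general bound -/
theorem norm_entry {p : ℕ} [Fact p.Prime] (hp : p ≠ 2) {h : ℕ} {W : ℚ[X]} {α β γ : ℚ}
    (hα : padicNorm p α ≤ 1) (hβ : padicNorm p β ≤ 1) (hγ : padicNorm p γ ≤ 1)
    (hW : ∀ n : ℤ, padicNorm p (W.eval (n : ℚ)) ≤ 1) {κ : ℕ} (hd : W.natDegree + h < p ^ (κ + 1))
    {R : ℚ} (hR : (p : ℚ) ^ κ ≤ R)
    (hR2 : ∀ k l : ℕ, k ≤ h → l ≤ h → k ≠ l →
      padicNorm p (((l : ℚ) - k)⁻¹) * padicNorm p (cc h l / cc h k) ≤ R)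
    {k l : ℕ} (hk : k ≤ h) (hl : l ≤ h) :
    padicNorm p (cc h l * LL h W α β γ (n1 h k * n1 h l)) ≤ p ^ κ * R := by
  have hp1 : 1 < p := (Fact.out : p.Prime).one_lt
  have hp1' : (1 : ℚ) ≤ p := by exact_mod_cast hp1.le
  have hpk : (1 : ℚ) ≤ (p : ℚ) ^ κ := one_le_pow₀ hp1'
  have hR0 : (0 : ℚ) ≤ R := by linarith
  by_cases hkl : k = l
  · subst hkl
    rw [LL_diag W α β γ hk]
    set f : ℚ[X] := W * n1 h k with hf
    set g : ℚ[X] := C (cc h k) * f with hg
    have hm : (X - C (((-k : ℤ) : ℚ))).Monic := monic_X_sub_C _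
    have h1 : g /ₘ (X - C (((-k : ℤ) : ℚ))) = C (cc h k) * (f /ₘ (X - C (((-k : ℤ) : ℚ)))) := by
      refine (div_modByMonic_unique _ (C (cc h k) * (f %ₘ (X - C (((-k : ℤ) : ℚ))))) hm ⟨?_, ?_⟩).1
      · have h3 := modByMonic_add_div f (X - C (((-k : ℤ) : ℚ)))
        rw [hg]
        linear_combination (C (cc h k)) * h3
      · rw [← smul_eq_C_mul]
        exact lt_of_le_of_lt (degree_smul_le _ _) (degree_modByMonic_lt _ hm)
    have h2 : cc h k * (W.eval (-(k : ℚ)) * (γ + sS α β k) / cc h k +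
      (-(α * AB (f /ₘ (X - C (((-k : ℤ) : ℚ))))) +
        β * AB (derivative (f /ₘ (X - C (((-k : ℤ) : ℚ))))))) =
        W.eval (-(k : ℚ)) * (γ + sS α β k) +
          (-(α * AB (g /ₘ (X - C (((-k : ℤ) : ℚ))))) +
        β * AB (derivative (g /ₘ (X - C (((-k : ℤ) : ℚ)))))) := by
      have h4 : cc h k ≠ 0 := (cc_pos h k).ne'
      rw [h1, derivative_C_mul, ← smul_eq_C_mul, ← smul_eq_C_mul, map_smul, map_smul, smul_eq_mul, smul_eq_mul]
      field_simp
    rw [h2]
    have hgd : g.natDegree < p ^ (κ + 1) := by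
      have h5 : g.natDegree ≤ W.natDegree + h := by
        rw [hg, hf]
        refine (natDegree_C_mul_le _ _).trans ((natDegree_mul_le).trans ?_)
        rw [n1_natDegree hk]
      omega
    have hgn : ∀ n : ℤ, padicNorm p (g.eval (n : ℚ)) ≤ 1 := by
      intro n
      have h5 : g.eval (n : ℚ) = W.eval (n : ℚ) * (C (cc h k) * n1 h k).eval (n : ℚ) := by
        rw [hg, hf]
        simp only [eval_mul, eval_C]
        ring
      rw [h5]
      simpa using norm_mul_le (hW n) (norm_n1 hk n)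
    refine norm_add_le ?_ ?_
    · have h6 := hW (-k)
      push_cast at h6
      have h7 : padicNorm p (γ + sS α β k) ≤ p ^ (2 * κ) :=
        norm_add_le (hγ.trans (one_le_pow₀ hp1')) (norm_sS hα hβ (by omega))
      refine (norm_mul_le h6 h7).trans ?_
      rw [one_mul, two_mul, pow_add]
      exact mul_le_mul_of_nonneg_left hR (by positivity)
    · have h8 : (g /ₘ (X - C (((-k : ℤ) : ℚ)))).natDegree < p ^ (κ + 1) := by
        rw [natDegree_divByMonic _ hm]
        omega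
      refine (norm_EE hp hα hβ h8 (A := p ^ κ * 1) (by positivity)
        (fun n => norm_divdiff hgd zero_le_one hgn (-k) n)).trans ?_
      rw [mul_one]
      exact mul_le_mul_of_nonneg_left hR (by positivity)
  · rw [LL_off W α β γ hl hkl]
    set g : ℚ[X] := C (cc h l) * (W * n2 h k l) with hg
    have h2 : cc h l * (-(α * AB (W * n2 h k l)) + β * AB (derivative (W * n2 h k l))) =
        -(α * AB g) + β * AB (derivative g) := by
      rw [hg, derivative_C_mul, ← smul_eq_C_mul, ← smul_eq_C_mul, map_smul, map_smul, smul_eq_mul, smul_eq_mul]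
      ring
    rw [h2]
    have hgd : g.natDegree < p ^ (κ + 1) := by
      have h5 : g.natDegree ≤ W.natDegree + h := by
        rw [hg]
        refine (natDegree_C_mul_le _ _).trans ((natDegree_mul_le).trans ?_)
        rw [n2_natDegree hk hl hkl]
        omega
      omega
    refine norm_EE hp hα hβ hgd hR0 fun n => ?_
    have h5 : g.eval (n : ℚ) = W.eval (n : ℚ) * (C (cc h l) * n2 h k l).eval (n : ℚ) := by
      rw [hg]
      simp only [eval_mul, eval_C]
      ring
    rw [h5]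
    have h6 := norm_n2 hk hl hkl ((norm_sub_inv hk hl hkl (by omega : h < p ^ (κ + 1))).trans hR)
      (hR2 k l hk hl hkl) n
    simpa using norm_mul_le (hW n) h6

/-! ### quotients of the constants -/

lemma cc_eq {h l : ℕ} (hl : l ≤ h) : cc h l = (h.choose l : ℚ) / (h.factorial : ℚ) := by
  unfold cc
  have h1 := Nat.choose_mul_factorial_mul_factorial hl
  have h2 : (h.choose l : ℚ) * (l.factorial : ℚ) * ((h - l).factorial : ℚ) = (h.factorial : ℚ) := by
    exact_mod_cast h1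
  have h5 : ((l.factorial : ℕ) : ℚ) ≠ 0 := by exact_mod_cast Nat.factorial_ne_zero l
  have h6 : (((h - l).factorial : ℕ) : ℚ) ≠ 0 := by exact_mod_cast Nat.factorial_ne_zero (h - l)
  have h7 : ((h.factorial : ℕ) : ℚ) ≠ 0 := by exact_mod_cast Nat.factorial_ne_zero h
  rw [eq_div_iff h7, ← h2]
  field_simp

lemma norm_choose_inv {p : ℕ} [Fact p.Prime] {h k κ : ℕ} (hk : k ≤ h) (hκ : h < p ^ (κ + 1)) :
    padicNorm p ((h.choose k : ℚ)⁻¹) ≤ p ^ κ := by
  have hp1 : 1 < p := (Fact.out : p.Prime).one_lt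
  have h0 : h.choose k ≠ 0 := (Nat.choose_pos hk).ne'
  have h0' : (h.choose k : ℚ) ≠ 0 := by exact_mod_cast h0
  rw [padicNorm.eq_zpow_of_nonzero (inv_ne_zero h0'), padicValRat.inv, neg_neg, padicValRat.of_nat,
    zpow_natCast]
  refine pow_le_pow_right₀ (by exact_mod_cast hp1.le) ?_
  have h1 := Nat.factorization_choose_le_log (p := p) (n := h) (k := k)
  rw [Nat.factorization_def _ Fact.out] at h1
  refine h1.trans ?_
  rcases Nat.eq_zero_or_pos h with rfl | hpos
  · simp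
  · exact Nat.lt_succ_iff.1 (Nat.log_lt_of_lt_pow hpos.ne' hκ)

lemma norm_cc_div {p : ℕ} [Fact p.Prime] {h k l κ : ℕ} (hk : k ≤ h) (hl : l ≤ h) (hκ : h < p ^ (κ + 1)) :
    padicNorm p (cc h l / cc h k) ≤ p ^ κ := by
  have h7 : ((h.factorial : ℕ) : ℚ) ≠ 0 := by exact_mod_cast Nat.factorial_ne_zero h
  have h8 : (h.choose k : ℚ) ≠ 0 := by exact_mod_cast (Nat.choose_pos hk).ne'
  have h1 : cc h l / cc h k = (h.choose l : ℚ) * (h.choose k : ℚ)⁻¹ := by
    rw [cc_eq hl, cc_eq hk]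
    field_simp
  rw [h1]
  have := norm_mul_le (p := p) (padicNorm.of_nat (p := p) (h.choose l)) (norm_choose_inv hk hκ)
  rwa [one_mul] at this

theorem ratio_general {p : ℕ} [Fact p.Prime] {h κ : ℕ} (hκ : h < p ^ (κ + 1)) (k l : ℕ) (hk : k ≤ h)
    (hl : l ≤ h) (hkl : k ≠ l) :
    padicNorm p (((l : ℚ) - k)⁻¹) * padicNorm p (cc h l / cc h k) ≤ (p : ℚ) ^ (2 * κ) := by
  rw [two_mul, pow_add]
  exact mul_le_mul (norm_sub_inv hk hl hkl hκ) (norm_cc_div hk hl hκ) (padicNorm.nonneg _) (by positivity)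

lemma norm_fac {p : ℕ} [Fact p.Prime] {N : ℕ} (hN : N < p ^ 2) :
    padicNorm p (Nat.factorial N : ℚ) = (p : ℚ) ^ (-((N / p : ℕ) : ℤ)) := by
  rw [padicNorm.eq_zpow_of_nonzero (by exact_mod_cast Nat.factorial_ne_zero N)]
  have h1 : padicValRat p (Nat.factorial N : ℚ) = ((N / p : ℕ) : ℤ) := by
    rw [padicValRat.of_nat]
    have h2 : Nat.log p N < 2 := Nat.log_lt_of_lt_pow' (by norm_num) hN
    rw [padicValNat_factorial h2]
    have : Finset.Ico 1 2 = {1} := by decide
    rw [this]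
    simp
  rw [h1]

lemma norm_cc {p : ℕ} [Fact p.Prime] {h l : ℕ} (hl : l ≤ h) (hp2 : h < p ^ 2) :
    padicNorm p (cc h l) = (p : ℚ) ^ (l / p + (h - l) / p) := by
  unfold cc
  have hp0 : (p : ℚ) ≠ 0 := by exact_mod_cast (Fact.out : p.Prime).pos.ne'
  rw [padicNorm.div, padicNorm.one, padicNorm.mul, norm_fac (by omega), norm_fac (by omega), one_div,
    mul_inv, ← zpow_neg, ← zpow_neg, neg_neg, neg_neg, zpow_natCast, zpow_natCast, pow_add]

theorem ratio_sq {p : ℕ} [Fact p.Prime] {h : ℕ} (hp2 : h < p ^ 2) (k l : ℕ) (hk : k ≤ h)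
    (hl : l ≤ h) (hkl : k ≠ l) :
    padicNorm p (((l : ℚ) - k)⁻¹) * padicNorm p (cc h l / cc h k) ≤ (p : ℚ) := by
  have hp1 : 1 < p := (Fact.out : p.Prime).one_lt
  have hp0 : (p : ℚ) ≠ 0 := by exact_mod_cast (Fact.out : p.Prime).pos.ne'
  by_cases hc : (p : ℤ) ∣ (l : ℤ) - k
  · have h1 : padicNorm p (cc h l / cc h k) = 1 := by
      rw [padicNorm.div, norm_cc hl hp2, norm_cc hk hp2]
      have h2 : k % p = l % p := by
        have := (Int.emod_emod_of_dvd k (dvd_refl (p : ℤ)))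
        have h3 : (l : ℤ) % p = (k : ℤ) % p := Int.emod_eq_emod_iff_emod_sub_eq_zero.2 (Int.emod_eq_zero_of_dvd hc)
        exact_mod_cast h3.symm
      have key : ∀ j : ℕ, j ≤ h → j / p + (h - j) / p = (h - j % p) / p := by
        intro j hj
        have h4 : h - j = (h - j % p) - p * (j / p) := by
          have := Nat.mod_add_div j p
          omega
        rw [h4, Nat.sub_mul_div_of_le]
        · have h5 : j / p ≤ (h - j % p) / p := by
            rw [Nat.le_div_iff_mul_le (by omega)]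
            have := Nat.mod_add_div j p
            rw [mul_comm] at this
            have := Nat.mod_add_div j p
            have h6 : j / p * p = p * (j / p) := mul_comm _ _
            omega
          omega
        · have := Nat.mod_add_div j p
          omega
      rw [key k hk, key l hl, h2]
      exact div_self (by positivity)
    rw [h1, mul_one]
    have := norm_sub_inv (p := p) (κ := 1) hk hl hkl (by simpa using hp2)
    simpa using this
  · rw [norm_sub_inv_eq hc, one_mul]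
    have := norm_cc_div (p := p) (κ := 1) hk hl (by simpa using hp2)
    simpa using this

end

end Pool.Agent.LP
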