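import Pool.Agent.H422R2.LP.Nodes

/-!
# The linear form `L(f) = ∑_k c_k (W f)(-k) (γ + s_k) + E[(W f) / P]`

`E[q] = -α Abel(q) + β Abel(q')`, `s_k = ∑_{1 ≤ s ≤ k} (-1)^s (α / s + β / s ^ 2)`.
-/

open Polynomial

namespace Pool.Agent.LP

noncomputable section

/-- `P = ∏_{k ≤ h} (X + k)` -/
def PP (h : ℕ) : ℚ[X] := nd (Finset.range (h + 1))

lemma nd_monic (s : Finset ℕ) : (nd s).Monic := monic_prod_of_monic _ _ fun _ _ => monic_X_add_C _

/-- division by `P` as a linear map -/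
def dvm (h : ℕ) : ℚ[X] →ₗ[ℚ] ℚ[X] where
  toFun f := f /ₘ PP h
  map_add' f g := by
    have hm := nd_monic (Finset.range (h + 1))
    refine (div_modByMonic_unique (f /ₘ PP h + g /ₘ PP h) (f %ₘ PP h + g %ₘ PP h) hm ⟨?_, ?_⟩).1
    · have h1 := modByMonic_add_div f (PP h)
      have h2 := modByMonic_add_div g (PP h)
      unfold PP at h1 h2 ⊢
      linear_combination h1 + h2
    · refine lt_of_le_of_lt (degree_add_le _ _) (max_lt ?_ ?_)
      · exact degree_modByMonic_lt _ hm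
      · exact degree_modByMonic_lt _ hm
  map_smul' c f := by
    have hm := nd_monic (Finset.range (h + 1))
    refine (div_modByMonic_unique (c • (f /ₘ PP h)) (c • (f %ₘ PP h)) hm ⟨?_, ?_⟩).1
    · have h1 := modByMonic_add_div f (PP h)
      unfold PP at h1 ⊢
      simp only [smul_eq_C_mul]
      linear_combination (C c) * h1
    · exact lt_of_le_of_lt (degree_smul_le _ _) (degree_modByMonic_lt _ hm)

lemma dvm_apply (h : ℕ) (f : ℚ[X]) : dvm h f = f /ₘ PP h := rfl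

/-- `s_k = ∑_{1 ≤ s ≤ k} (-1)^s (α / s + β / s ^ 2)` -/
def sS (α β : ℚ) (k : ℕ) : ℚ :=
  ∑ i ∈ Finset.range k, (-1 : ℚ) ^ (i + 1) * (α / ((i : ℚ) + 1) + β / ((i : ℚ) + 1) ^ 2)

/-- `E[q] = -α Abel(q) + β Abel(q')` -/
def EE (α β : ℚ) : ℚ[X] →ₗ[ℚ] ℚ := -(α • AB) + β • (AB ∘ₗ derivative)

lemma EE_apply (α β : ℚ) (q : ℚ[X]) : EE α β q = -(α * AB q) + β * AB (derivative q) := by
  simp [EE]

/-- the linear form -/
def LL (h : ℕ) (W : ℚ[X]) (α β γ : ℚ) : ℚ[X] →ₗ[ℚ] ℚ :=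
  (∑ k ∈ Finset.range (h + 1), (cc h k * W.eval (-(k : ℚ)) * (γ + sS α β k)) • leval (-(k : ℚ))) +
    EE α β ∘ₗ dvm h ∘ₗ LinearMap.mulLeft ℚ W

lemma LL_apply (h : ℕ) (W : ℚ[X]) (α β γ : ℚ) (f : ℚ[X]) :
    LL h W α β γ f = ∑ k ∈ Finset.range (h + 1), cc h k * (W * f).eval (-(k : ℚ)) * (γ + sS α β k) +
      (-(α * AB ((W * f) /ₘ PP h)) + β * AB (derivative ((W * f) /ₘ PP h))) := by
  unfold LL
  rw [LinearMap.add_apply, LinearMap.comp_apply, LinearMap.comp_apply, EE_apply, dvm_apply]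
  congr 1
  rw [LinearMap.sum_apply]
  refine Finset.sum_congr rfl fun k _ => ?_
  rw [LinearMap.smul_apply, leval_apply, smul_eq_mul, eval_mul]
  ring

lemma mul_n1 {h l : ℕ} (hl : l ≤ h) : (X + C (l : ℚ)) * n1 h l = PP h := by
  unfold n1 PP nd
  exact Finset.mul_prod_erase (Finset.range (h + 1)) (fun j : ℕ => (X + C (j : ℚ) : ℚ[X]))
    (Finset.mem_range.2 (by omega))

lemma mul_n2 {h k l : ℕ} (hl : l ≤ h) (hkl : k ≠ l) : (X + C (l : ℚ)) * n2 h k l = n1 h k := by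
  unfold n1 n2 nd
  exact Finset.mul_prod_erase ((Finset.range (h + 1)).erase k) (fun j : ℕ => (X + C (j : ℚ) : ℚ[X]))
    (Finset.mem_erase.2 ⟨hkl.symm, Finset.mem_range.2 (by omega)⟩)

lemma n1_mul_n1 {h k l : ℕ} (hl : l ≤ h) (hkl : k ≠ l) : n1 h k * n1 h l = PP h * n2 h k l := by
  rw [← mul_n1 hl, ← mul_n2 hl hkl]
  ring

lemma PP_eval {h k : ℕ} (hk : k ≤ h) : (PP h).eval (-(k : ℚ)) = 0 := by
  rw [← mul_n1 hk]
  simp

lemma LL_PP (h : ℕ) (W : ℚ[X]) (α β γ : ℚ) (f : ℚ[X]) :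
    LL h W α β γ (PP h * f) = -(α * AB (W * f)) + β * AB (derivative (W * f)) := by
  rw [LL_apply]
  have h1 : W * (PP h * f) = PP h * (W * f) := by ring
  have h2 : (PP h).Monic := nd_monic _
  rw [h1, mul_divByMonic_cancel_left _ h2, Finset.sum_eq_zero, zero_add]
  intro k hk
  rw [eval_mul, PP_eval (by rw [Finset.mem_range] at hk; omega)]
  ring

lemma n1_eval_sq {h l : ℕ} (hl : l ≤ h) :
    (n1 h l).eval (-(l : ℚ)) * (n1 h l).eval (-(l : ℚ)) * (cc h l * cc h l) = 1 := by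
  have h1 : (n1 h l).eval (-(l : ℚ)) = (-1) ^ l * ((l.factorial : ℚ) * ((h - l).factorial : ℚ)) := by
    unfold n1
    rw [nd_eval]
    have h2 : (Finset.range (h + 1)).erase l = Finset.range l ∪ (Finset.Ico (l + 1) (h + 1)) := by
      ext j
      simp only [Finset.mem_erase, Finset.mem_range, Finset.mem_union, Finset.mem_Ico]
      omega
    have h3 : Disjoint (Finset.range l) (Finset.Ico (l + 1) (h + 1)) := by
      rw [Finset.disjoint_left]
      intro j hj hj'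
      rw [Finset.mem_range] at hj
      rw [Finset.mem_Ico] at hj'
      omega
    rw [h2, Finset.prod_union h3, Finset.prod_Ico_eq_prod_range]
    have h4 : ∀ l : ℕ, ∏ j ∈ Finset.range l, (-(l : ℚ) + (j : ℚ)) = (-1) ^ l * (l.factorial : ℚ) := by
      intro l
      rw [← Finset.prod_range_reflect, ← Finset.prod_range_add_one_eq_factorial]
      push_cast
      rw [← Finset.card_range l, ← Finset.prod_const, Finset.card_range, ← Finset.prod_mul_distrib]
      refine Finset.prod_congr rfl fun j hj => ?_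
      rw [Finset.mem_range] at hj
      rw [Nat.sub_sub, Nat.cast_sub (by omega)]
      push_cast
      ring
    have h5 : ∏ j ∈ Finset.range (h + 1 - (l + 1)), (-(l : ℚ) + ((l + 1 + j : ℕ) : ℚ)) = ((h - l).factorial : ℚ) := by
      have h6 : h + 1 - (l + 1) = h - l := by omega
      rw [h6, ← Finset.prod_range_add_one_eq_factorial]
      push_cast
      refine Finset.prod_congr rfl fun j _ => ?_
      ring
    rw [h4, h5]
    ring
  rw [h1]
  unfold cc
  have h5 : ((l.factorial : ℕ) : ℚ) ≠ 0 := by exact_mod_cast Nat.factorial_ne_zero l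
  have h6 : (((h - l).factorial : ℕ) : ℚ) ≠ 0 := by exact_mod_cast Nat.factorial_ne_zero (h - l)
  have h7 : ((-1 : ℚ) ^ l) * (-1) ^ l = 1 := by rw [← mul_pow]; norm_num
  field_simp
  linear_combination h7

/-- off-diagonal entries -/
lemma LL_off {h k l : ℕ} (W : ℚ[X]) (α β γ : ℚ) (hl : l ≤ h) (hkl : k ≠ l) :
    LL h W α β γ (n1 h k * n1 h l) = -(α * AB (W * n2 h k l)) + β * AB (derivative (W * n2 h k l)) := by
  rw [n1_mul_n1 hl hkl, LL_PP]

/-- diagonal entries -/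
lemma LL_diag {h l : ℕ} (W : ℚ[X]) (α β γ : ℚ) (hl : l ≤ h) :
    LL h W α β γ (n1 h l * n1 h l) = W.eval (-(l : ℚ)) * (γ + sS α β l) / cc h l +
      (-(α * AB ((W * n1 h l) /ₘ (X - C (((-l : ℤ) : ℚ))))) +
        β * AB (derivative ((W * n1 h l) /ₘ (X - C (((-l : ℤ) : ℚ)))))) := by
  rw [LL_apply]
  have h2 : (PP h).Monic := nd_monic _
  have h0 : (X - C (((-l : ℤ) : ℚ))) = (X + C (l : ℚ)) := by
    push_cast
    rw [C_neg]
    ring
  have h1 : (W * (n1 h l * n1 h l)) /ₘ PP h = (W * n1 h l) /ₘ (X - C (((-l : ℤ) : ℚ))) := by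
    rw [h0]
    have h3 := modByMonic_add_div (W * n1 h l) (X + C (l : ℚ))
    have h4 : (X + C (l : ℚ)).Monic := monic_X_add_C _
    refine (div_modByMonic_unique _ (((W * n1 h l) %ₘ (X + C (l : ℚ))) * n1 h l) h2 ⟨?_, ?_⟩).1
    · rw [← mul_n1 hl]
      linear_combination (n1 h l) * h3
    · rw [← mul_n1 hl, degree_mul, degree_mul]
      have h5 : (n1 h l) ≠ 0 := (nd_monic _).ne_zero
      have h6 : degree (n1 h l) ≠ ⊥ := degree_ne_bot.2 h5
      exact WithBot.add_lt_add_right h6 (degree_modByMonic_lt _ h4)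
  rw [h1]
  congr 1
  rw [Finset.sum_eq_single l]
  · rw [eval_mul, eval_mul]
    have h3 := n1_eval_sq hl
    have h4 : cc h l ≠ 0 := (cc_pos h l).ne'
    rw [eq_div_iff h4]
    linear_combination (eval (-(l : ℚ)) W * (γ + sS α β l)) * h3
  · intro j hj hjl
    rw [Finset.mem_range] at hj
    have h3 : (n1 h l).eval (-(j : ℚ)) = 0 := by
      unfold n1
      rw [nd_eval]
      refine Finset.prod_eq_zero (Finset.mem_erase.2 ⟨hjl, Finset.mem_range.2 hj⟩) ?_
      ring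
    rw [eval_mul, eval_mul, h3]
    ring
  · intro hj
    exact absurd (Finset.mem_range.2 (by omega)) hj

end

end Pool.Agent.LP
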