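import Pool.Agent.H422R2.LP.Integral

/-!
# Hankel determinants in a Lagrange basis
-/

open Polynomial

namespace Pool.Agent.LP

noncomputable section

/-- Hankel matrix of a linear form -/
def HkQ (L : ℚ[X] →ₗ[ℚ] ℚ) (m : ℕ) : Matrix (Fin m) (Fin m) ℚ :=
  Matrix.of fun i j => L (X ^ ((i : ℕ) + (j : ℕ)))

/-- coefficient matrix -/
def cM {m : ℕ} (a : Fin m → ℚ[X]) : Matrix (Fin m) (Fin m) ℚ := Matrix.of fun i j => (a i).coeff j

lemma gram_eq (L : ℚ[X] →ₗ[ℚ] ℚ) {m : ℕ} (a b : Fin m → ℚ[X]) (ha : ∀ i, (a i).natDegree < m)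
    (hb : ∀ i, (b i).natDegree < m) :
    (Matrix.of fun i j => L (a i * b j)) = cM a * HkQ L m * (cM b).transpose := by
  ext i j
  rw [Matrix.mul_apply]
  simp only [Matrix.of_apply, Matrix.mul_apply, Matrix.transpose_apply, cM, HkQ]
  have h1 : a i * b j = ∑ y : Fin m, ∑ x : Fin m, ((a i).coeff x * (b j).coeff y) • (X : ℚ[X]) ^ ((x : ℕ) + (y : ℕ)) := by
    conv_lhs => rw [as_sum_range' (a i) m (ha i), as_sum_range' (b j) m (hb j)]
    rw [← Fin.sum_univ_eq_sum_range (fun k => monomial k ((a i).coeff k)),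
      ← Fin.sum_univ_eq_sum_range (fun k => monomial k ((b j).coeff k)), Finset.sum_mul_sum,
      Finset.sum_comm]
    refine Finset.sum_congr rfl fun y _ => Finset.sum_congr rfl fun x _ => ?_
    rw [monomial_mul_monomial, smul_eq_C_mul, C_mul_X_pow_eq_monomial]
  rw [h1, map_sum]
  refine Finset.sum_congr rfl fun y _ => ?_
  rw [map_sum, Finset.sum_mul]
  refine Finset.sum_congr rfl fun x _ => ?_
  rw [map_smul, smul_eq_mul]
  ring

/-- `∏_{j ≠ i} (X - x_j)` -/
def lag {m : ℕ} (x : Fin m → ℚ) (i : Fin m) : ℚ[X] := ∏ j ∈ Finset.univ.erase i, (X - C (x j))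

lemma lag_natDegree {m : ℕ} (x : Fin m → ℚ) (i : Fin m) : (lag x i).natDegree < m := by
  unfold lag
  rw [natDegree_prod_of_monic _ _ fun j _ => monic_X_sub_C _]
  simp only [natDegree_X_sub_C, Finset.sum_const, smul_eq_mul, mul_one]
  rw [Finset.card_erase_of_mem (Finset.mem_univ _), Finset.card_univ, Fintype.card_fin]
  have := i.2
  omega

lemma cM_mul_vandermonde {m : ℕ} (a : Fin m → ℚ[X]) (ha : ∀ i, (a i).natDegree < m) (x : Fin m → ℚ) :
    cM a * (Matrix.vandermonde x).transpose = Matrix.of fun i j => (a i).eval (x j) := by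
  ext i j
  rw [Matrix.mul_apply]
  simp only [cM, Matrix.of_apply, Matrix.transpose_apply, Matrix.vandermonde_apply]
  rw [eval_eq_sum_range' (ha i), ← Fin.sum_univ_eq_sum_range (fun k => (a i).coeff k * (x j) ^ k)]

lemma norm_vandermonde_sq {p : ℕ} [Fact p.Prime] {m : ℕ} (x : Fin m → ℚ) :
    padicNorm p (Matrix.vandermonde x).det * padicNorm p (Matrix.vandermonde x).det =
      padicNorm p (∏ i, (lag x i).eval (x i)) := by
  rw [Matrix.det_vandermonde]
  have h1 : padicNorm p (∏ i : Fin m, ∏ j ∈ Finset.Ioi i, (x j - x i)) =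
      ∏ i : Fin m, ∏ j ∈ Finset.Ioi i, padicNorm p (x j - x i) := by
    rw [norm_prod]
    exact Finset.prod_congr rfl fun i _ => norm_prod _ _
  have h2 : ∏ i : Fin m, ∏ j ∈ Finset.Ioi i, padicNorm p (x j - x i) =
      ∏ i : Fin m, ∏ j ∈ Finset.Iio i, padicNorm p (x i - x j) := by
    rw [Finset.prod_comm' (t' := Finset.univ) (s' := fun j => Finset.Iio j)]
    intro i j
    simp
  have h3 : padicNorm p (∏ i, (lag x i).eval (x i)) =
      ∏ i : Fin m, ((∏ j ∈ Finset.Iio i, padicNorm p (x i - x j)) *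
        ∏ j ∈ Finset.Ioi i, padicNorm p (x j - x i)) := by
    rw [norm_prod]
    refine Finset.prod_congr rfl fun i _ => ?_
    unfold lag
    rw [eval_prod, norm_prod]
    have h4 : Finset.univ.erase i = Finset.Iio i ∪ Finset.Ioi i := by
      ext j
      simp only [Finset.mem_erase, Finset.mem_univ, and_true, Finset.mem_union, Finset.mem_Iio, Finset.mem_Ioi]
      exact ne_iff_lt_or_gt
    have h5 : Disjoint (Finset.Iio i) (Finset.Ioi i) := by
      rw [Finset.disjoint_left]
      intro j hj hj'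
      rw [Finset.mem_Iio] at hj
      rw [Finset.mem_Ioi] at hj'
      exact lt_asymm hj hj'
    rw [h4, Finset.prod_union h5]
    congr 1
    · refine Finset.prod_congr rfl fun j _ => ?_
      simp
    · refine Finset.prod_congr rfl fun j _ => ?_
      rw [eval_sub, eval_X, eval_C, ← neg_sub, padicNorm.neg]
  rw [h1, h3, Finset.prod_mul_distrib, ← h2]

/-- the Hankel determinant in the scaled Lagrange basis -/
theorem norm_hankel_lag {p : ℕ} [Fact p.Prime] (L : ℚ[X] →ₗ[ℚ] ℚ) {m : ℕ} (x : Fin m → ℚ)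
    (hx : Function.Injective x) :
    padicNorm p (Matrix.of fun i j : Fin m => L (lag x i * lag x j)).det =
      padicNorm p (∏ i, (lag x i).eval (x i)) * padicNorm p (HkQ L m).det := by
  have hV : (Matrix.vandermonde x).det ≠ 0 := Matrix.det_vandermonde_ne_zero_iff.2 hx
  have hV' : padicNorm p (Matrix.vandermonde x).det ≠ 0 := by
    intro h
    exact hV (padicNorm.zero_of_padicNorm_eq_zero h)
  have h1 := cM_mul_vandermonde (lag x) (lag_natDegree x) x
  have h2 : (Matrix.of fun i j => (lag x i).eval (x j)) = Matrix.diagonal fun i => (lag x i).eval (x i) := by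
    ext i j
    rw [Matrix.of_apply, Matrix.diagonal_apply]
    split_ifs with h
    · rw [h]
    · unfold lag
      rw [eval_prod]
      refine Finset.prod_eq_zero (Finset.mem_erase.2 ⟨fun h' => h h'.symm, Finset.mem_univ j⟩) ?_
      simp
  have h3 := congrArg Matrix.det (h1.trans h2)
  rw [Matrix.det_mul, Matrix.det_transpose, Matrix.det_diagonal] at h3
  have h4 := congrArg (padicNorm p) h3
  rw [padicNorm.mul] at h4
  have h5 := norm_vandermonde_sq (p := p) x
  rw [gram_eq L _ _ (lag_natDegree x) (lag_natDegree x), Matrix.det_mul, Matrix.det_mul, Matrix.det_transpose,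
    padicNorm.mul, padicNorm.mul]
  have h6 : padicNorm p (cM (lag x)).det * padicNorm p (cM (lag x)).det =
      padicNorm p (∏ i, (lag x i).eval (x i)) := by
    rw [← h5] at h4 ⊢
    have h7 : padicNorm p (cM (lag x)).det = padicNorm p (Matrix.vandermonde x).det :=
      mul_right_cancel₀ hV' h4
    rw [h7]
  rw [← h6]
  ring

end

end Pool.Agent.LP
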