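import Pool.Agent.H422R2.LP.Entry

/-!
# Entries with integral coefficients
-/

open Polynomial

namespace Pool.Agent.LP

noncomputable section

/-- all coefficients are `p`-integral -/
def IC (p : ℕ) (q : ℚ[X]) : Prop := ∀ i, padicNorm p (q.coeff i) ≤ 1

lemma IC.mul {p : ℕ} [Fact p.Prime] {q r : ℚ[X]} (hq : IC p q) (hr : IC p r) : IC p (q * r) := by
  intro i
  rw [coeff_mul]
  refine padicNorm.sum_le' (fun x _ => ?_) zero_le_one
  simpa using norm_mul_le (hq x.1) (hr x.2)

lemma IC.one {p : ℕ} [Fact p.Prime] : IC p (1 : ℚ[X]) := by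
  intro i
  rw [coeff_one]
  split_ifs <;> simp

lemma IC_X_add {p : ℕ} [Fact p.Prime] (j : ℕ) : IC p (X + C (j : ℚ)) := by
  intro i
  rw [coeff_add, coeff_X, coeff_C]
  have h1 : padicNorm p (j : ℚ) ≤ 1 := padicNorm.of_nat _
  refine norm_add_le ?_ ?_
  · split_ifs <;> simp
  · split_ifs
    · exact h1
    · simp

lemma IC_nd {p : ℕ} [Fact p.Prime] (s : Finset ℕ) : IC p (nd s) := by
  unfold nd
  induction s using Finset.induction_on with
  | empty => simpa using IC.one
  | insert a s ha ih =>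
    rw [Finset.prod_insert ha]
    exact (IC_X_add a).mul ih

lemma IC.derivative {p : ℕ} [Fact p.Prime] {q : ℚ[X]} (hq : IC p q) : IC p (derivative q) := by
  intro i
  rw [coeff_derivative]
  have h1 : padicNorm p (((i + 1 : ℕ) : ℚ)) ≤ 1 := padicNorm.of_nat _
  push_cast at h1
  simpa using norm_mul_le (hq (i + 1)) h1

lemma IC.eval {p : ℕ} [Fact p.Prime] {q : ℚ[X]} (hq : IC p q) (n : ℤ) :
    padicNorm p (q.eval (n : ℚ)) ≤ 1 := by
  rw [eval_eq_sum_range]
  refine padicNorm.sum_le' (fun i _ => ?_) zero_le_one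
  have h1 : padicNorm p ((n : ℚ) ^ i) ≤ 1 := by
    rw [norm_pow]
    exact pow_le_one₀ (padicNorm.nonneg _) (padicNorm.of_int n)
  simpa using norm_mul_le (hq i) h1

lemma IC.div {p : ℕ} [Fact p.Prime] {q : ℚ[X]} (hq : IC p q) (a : ℤ) : IC p (q /ₘ (X - C (a : ℚ))) := by
  have key : ∀ d i : ℕ, (q /ₘ (X - C (a : ℚ))).natDegree < i + d →
      padicNorm p ((q /ₘ (X - C (a : ℚ))).coeff i) ≤ 1 := by
    intro d
    induction d with
    | zero =>
      intro i hi
      rw [coeff_eq_zero_of_natDegree_lt (by simpa using hi)]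
      simp
    | succ d ih =>
      intro i hi
      rw [coeff_divByMonic_X_sub_C_rec]
      have h1 := ih (i + 1) (by omega)
      have h2 : padicNorm p (a : ℚ) ≤ 1 := padicNorm.of_int a
      refine norm_add_le (hq _) ?_
      simpa using norm_mul_le h2 h1
  intro i
  exact key ((q /ₘ (X - C (a : ℚ))).natDegree + 1) i (by omega)

lemma norm_EE_IC {p : ℕ} [Fact p.Prime] (hp : p ≠ 2) {α β : ℚ} (hα : padicNorm p α ≤ 1)
    (hβ : padicNorm p β ≤ 1) {q : ℚ[X]} (hq : IC p q) :
    padicNorm p (-(α * AB q) + β * AB (derivative q)) ≤ 1 := by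
  refine norm_add_le ?_ ?_
  · rw [padicNorm.neg]
    simpa using norm_mul_le hα (norm_AB hp zero_le_one fun n => hq.eval n)
  · simpa using norm_mul_le hβ (norm_AB hp zero_le_one fun n => hq.derivative.eval n)

lemma norm_inv_cc {p : ℕ} [Fact p.Prime] (h l : ℕ) : padicNorm p ((cc h l)⁻¹) ≤ 1 := by
  have h1 : (cc h l)⁻¹ = ((l.factorial * (h - l).factorial : ℕ) : ℚ) := by
    unfold cc
    push_cast
    rw [one_div, inv_inv]
  rw [h1]
  exact padicNorm.of_nat _

/-- columns `l < p` are integral before scaling -/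
theorem norm_entry_IC {p : ℕ} [Fact p.Prime] (hp : p ≠ 2) {h : ℕ} {W : ℚ[X]} {α β γ : ℚ}
    (hα : padicNorm p α ≤ 1) (hβ : padicNorm p β ≤ 1) (hγ : padicNorm p γ ≤ 1)
    (hW : IC p W) {k l : ℕ} (hl : l ≤ h) (hlp : l < p) :
    padicNorm p (LL h W α β γ (n1 h k * n1 h l)) ≤ 1 := by
  by_cases hkl : k = l
  · subst hkl
    rw [LL_diag W α β γ hl]
    refine norm_add_le ?_ ?_
    · have h1 : padicNorm p (γ + sS α β k) ≤ 1 :=
        norm_add_le hγ (by simpa using norm_sS (κ := 0) hα hβ (by simpa using hlp))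
      have h2 := hW.eval (-k)
      push_cast at h2
      rw [div_eq_mul_inv]
      simpa using norm_mul_le (norm_mul_le h2 h1) (norm_inv_cc h k)
    · exact norm_EE_IC hp hα hβ ((hW.mul (IC_nd _)).div _)
  · rw [LL_off W α β γ hl hkl]
    exact norm_EE_IC hp hα hβ (hW.mul (IC_nd _))

/-! ### determinants -/

lemma norm_prod {p : ℕ} [Fact p.Prime] {ι : Type*} (s : Finset ι) (f : ι → ℚ) :
    padicNorm p (∏ i ∈ s, f i) = ∏ i ∈ s, padicNorm p (f i) := by
  classical
  induction s using Finset.induction_on with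
  | empty => simp
  | insert a s ha ih => rw [Finset.prod_insert ha, Finset.prod_insert ha, padicNorm.mul, ih]

theorem norm_det {p : ℕ} [Fact p.Prime] {m : ℕ} (M : Matrix (Fin m) (Fin m) ℚ) (B : Fin m → ℚ)
    (hM : ∀ i j, padicNorm p (M i j) ≤ B j) : padicNorm p M.det ≤ ∏ j, B j := by
  have hB : ∀ j : Fin m, 0 ≤ B j := fun j => (padicNorm.nonneg _).trans (hM j j)
  rw [Matrix.det_apply]
  refine padicNorm.sum_le' (fun σ _ => ?_) (Finset.prod_nonneg fun j _ => hB j)
  have h1 : padicNorm p (Equiv.Perm.sign σ • ∏ i, M (σ i) i) = padicNorm p (∏ i, M (σ i) i) := by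
    rcases Int.units_eq_one_or (Equiv.Perm.sign σ) with h | h <;> rw [h] <;> simp
  rw [h1, norm_prod]
  exact Finset.prod_le_prod (fun i _ => padicNorm.nonneg _) fun i _ => hM _ _

end

end Pool.Agent.LP
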