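import Pool.Agent.H422R2.LP.Abel

/-!
# Node polynomials of `0, -1, …, -h` and their values at integers
-/

open Polynomial

namespace Pool.Agent.LP

noncomputable section

/-- `1 / (l! (h-l)!)` -/
def cc (h l : ℕ) : ℚ := 1 / ((l.factorial : ℚ) * ((h - l).factorial : ℚ))

/-- `∏_{j ∈ s} (X + j)` -/
def nd (s : Finset ℕ) : ℚ[X] := ∏ j ∈ s, (X + C (j : ℚ))

/-- `∏_{j ≠ l} (X + j)`, `j ≤ h` -/
def n1 (h l : ℕ) : ℚ[X] := nd ((Finset.range (h + 1)).erase l)

/-- `∏_{j ≠ k, l} (X + j)`, `j ≤ h` -/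
def n2 (h k l : ℕ) : ℚ[X] := nd (((Finset.range (h + 1)).erase k).erase l)

lemma nd_eval (s : Finset ℕ) (x : ℚ) : (nd s).eval x = ∏ j ∈ s, (x + j) := by
  unfold nd
  rw [eval_prod]
  simp

lemma nd_natDegree (s : Finset ℕ) : (nd s).natDegree = s.card := by
  unfold nd
  rw [natDegree_prod_of_monic _ _ fun j _ => monic_X_add_C _]
  simp only [natDegree_X_add_C, Finset.sum_const, smul_eq_mul, mul_one]

lemma n1_natDegree {h l : ℕ} (hl : l ≤ h) : (n1 h l).natDegree = h := by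
  unfold n1
  rw [nd_natDegree, Finset.card_erase_of_mem (Finset.mem_range.2 (by omega)), Finset.card_range]
  omega

lemma n2_natDegree {h k l : ℕ} (hk : k ≤ h) (hl : l ≤ h) (hkl : k ≠ l) : (n2 h k l).natDegree = h - 1 := by
  unfold n2
  rw [nd_natDegree, Finset.card_erase_of_mem, Finset.card_erase_of_mem (Finset.mem_range.2 (by omega)),
    Finset.card_range]
  · omega
  · rw [Finset.mem_erase, Finset.mem_range]
    exact ⟨fun h => hkl h.symm, by omega⟩

lemma cc_pos (h l : ℕ) : 0 < cc h l := by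
  unfold cc
  positivity

lemma nd_eval_int (s : Finset ℕ) (n : ℤ) : ∃ z : ℤ, (nd s).eval (n : ℚ) = z := by
  refine ⟨∏ j ∈ s, (n + j), ?_⟩
  rw [nd_eval]
  push_cast
  rfl

lemma norm_int_le {p : ℕ} [Fact p.Prime] {x : ℚ} (h : ∃ z : ℤ, x = z) : padicNorm p x ≤ 1 := by
  obtain ⟨z, rfl⟩ := h
  exact padicNorm.of_int z

/-- the Lagrange polynomials are integer-valued -/
theorem norm_n1 {p : ℕ} [Fact p.Prime] {h l : ℕ} (hl : l ≤ h) (n : ℤ) :
    padicNorm p ((C (cc h l) * n1 h l).eval (n : ℚ)) ≤ 1 := by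
  refine int_ball (a := 0) zero_le_one (fun n hn => ?_) n
  obtain ⟨m, rfl⟩ := Int.eq_ofNat_of_zero_le hn
  apply norm_int_le
  rw [eval_mul, eval_C]
  unfold n1
  rw [nd_eval]
  have h1 : ∏ j ∈ (Finset.range (h + 1)).erase l, (((m : ℤ) : ℚ) + j) =
      ((m.ascFactorial l : ℕ) : ℚ) * (((m + l + 1).ascFactorial (h - l) : ℕ) : ℚ) := by
    have h2 : (Finset.range (h + 1)).erase l = Finset.range l ∪ (Finset.Ico (l + 1) (h + 1)) := by
      ext j
      simp only [Finset.mem_erase, Finset.mem_range, Finset.mem_union, Finset.mem_Ico]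
      omega
    have h3 : Disjoint (Finset.range l) (Finset.Ico (l + 1) (h + 1)) := by
      rw [Finset.disjoint_left]
      intro j hj hj'
      rw [Finset.mem_range] at hj
      rw [Finset.mem_Ico] at hj'
      omega
    rw [h2, Finset.prod_union h3, Nat.ascFactorial_eq_prod_range, Nat.ascFactorial_eq_prod_range,
      Finset.prod_Ico_eq_prod_range]
    push_cast
    congr 1
    refine Finset.prod_congr rfl fun j _ => ?_
    ring
  rw [h1]
  obtain ⟨a, ha⟩ := Nat.factorial_dvd_ascFactorial m l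
  obtain ⟨b, hb⟩ := Nat.factorial_dvd_ascFactorial (m + l + 1) (h - l)
  rw [ha, hb]
  refine ⟨(a : ℤ) * b, ?_⟩
  unfold cc
  have h5 : ((l.factorial : ℕ) : ℚ) ≠ 0 := by exact_mod_cast Nat.factorial_ne_zero l
  have h6 : (((h - l).factorial : ℕ) : ℚ) ≠ 0 := by exact_mod_cast Nat.factorial_ne_zero (h - l)
  push_cast
  field_simp

lemma n2_identity {h k l : ℕ} (hk : k ≤ h) (hl : l ≤ h) (hkl : k ≠ l) :
    C ((l : ℚ) - k) * n2 h k l = n1 h k - n1 h l := by
  unfold n2 n1 nd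
  have h1 : l ∈ (Finset.range (h + 1)).erase k := by
    rw [Finset.mem_erase, Finset.mem_range]
    exact ⟨fun h => hkl h.symm, by omega⟩
  have h2 : k ∈ (Finset.range (h + 1)).erase l := by
    rw [Finset.mem_erase, Finset.mem_range]
    exact ⟨hkl, by omega⟩
  rw [← Finset.mul_prod_erase _ _ h1, ← Finset.mul_prod_erase _ _ h2, Finset.erase_right_comm (a := l), C_sub]
  ring

/-- bound for the second type of node polynomials -/
theorem norm_n2 {p : ℕ} [Fact p.Prime] {h k l : ℕ} (hk : k ≤ h) (hl : l ≤ h) (hkl : k ≠ l) {R : ℚ}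
    (hR1 : padicNorm p (((l : ℚ) - k)⁻¹) ≤ R)
    (hR2 : padicNorm p (((l : ℚ) - k)⁻¹) * padicNorm p (cc h l / cc h k) ≤ R) (n : ℤ) :
    padicNorm p ((C (cc h l) * n2 h k l).eval (n : ℚ)) ≤ R := by
  have hne : ((l : ℚ) - k) ≠ 0 := by
    rw [sub_ne_zero]
    exact_mod_cast hkl.symm
  have hck : cc h k ≠ 0 := (cc_pos h k).ne'
  have h0 : (0 : ℚ) ≤ R := (padicNorm.nonneg _).trans hR1
  have h1 : (C (cc h l) * n2 h k l).eval (n : ℚ) =
      ((l : ℚ) - k)⁻¹ * (cc h l / cc h k) * (C (cc h k) * n1 h k).eval (n : ℚ) -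
        ((l : ℚ) - k)⁻¹ * (C (cc h l) * n1 h l).eval (n : ℚ) := by
    have h2 := congrArg (eval (n : ℚ)) (n2_identity hk hl hkl)
    simp only [eval_mul, eval_C, eval_sub] at h2 ⊢
    have h3 : (n2 h k l).eval (n : ℚ) = ((l : ℚ) - k)⁻¹ * ((n1 h k).eval (n : ℚ) - (n1 h l).eval (n : ℚ)) := by
      rw [← h2, ← mul_assoc, inv_mul_cancel₀ hne, one_mul]
    rw [h3]
    field_simp
  rw [h1]
  refine (padicNorm.sub).trans (max_le ?_ ?_)
  · rw [padicNorm.mul, padicNorm.mul]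
    calc _ ≤ R * 1 := mul_le_mul hR2 (norm_n1 hk n) (padicNorm.nonneg _) h0
      _ = R := mul_one R
  · rw [padicNorm.mul]
    calc _ ≤ R * 1 := mul_le_mul hR1 (norm_n1 hl n) (padicNorm.nonneg _) h0
      _ = R := mul_one R

lemma norm_sub_inv {p : ℕ} [Fact p.Prime] {h k l κ : ℕ} (hk : k ≤ h) (hl : l ≤ h) (hkl : k ≠ l)
    (hκ : h < p ^ (κ + 1)) : padicNorm p (((l : ℚ) - k)⁻¹) ≤ p ^ κ := by
  rcases lt_or_gt_of_ne hkl with hc | hc
  · have h1 : ((l : ℚ) - k)⁻¹ = (((l - k : ℕ) : ℚ))⁻¹ := by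
      rw [Nat.cast_sub hc.le]
    rw [h1]
    exact norm_inv_nat (by omega) (by omega)
  · have h1 : ((l : ℚ) - k)⁻¹ = -(((k - l : ℕ) : ℚ))⁻¹ := by
      rw [Nat.cast_sub hc.le, ← neg_sub (k : ℚ) l, inv_neg]
    rw [h1, padicNorm.neg]
    exact norm_inv_nat (by omega) (by omega)

lemma norm_sub_inv_eq {p : ℕ} [Fact p.Prime] {k l : ℕ} (hkl : ¬ (p : ℤ) ∣ (l : ℤ) - k) :
    padicNorm p (((l : ℚ) - k)⁻¹) = 1 := by
  have h1 : padicNorm p ((l : ℚ) - k) = 1 := by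
    have := (padicNorm.int_eq_one_iff (p := p) ((l : ℤ) - k)).2 hkl
    push_cast at this
    exact this
  have h2 : ((l : ℚ) - k)⁻¹ = 1 / ((l : ℚ) - k) := by rw [one_div]
  rw [h2, padicNorm.div, h1, padicNorm.one, div_one]

end

end Pool.Agent.LP
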