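import Pool.Agent.H422R2.LP.PMainA

/-! `P_main` from the bounds at the single primes. -/

open Filter Topology Finset

namespace Pool.Agent.LP.PM

noncomputable section

lemma log_eq_sum_val {N S : ℕ} (hN : N ≠ 0) (hS : ∀ p : ℕ, p.Prime → p ∣ N → p ≤ S) :
    Real.log (N : ℝ) = ∑ p ∈ (range (S + 1)).filter Nat.Prime, (padicValNat p N : ℝ) * Real.log p := by
  rw [Real.log_nat_eq_sum_factorization]
  have h1 : N.factorization.support ⊆ (range (S + 1)).filter Nat.Prime := by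
    intro p hp
    rw [Nat.support_factorization, Nat.mem_primeFactors] at hp
    rw [mem_filter, mem_range]
    exact ⟨Nat.lt_succ_of_le (hS p hp.1 hp.2.1), hp.1⟩
  rw [Finsupp.sum_of_support_subset _ h1 _ (fun p _ => by simp)]
  refine sum_congr rfl fun p hp => ?_
  rw [mem_filter] at hp
  rw [Nat.factorization_def _ hp.2]

lemma dB_ne_zero (n : ℕ) : dB n ≠ 0 := by
  unfold dB
  exact prod_ne_zero_iff.2 fun l _ => (Nat.ascFactorial_pos _ _).ne'

lemma dB_primes {n p : ℕ} (hp : p.Prime) (h : p ∣ dB n) : p ≤ 5 * n := by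
  unfold dB at h
  obtain ⟨l, hl, hd⟩ := (hp.prime.dvd_finset_prod_iff _).1 h
  rw [mem_range] at hl
  have h1 : p ∣ (l + n).factorial := by
    rw [← Nat.factorial_mul_ascFactorial]
    exact hd.mul_left _
  have := (hp.dvd_factorial).1 h1
  omega

lemma val_two_dB (n : ℕ) : padicValNat 2 (dB n) ≤ (4 * n + 1) * (n + Nat.log 2 (5 * n)) := by
  unfold dB
  rw [← Nat.factorization_def _ Nat.prime_two,
    Nat.factorization_prod (fun l _ => (Nat.ascFactorial_pos _ _).ne'), Finsupp.finset_sum_apply]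
  have h1 : ∀ l ∈ range (4 * n + 1), ((l + 1).ascFactorial n).factorization 2 ≤ n + Nat.log 2 (5 * n) := by
    intro l hl
    rw [mem_range] at hl
    rw [Nat.ascFactorial_eq_factorial_mul_choose, Nat.factorization_mul (Nat.factorial_ne_zero _)
      (Nat.choose_pos (by omega)).ne', Finsupp.add_apply]
    refine add_le_add ?_ ?_
    · have := sub_one_mul_padicValNat_factorial (p := 2) n
      rw [Nat.factorization_def _ Nat.prime_two]
      omega
    · exact (Nat.factorization_choose_le_log).trans (Nat.log_mono_right (by omega))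
  refine (sum_le_sum h1).trans ?_
  rw [sum_const, card_range, smul_eq_mul]

/-- single prime bound -/
def EEp (n C p : ℕ) : ℝ :=
  (if p = 2 then ((padicValNat 2 (dB n) : ℝ) + 9 * (n : ℝ) ^ 2 / 4 + C * n * Nat.log 2 n) * Real.log 2 else 0) +
    (if p ^ 2 ≤ 5 * n + 1 then 3 * (4 * (n : ℝ) + 1) * Real.log (5 * n + 1) else 0)

lemma log_zpow_bound {p : ℕ} (hp : p.Prime) {x : ℚ} (hx : x ≠ 0) {e : ℤ} (h : x ≤ (p : ℚ) ^ e) (hx0 : 0 ≤ x) :
    Real.log (x : ℝ) ≤ e * Real.log p := by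
  have hp0 : (0 : ℝ) < p := by exact_mod_cast hp.pos
  have h1 : (x : ℝ) ≤ (p : ℝ) ^ e := by
    have h0 : ((x : ℚ) : ℝ) ≤ (((p : ℚ) ^ e : ℚ) : ℝ) := Rat.cast_le.2 h
    rwa [Rat.cast_zpow, Rat.cast_natCast] at h0
  have h2 : (0 : ℝ) < x := by exact_mod_cast lt_of_le_of_ne hx0 hx.symm
  have h3 := Real.log_le_log h2 h1
  rwa [Real.log_zpow] at h3

theorem P_main_of
    (P_large : ∀ {n p m : ℕ} [Fact p.Prime], 1 ≤ n → p ≠ 2 → 5 * n + 1 < p ^ 2 →
      4 * n - 1 ≤ m → m ≤ 4 * n + 1 → ∀ α β γ : ℤ,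
      padicNorm p (DD n (5 * n) m α β γ) ≤
        (p : ℚ) ^ (((∑ l ∈ Finset.range (4 * n + 1), wl n p l : ℕ) : ℤ) + 4 * padicValNat p (5 * n).factorial -
          padicValNat p (dB n)))
    (P_small : ∀ {n p m : ℕ} [Fact p.Prime], 1 ≤ n → p ≠ 2 →
      4 * n - 1 ≤ m → m ≤ 4 * n + 1 → ∀ α β γ : ℤ,
      padicNorm p (DD n (5 * n) m α β γ) ≤
        (p : ℚ) ^ (((3 * Nat.log p (5 * n + 1) * (4 * n + 1) : ℕ) : ℤ) + 4 * padicValNat p (5 * n).factorial -
          padicValNat p (dB n)))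
    (P_two : ∃ C : ℕ, ∀ {n m : ℕ}, 2 ≤ n → m ≤ 4 * n + 1 → ∀ α β γ : ℤ,
      padicNorm 2 (DD n (5 * n) m α β γ) ≤ (2 : ℚ) ^ (9 * n ^ 2 / 4 + C * n * Nat.log 2 n)) :
    ∀ᶠ n : ℕ in atTop, ∀ m : ℕ, 4 * n - 1 ≤ m → m ≤ 4 * n + 1 → ∀ α β γ : ℤ,
      DD n (5 * n) m α β γ ≠ 0 →
      ∑ p ∈ (Finset.range (5 * n + 1)).filter Nat.Prime,
        Real.log ((padicNorm p (DD n (5 * n) m α β γ) : ℚ) : ℝ) ≤
      -(4 * (n : ℝ) ^ 2 * Real.log n) + 28.1 * (n : ℝ) ^ 2 := by
  obtain ⟨C, hC⟩ := P_two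
  obtain ⟨K, hK, hKs⟩ := sum_wl (1 / 1000) (by norm_num)
  -- the analytic remainder
  have hrem : ∀ᶠ n : ℕ in atTop,
      (1 + 1 / 1000) * (8 * (n : ℝ) + 1) + 2 * K * (4 * n + 1) + 20 * n * Real.log (5 * n + 1) +
        ((n : ℝ) * Real.log 2 + (4 * n + 1) * Real.log (5 * n + 1) + C * n * Real.log (5 * n + 1)) +
        (Real.sqrt (5 * n + 1) + 1) * (3 * (4 * (n : ℝ) + 1) * Real.log (5 * n + 1)) ≤ 0.18 * (n : ℝ) ^ 2 := by
    have hε : (0 : ℝ) < 1 / (10000 * (C + 26)) := by positivity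
    have h1 := (isLittleO_log_rpow_atTop (r := 1 / 2) (by norm_num)).def hε
    have h2 : Tendsto (fun n : ℕ => (5 * (n : ℝ) + 1)) atTop atTop :=
      tendsto_atTop_add_const_right _ _ ((tendsto_natCast_atTop_atTop).const_mul_atTop (by norm_num))
    have h3 := h2.eventually h1
    filter_upwards [h3, eventually_ge_atTop 1, eventually_ge_atTop (⌈2000 * (K + 1)⌉₊)] with n hn hn1 hnK
    have hn1' : (1 : ℝ) ≤ n := by exact_mod_cast hn1
    have hnK' : 2000 * (K + 1) ≤ (n : ℝ) := (Nat.le_ceil _).trans (by exact_mod_cast hnK)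
    rw [← Real.sqrt_eq_rpow] at hn
    set L := Real.log (5 * (n : ℝ) + 1) with hL
    have hL0 : 0 ≤ L := Real.log_nonneg (by linarith)
    have hs0 : 0 ≤ Real.sqrt (5 * (n : ℝ) + 1) := Real.sqrt_nonneg _
    rw [Real.norm_of_nonneg hL0, Real.norm_of_nonneg hs0] at hn
    set r := Real.sqrt (n : ℝ) with hr
    have hr2 : r ^ 2 = n := Real.sq_sqrt (by linarith)
    have hr0 : 0 ≤ r := Real.sqrt_nonneg _
    have hr1 : 1 ≤ r := by
      rw [hr]
      exact Real.one_le_sqrt.2 hn1'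
    have hsr : Real.sqrt (5 * (n : ℝ) + 1) ≤ 3 * r := by
      rw [show 3 * r = Real.sqrt ((3 * r) ^ 2) from (Real.sqrt_sq (by positivity)).symm]
      refine Real.sqrt_le_sqrt ?_
      rw [mul_pow, hr2]
      linarith
    have hLr : L * (C + 26) ≤ 3 / 10000 * r := by
      have h4 : L ≤ 1 / (10000 * ((C : ℝ) + 26)) * (3 * r) :=
        hn.trans (mul_le_mul_of_nonneg_left hsr hε.le)
      calc L * (C + 26) ≤ 1 / (10000 * ((C : ℝ) + 26)) * (3 * r) * (C + 26) :=
            mul_le_mul_of_nonneg_right h4 (by positivity)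
        _ = 3 / 10000 * r := by field_simp
    have hC0 : (0 : ℝ) ≤ C := Nat.cast_nonneg _
    have hLC : L * C ≤ 3 / 10000 * r := by nlinarith
    have hL26 : L * 26 ≤ 3 / 10000 * r := by nlinarith
    have hl2 : Real.log 2 ≤ 1 := by linarith [Real.log_two_lt_d9]
    have hrn : r ≤ n := by nlinarith
    have t1 : (1 + 1 / 1000) * (8 * (n : ℝ) + 1) + 2 * K * (4 * n + 1) ≤ 0.01 * (n : ℝ) ^ 2 := by
      nlinarith
    have t2 : 20 * (n : ℝ) * L ≤ 0.01 * (n : ℝ) ^ 2 := by nlinarith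
    have t3 : (n : ℝ) * Real.log 2 ≤ 0.01 * (n : ℝ) ^ 2 := by nlinarith
    have t4 : (4 * (n : ℝ) + 1) * L ≤ 0.01 * (n : ℝ) ^ 2 := by nlinarith
    have t5 : (C : ℝ) * n * L ≤ 0.01 * (n : ℝ) ^ 2 := by nlinarith
    have t6 : (Real.sqrt (5 * (n : ℝ) + 1) + 1) * (3 * (4 * (n : ℝ) + 1) * L) ≤ 0.1 * (n : ℝ) ^ 2 := by
      have a1 : Real.sqrt (5 * (n : ℝ) + 1) + 1 ≤ 4 * r := by linarith
      have a2 : 3 * (4 * (n : ℝ) + 1) * L ≤ 15 * n * L := by nlinarith
      calc _ ≤ 4 * r * (15 * n * L) := mul_le_mul a1 a2 (by positivity) (by positivity)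
        _ = 60 * n * (r * L) := by ring
        _ ≤ 60 * n * (r * (3 / 260000 * r)) := by
            refine mul_le_mul_of_nonneg_left (mul_le_mul_of_nonneg_left ?_ hr0) (by positivity)
            linarith
        _ = 60 * 3 / 260000 * n * r ^ 2 := by ring
        _ ≤ 0.1 * (n : ℝ) ^ 2 := by
            rw [hr2]
            nlinarith
    linarith
  filter_upwards [hrem, eventually_ge_atTop 2] with n hn hn2 m hm1 hm2 α β γ hD
  set D := DD n (5 * n) m α β γ with hDdef
  set S := (Finset.range (5 * n + 1)).filter Nat.Prime with hS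
  have hn1 : 1 ≤ n := by omega
  have hn0 : (1 : ℝ) ≤ n := by exact_mod_cast hn1
  have hL0 : 0 ≤ Real.log (5 * (n : ℝ) + 1) := Real.log_nonneg (by linarith)
  have hl2 : 0 ≤ Real.log 2 := Real.log_nonneg (by norm_num)
  -- single primes
  have hsingle : ∀ p ∈ S, Real.log ((padicNorm p D : ℚ) : ℝ) ≤
      ((∑ l ∈ range (4 * n + 1), wl n p l : ℕ) : ℝ) * Real.log p +
        4 * ((padicValNat p (5 * n).factorial : ℝ) * Real.log p) -
        (padicValNat p (dB n) : ℝ) * Real.log p + EEp n C p := by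
    intro p hp
    rw [hS, mem_filter] at hp
    have hpp := hp.2
    haveI : Fact p.Prime := ⟨hpp⟩
    have hlp : 0 ≤ Real.log p := Real.log_natCast_nonneg p
    have hne : padicNorm p D ≠ 0 := padicNorm.nonzero hD
    have hW : 0 ≤ ((∑ l ∈ range (4 * n + 1), wl n p l : ℕ) : ℝ) * Real.log p := by positivity
    have hV : 0 ≤ (padicValNat p (5 * n).factorial : ℝ) * Real.log p := by positivity
    by_cases h2 : p = 2
    · subst h2
      have h3 := hC (n := n) (m := m) hn2 hm2 α β γ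
      have h4 : padicNorm 2 D ≤ ((2 : ℕ) : ℚ) ^ ((9 * n ^ 2 / 4 + C * n * Nat.log 2 n : ℕ) : ℤ) := by
        rw [zpow_natCast]
        exact_mod_cast h3
      have h5 := log_zpow_bound Nat.prime_two hne h4 (padicNorm.nonneg _)
      have h6 : (((9 * n ^ 2 / 4 + C * n * Nat.log 2 n : ℕ) : ℤ) : ℝ) ≤
          9 * (n : ℝ) ^ 2 / 4 + C * n * Nat.log 2 n := by
        have h7 : ((9 * n ^ 2 / 4 : ℕ) : ℝ) ≤ 9 * (n : ℝ) ^ 2 / 4 := by
          refine (Nat.cast_div_le).trans ?_
          push_cast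
          exact le_rfl
        rw [Int.cast_natCast, Nat.cast_add]
        refine add_le_add h7 (le_of_eq ?_)
        push_cast
        ring
      have h8 := mul_le_mul_of_nonneg_right h6 hlp
      have h9 : EEp n C 2 ≥ ((padicValNat 2 (dB n) : ℝ) + 9 * (n : ℝ) ^ 2 / 4 + C * n * Nat.log 2 n) * Real.log 2 := by
        unfold EEp
        rw [if_pos rfl]
        refine le_add_of_nonneg_right ?_
        split_ifs <;> positivity
      have h10 := h5.trans h8
      have e2 : ((2 : ℕ) : ℝ) = 2 := by norm_num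
      rw [e2] at h10 hW hV ⊢
      linarith
    · have hE0 : EEp n C p = (if p ^ 2 ≤ 5 * n + 1 then 3 * (4 * (n : ℝ) + 1) * Real.log (5 * n + 1) else 0) := by
        unfold EEp
        rw [if_neg h2, zero_add]
      rw [hE0]
      by_cases h3 : p ^ 2 ≤ 5 * n + 1
      · rw [if_pos h3]
        have h4 := log_zpow_bound hpp hne (P_small (n := n) (p := p) (m := m) hn1 h2 hm1 hm2 α β γ)
          (padicNorm.nonneg _)
        have h5 : (Nat.log p (5 * n + 1) : ℝ) * Real.log p ≤ Real.log (5 * n + 1) := by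
          have h6 : p ^ Nat.log p (5 * n + 1) ≤ 5 * n + 1 := Nat.pow_log_le_self p (by omega)
          have h7 : ((p : ℝ)) ^ Nat.log p (5 * n + 1) ≤ 5 * (n : ℝ) + 1 := by exact_mod_cast h6
          have h8 := Real.log_le_log (by have := hpp.pos; positivity) h7
          rwa [Real.log_pow] at h8
        have h6 := mul_le_mul_of_nonneg_left h5 (show (0 : ℝ) ≤ 3 * (4 * (n : ℝ) + 1) by positivity)
        rw [Int.cast_sub, Int.cast_add, Int.cast_mul, Int.cast_natCast, Int.cast_natCast, Int.cast_natCast] at h4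
        have e3 : ((3 * Nat.log p (5 * n + 1) * (4 * n + 1) : ℕ) : ℝ) =
            3 * (4 * (n : ℝ) + 1) * Nat.log p (5 * n + 1) := by
          rw [Nat.cast_mul, Nat.cast_mul, Nat.cast_add, Nat.cast_mul]
          norm_num
          ring
        have e4 : ((4 : ℤ) : ℝ) = 4 := by norm_num
        rw [e3, e4] at h4
        linarith
      · rw [if_neg h3]
        have h4 := log_zpow_bound hpp hne (P_large (n := n) (p := p) (m := m) hn1 h2 (by omega) hm1 hm2 α β γ)
          (padicNorm.nonneg _)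
        rw [Int.cast_sub, Int.cast_add, Int.cast_mul, Int.cast_natCast, Int.cast_natCast, Int.cast_natCast] at h4
        have e4 : ((4 : ℤ) : ℝ) = 4 := by norm_num
        rw [e4] at h4
        linarith
  refine (sum_le_sum hsingle).trans ?_
  rw [sum_add_distrib, sum_sub_distrib, sum_add_distrib, ← mul_sum]
  rw [← log_eq_sum_val (Nat.factorial_ne_zero (5 * n)) (fun p hp h => (hp.dvd_factorial).1 h),
    ← log_eq_sum_val (dB_ne_zero n) (fun p hp h => dB_primes hp h)]
  have hw := hKs n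
  have hdB := (GG_value hn1).trans (log_dB n)
  have hfac : Real.log ((5 * n).factorial : ℝ) ≤ 5 * n * Real.log (5 * n + 1) := by
    have h1 : ((5 * n).factorial : ℝ) ≤ (5 * (n : ℝ) + 1) ^ (5 * n) := by
      have h2 : (5 * n).factorial ≤ (5 * n + 1) ^ (5 * n) :=
        (Nat.factorial_le_pow (5 * n)).trans (Nat.pow_le_pow_left (by omega) _)
      exact_mod_cast h2
    have h3 := Real.log_le_log (by positivity) h1
    rw [Real.log_pow] at h3
    push_cast at h3
    exact h3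
  have hEE : ∑ p ∈ S, EEp n C p ≤
      ((padicValNat 2 (dB n) : ℝ) + 9 * (n : ℝ) ^ 2 / 4 + C * n * Nat.log 2 n) * Real.log 2 +
        (Real.sqrt (5 * n + 1) + 1) * (3 * (4 * (n : ℝ) + 1) * Real.log (5 * n + 1)) := by
    unfold EEp
    rw [sum_add_distrib]
    refine add_le_add ?_ ?_
    · rw [sum_ite_eq' S 2]
      split_ifs
      · exact le_rfl
      · positivity
    · rw [← sum_filter, sum_const, nsmul_eq_mul]
      refine mul_le_mul_of_nonneg_right ?_ (by positivity)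
      have h1 : (S.filter fun p => p ^ 2 ≤ 5 * n + 1) ⊆ range (Nat.sqrt (5 * n + 1) + 1) := by
        intro p hp
        rw [mem_filter] at hp
        rw [mem_range]
        exact Nat.lt_succ_of_le (Nat.le_sqrt'.2 hp.2)
      have h2 := card_le_card h1
      rw [card_range] at h2
      have h3 : ((Nat.sqrt (5 * n + 1) : ℕ) : ℝ) ≤ Real.sqrt (5 * n + 1) := by
        have := Real.nat_sqrt_le_real_sqrt (a := 5 * n + 1)
        push_cast at this
        exact this
      have h4 : (((S.filter fun p => p ^ 2 ≤ 5 * n + 1).card : ℕ) : ℝ) ≤ ((Nat.sqrt (5 * n + 1) + 1 : ℕ) : ℝ) := by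
        exact_mod_cast h2
      push_cast at h4
      linarith
  have hv2 : (padicValNat 2 (dB n) : ℝ) * Real.log 2 ≤
      4 * (n : ℝ) ^ 2 * Real.log 2 + n * Real.log 2 + (4 * n + 1) * Real.log (5 * n + 1) := by
    have h1 : (padicValNat 2 (dB n) : ℝ) ≤ (4 * n + 1) * (n + Nat.log 2 (5 * n)) := by
      exact_mod_cast val_two_dB n
    have h2 : (Nat.log 2 (5 * n) : ℝ) * Real.log 2 ≤ Real.log (5 * n + 1) := by
      have h6 : 2 ^ Nat.log 2 (5 * n) ≤ 5 * n := Nat.pow_log_le_self 2 (by omega)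
      have h7 : (2 : ℝ) ^ Nat.log 2 (5 * n) ≤ 5 * (n : ℝ) + 1 := by
        have : (2 : ℝ) ^ Nat.log 2 (5 * n) ≤ 5 * (n : ℝ) := by exact_mod_cast h6
        linarith
      have h8 := Real.log_le_log (by positivity) h7
      rwa [Real.log_pow] at h8
    have h3 := mul_le_mul_of_nonneg_right h1 hl2
    have h4 := mul_le_mul_of_nonneg_left h2 (show (0 : ℝ) ≤ 4 * (n : ℝ) + 1 by positivity)
    nlinarith
  have hlog2n : (C : ℝ) * n * Nat.log 2 n * Real.log 2 ≤ C * n * Real.log (5 * n + 1) := by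
    have h2 : (Nat.log 2 n : ℝ) * Real.log 2 ≤ Real.log (5 * n + 1) := by
      have h6 : 2 ^ Nat.log 2 n ≤ n := Nat.pow_log_le_self 2 (by omega)
      have h7 : (2 : ℝ) ^ Nat.log 2 n ≤ 5 * (n : ℝ) + 1 := by
        have : (2 : ℝ) ^ Nat.log 2 n ≤ (n : ℝ) := by exact_mod_cast h6
        linarith
      have h8 := Real.log_le_log (by positivity) h7
      rwa [Real.log_pow] at h8
    have := mul_le_mul_of_nonneg_left h2 (show (0 : ℝ) ≤ (C : ℝ) * n by positivity)
    linarith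
  have hlog2 := Real.log_two_lt_d9
  have hnn : (0 : ℝ) ≤ (n : ℝ) ^ 2 := by positivity
  have e1 : (9 * (n : ℝ) ^ 2 / 4) * Real.log 2 + 4 * (n : ℝ) ^ 2 * Real.log 2 ≤ 4.3322 * (n : ℝ) ^ 2 := by
    nlinarith
  norm_num at hn hw ⊢
  nlinarith

end

end Pool.Agent.LP.PM
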