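import Pool.Agent.H422R2.LP.DefsP
import Pool.Agent.Helper923.PNT

/-! Analytic part of `P_main`: sums over primes from the prime number theorem, `log (dB n)`. -/

open Filter Topology Finset

namespace Pool.Agent.LP.PM

noncomputable section

/-! ### elementary sums -/

lemma sum_sub_two (N : ℕ) : ∀ M : ℕ, 4 * ∑ l ∈ range N, (M - 2 * l) ≤ (M + 1) ^ 2 := by
  induction N with
  | zero => intro M; simp
  | succ N ih =>
    intro M
    rw [sum_range_succ']
    have h1 : ∑ l ∈ range N, (M - 2 * (l + 1)) = ∑ l ∈ range N, ((M - 2) - 2 * l) :=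
      sum_congr rfl fun l _ => by omega
    rw [h1]
    have h2 := ih (M - 2)
    rcases le_or_gt 2 M with h | h
    · obtain ⟨k, rfl⟩ := Nat.exists_eq_add_of_le h
      simp only [Nat.add_sub_cancel_left, mul_zero, Nat.sub_zero] at h2 ⊢
      nlinarith
    · interval_cases M
      · simp only [Nat.zero_sub, Nat.zero_sub] at h2 ⊢
        have h3 : ∑ l ∈ range N, (0 - 2 * l) = 0 := sum_eq_zero fun l _ => by omega
        simp
      · have h3 : ∑ l ∈ range N, (1 - 2 - 2 * l) = 0 := sum_eq_zero fun l _ => by omega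
        rw [h3]
        norm_num

lemma sum_sub_three (N : ℕ) : ∀ M : ℕ, 6 * ∑ l ∈ range N, (M - 3 * l) ≤ (M + 1) * (M + 2) := by
  induction N with
  | zero => intro M; simp
  | succ N ih =>
    intro M
    rw [sum_range_succ']
    have h1 : ∑ l ∈ range N, (M - 3 * (l + 1)) = ∑ l ∈ range N, ((M - 3) - 3 * l) :=
      sum_congr rfl fun l _ => by omega
    rw [h1]
    have h2 := ih (M - 3)
    rcases le_or_gt 3 M with h | h
    · obtain ⟨k, rfl⟩ := Nat.exists_eq_add_of_le h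
      simp only [Nat.add_sub_cancel_left, mul_zero, Nat.sub_zero] at h2 ⊢
      nlinarith
    · have h3 : ∑ l ∈ range N, (M - 3 - 3 * l) = 0 := sum_eq_zero fun l _ => by omega
      rw [h3]
      interval_cases M <;> norm_num

lemma sum_id_range (N : ℕ) : 2 * ∑ l ∈ range N, l = N * (N - 1) := by
  have := Finset.sum_range_id_mul_two N
  omega

/-- first maximum sum -/
lemma sum_max_one (n : ℕ) :
    4 * ∑ l ∈ range (4 * n + 1), max (l + n) (4 * n - l) ≤ 57 * n ^ 2 + 18 * n + 1 := by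
  have h1 : ∑ l ∈ range (4 * n + 1), max (l + n) (4 * n - l) ≤
      ∑ l ∈ range (4 * n + 1), l + (4 * n + 1) * n + ∑ l ∈ range (4 * n + 1), (3 * n - 2 * l) := by
    have : (4 * n + 1) * n = ∑ l ∈ range (4 * n + 1), n := by rw [sum_const, card_range, smul_eq_mul]
    rw [this, ← sum_add_distrib, ← sum_add_distrib]
    refine sum_le_sum fun l _ => ?_
    omega
  have h2 := sum_sub_two (4 * n + 1) (3 * n)
  have h3 := sum_id_range (4 * n + 1)
  rw [Nat.add_sub_cancel] at h3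
  nlinarith

/-- second maximum sum -/
lemma sum_max_two (n : ℕ) :
    12 * ∑ l ∈ range (4 * n + 1), max (l + n) ((4 * n - l) / 2) ≤ 148 * n ^ 2 + 42 * n + 2 := by
  have h1 : 2 * ∑ l ∈ range (4 * n + 1), max (l + n) ((4 * n - l) / 2) ≤
      2 * ∑ l ∈ range (4 * n + 1), l + 2 * ((4 * n + 1) * n) + ∑ l ∈ range (4 * n + 1), (2 * n - 3 * l) := by
    have : (4 * n + 1) * n = ∑ l ∈ range (4 * n + 1), n := by rw [sum_const, card_range, smul_eq_mul]
    rw [this, mul_sum, mul_sum, mul_sum, ← sum_add_distrib, ← sum_add_distrib]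
    refine sum_le_sum fun l _ => ?_
    omega
  have h2 := sum_sub_three (4 * n + 1) (2 * n)
  have h3 := sum_id_range (4 * n + 1)
  rw [Nat.add_sub_cancel] at h3
  nlinarith

/-! ### the weights -/

lemma wl_eq {n p l : ℕ} (hp : 0 < p) :
    wl n p l = (if p ≤ max (l + n) (4 * n - l) then 1 else 0) +
      (if p ≤ max (l + n) ((4 * n - l) / 2) then 1 else 0) := by
  unfold wl
  by_cases h : p ≤ l + n
  · rw [if_pos h, if_pos (h.trans (le_max_left _ _)), if_pos (h.trans (le_max_left _ _))]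
  · rw [if_neg h]
    have e1 : p ≤ max (l + n) (4 * n - l) ↔ 1 ≤ (4 * n - l) / p := by
      rw [le_max_iff, Nat.le_div_iff_mul_le hp, one_mul]
      tauto
    have e2 : p ≤ max (l + n) ((4 * n - l) / 2) ↔ 2 ≤ (4 * n - l) / p := by
      rw [le_max_iff, Nat.le_div_iff_mul_le hp, Nat.le_div_iff_mul_le (by norm_num), mul_comm p 2]
      tauto
    simp only [e1, e2]
    generalize (4 * n - l) / p = q
    split_ifs with h1 h2 h2 <;> omega

lemma theta_nat (N : ℕ) : Chebyshev.theta (N : ℝ) =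
    ∑ p ∈ (range (N + 1)).filter Nat.Prime, Real.log p := by
  rw [Chebyshev.theta_eq_sum_Icc, Nat.floor_natCast]
  refine sum_congr ?_ fun _ _ => rfl
  ext p
  simp only [mem_filter, mem_Icc, mem_range]
  constructor
  · rintro ⟨h1, h2⟩
    exact ⟨by omega, h2⟩
  · rintro ⟨h1, h2⟩
    exact ⟨by omega, h2⟩

lemma sum_if (S M : ℕ) (hM : M ≤ S) :
    ∑ p ∈ (range (S + 1)).filter Nat.Prime, ((if p ≤ M then 1 else 0 : ℕ) : ℝ) * Real.log p =
      Chebyshev.theta (M : ℝ) := by
  rw [theta_nat]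
  have h1 : ∀ p ∈ (range (S + 1)).filter Nat.Prime, ((if p ≤ M then 1 else 0 : ℕ) : ℝ) * Real.log p =
      if p ≤ M then Real.log p else 0 := by
    intro p _
    split_ifs <;> simp
  rw [sum_congr rfl h1, ← sum_filter]
  refine sum_congr ?_ fun _ _ => rfl
  ext p
  simp only [mem_filter, mem_range]
  constructor
  · rintro ⟨⟨h1, h2⟩, h3⟩
    exact ⟨by omega, h2⟩
  · rintro ⟨h1, h2⟩
    exact ⟨⟨by omega, h2⟩, by omega⟩

lemma theta_bound (δ : ℝ) (hδ : 0 < δ) : ∃ K : ℝ, 0 ≤ K ∧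
    ∀ t : ℝ, 0 ≤ t → Chebyshev.theta t ≤ (1 + δ) * t + K := by
  have h := Pool.Agent.Helper923.PNT.theta_div_tendsto
  obtain ⟨T, hT⟩ := Filter.eventually_atTop.1 ((Metric.tendsto_nhds.mp h) δ hδ)
  have h0 : ∀ x : ℝ, 0 ≤ Chebyshev.theta x := Chebyshev.theta_nonneg
  refine ⟨Chebyshev.theta (max T 1), h0 _, fun t ht => ?_⟩
  by_cases htT : max T 1 ≤ t
  · have ht0 : 0 < t := lt_of_lt_of_le (lt_of_lt_of_le one_pos (le_max_right _ _)) htT
    have h1 := hT t ((le_max_left _ _).trans htT)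
    rw [Real.dist_eq] at h1
    have h2 : Chebyshev.theta t - t = (Chebyshev.theta t / t - 1) * t := by
      field_simp
    have h3 := (abs_lt.1 h1).2
    have h4 : (Chebyshev.theta t / t - 1) * t ≤ δ * t := mul_le_mul_of_nonneg_right h3.le ht0.le
    have := h0 (max T 1)
    linarith
  · push Not at htT
    have h1 := Chebyshev.theta_mono htT.le
    have h4 : 0 ≤ (1 + δ) * t := by positivity
    linarith

/-- total weight -/
lemma sum_wl (δ : ℝ) (hδ : 0 < δ) : ∃ K : ℝ, 0 ≤ K ∧ ∀ n : ℕ,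
    ∑ p ∈ (range (5 * n + 1)).filter Nat.Prime,
      ((∑ l ∈ range (4 * n + 1), wl n p l : ℕ) : ℝ) * Real.log p ≤
    (1 + δ) * (319 / 12 * (n : ℝ) ^ 2 + 8 * n + 1) + 2 * K * (4 * n + 1) := by
  obtain ⟨K, hK, hKt⟩ := theta_bound δ hδ
  refine ⟨K, hK, fun n => ?_⟩
  have h1 : ∑ p ∈ (range (5 * n + 1)).filter Nat.Prime,
      ((∑ l ∈ range (4 * n + 1), wl n p l : ℕ) : ℝ) * Real.log p =
      ∑ l ∈ range (4 * n + 1), (Chebyshev.theta ((max (l + n) (4 * n - l) : ℕ) : ℝ) +
        Chebyshev.theta ((max (l + n) ((4 * n - l) / 2) : ℕ) : ℝ)) := by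
    have e1 : ∀ p ∈ (range (5 * n + 1)).filter Nat.Prime,
        ((∑ l ∈ range (4 * n + 1), wl n p l : ℕ) : ℝ) * Real.log p =
        ∑ l ∈ range (4 * n + 1), (((if p ≤ max (l + n) (4 * n - l) then 1 else 0 : ℕ) : ℝ) * Real.log p +
          ((if p ≤ max (l + n) ((4 * n - l) / 2) then 1 else 0 : ℕ) : ℝ) * Real.log p) := by
      intro p hp
      rw [mem_filter] at hp
      rw [Nat.cast_sum, sum_mul]
      refine sum_congr rfl fun l _ => ?_
      rw [wl_eq hp.2.pos, Nat.cast_add, add_mul]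
    rw [sum_congr rfl e1, sum_comm]
    refine sum_congr rfl fun l hl => ?_
    rw [mem_range] at hl
    rw [sum_add_distrib, sum_if _ _ (by omega), sum_if _ _ (by omega)]
  rw [h1]
  have h2 : ∀ l ∈ range (4 * n + 1), Chebyshev.theta ((max (l + n) (4 * n - l) : ℕ) : ℝ) +
        Chebyshev.theta ((max (l + n) ((4 * n - l) / 2) : ℕ) : ℝ) ≤
      (1 + δ) * (((max (l + n) (4 * n - l) : ℕ) : ℝ) + ((max (l + n) ((4 * n - l) / 2) : ℕ) : ℝ)) + 2 * K := by
    intro l _
    have a1 := hKt ((max (l + n) (4 * n - l) : ℕ) : ℝ) (Nat.cast_nonneg _)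
    have a2 := hKt ((max (l + n) ((4 * n - l) / 2) : ℕ) : ℝ) (Nat.cast_nonneg _)
    linarith
  refine (sum_le_sum h2).trans ?_
  rw [sum_add_distrib, ← mul_sum, sum_add_distrib, sum_const, card_range, nsmul_eq_mul]
  have h3 : (4 : ℝ) * ∑ l ∈ range (4 * n + 1), ((max (l + n) (4 * n - l) : ℕ) : ℝ) ≤ 57 * (n : ℝ) ^ 2 + 18 * n + 1 := by
    exact_mod_cast sum_max_one n
  have h4 : (12 : ℝ) * ∑ l ∈ range (4 * n + 1), ((max (l + n) ((4 * n - l) / 2) : ℕ) : ℝ) ≤
      148 * (n : ℝ) ^ 2 + 42 * n + 2 := by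
    exact_mod_cast sum_max_two n
  have h5 : ∑ l ∈ range (4 * n + 1), ((max (l + n) (4 * n - l) : ℕ) : ℝ) +
      ∑ l ∈ range (4 * n + 1), ((max (l + n) ((4 * n - l) / 2) : ℕ) : ℝ) ≤
      319 / 12 * (n : ℝ) ^ 2 + 8 * n + 1 := by linarith
  have h6 := mul_le_mul_of_nonneg_left h5 (by linarith : (0 : ℝ) ≤ 1 + δ)
  have h7 : ((4 * n + 1 : ℕ) : ℝ) * (2 * K) = 2 * K * (4 * n + 1) := by
    push_cast
    ring
  rw [h7]
  exact add_le_add h6 le_rfl

/-! ### `log (dB n)` -/

/-- second antiderivative of the logarithm -/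
def GG (x : ℝ) : ℝ := x ^ 2 / 2 * Real.log x - 3 / 4 * x ^ 2

lemma GG_deriv {x : ℝ} (hx : 0 < x) : HasDerivAt GG (x * Real.log x - x) x := by
  unfold GG
  have h1 := ((hasDerivAt_pow 2 x).div_const 2).mul (Real.hasDerivAt_log hx.ne')
  have h2 := (hasDerivAt_pow 2 x).const_mul (3 / 4 : ℝ)
  have e : x ^ 2 / 2 * x⁻¹ = x / 2 := by
    rw [sq]
    field_simp
  have h3 := h1.sub h2
  have e2 : (↑(2 : ℕ) * x ^ (2 - 1) / 2 * Real.log x + x ^ 2 / 2 * x⁻¹) - 3 / 4 * (↑(2 : ℕ) * x ^ (2 - 1)) =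
      x * Real.log x - x := by
    rw [e]
    push_cast
    ring
  rw [e2] at h3
  exact h3

lemma GG_cont : ContinuousOn GG (Set.Ici 0) := by
  have h : GG = fun x : ℝ => x / 2 * (x * Real.log x) - 3 / 4 * x ^ 2 := by
    ext x
    unfold GG
    ring
  rw [h]
  exact (((continuous_id.div_const 2).mul Real.continuous_mul_log).sub
    (continuous_const.mul (continuous_pow 2))).continuousOn

lemma GG_second {x : ℝ} (hx : 0 ≤ x) : GG (x + 2) - 2 * GG (x + 1) + GG x ≤ Real.log (x + 2) := by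
  have key : ∀ s : ℝ, 0 < s → s ≤ x + 1 →
      ((s + 1) * Real.log (s + 1) - (s + 1)) - (s * Real.log s - s) ≤ Real.log (x + 2) := by
    intro s hs hsx
    have h1 : Real.log (s + 1) ≤ Real.log (x + 2) := Real.log_le_log (by linarith) (by linarith)
    have h2 : Real.log (s + 1) - Real.log s ≤ 1 / s := by
      rw [← Real.log_div (by linarith) hs.ne']
      have := Real.log_le_sub_one_of_pos (show 0 < (s + 1) / s by positivity)
      have e : (s + 1) / s - 1 = 1 / s := by field_simp; ring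
      linarith
    have h3 : s * (Real.log (s + 1) - Real.log s) ≤ 1 := by
      calc _ ≤ s * (1 / s) := mul_le_mul_of_nonneg_left h2 hs.le
        _ = 1 := by field_simp
    nlinarith
  have hmv := (convex_Icc x (x + 1)).image_sub_le_mul_sub_of_deriv_le
    (f := fun s : ℝ => GG (s + 1) - GG s) (C := Real.log (x + 2)) ?_ ?_ ?_ x
    (Set.left_mem_Icc.2 (by linarith)) (x + 1) (Set.right_mem_Icc.2 (by linarith)) (by linarith)
  · have e : x + 1 + 1 = x + 2 := by ring
    simp only [e] at hmv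
    linarith
  · refine ContinuousOn.sub ?_ ?_
    · refine GG_cont.comp (continuous_add_const 1).continuousOn fun s hs => ?_
      exact Set.mem_Ici.2 (by linarith [hs.1])
    · exact GG_cont.mono fun s hs => Set.mem_Ici.2 (hx.trans hs.1)
  · rw [interior_Icc]
    intro s hs
    have hs0 : 0 < s := lt_of_le_of_lt hx hs.1
    have d1 : HasDerivAt (fun s : ℝ => GG (s + 1)) _ s :=
      (GG_deriv (show 0 < s + 1 by linarith)).comp_add_const s 1
    exact (d1.sub (GG_deriv hs0)).differentiableAt.differentiableWithinAt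
  · rw [interior_Icc]
    intro s hs
    have hs0 : 0 < s := lt_of_le_of_lt hx hs.1
    have d1 : HasDerivAt (fun s : ℝ => GG (s + 1)) _ s :=
      (GG_deriv (show 0 < s + 1 by linarith)).comp_add_const s 1
    have e : deriv (fun s : ℝ => GG (s + 1) - GG s) s =
        ((s + 1) * Real.log (s + 1) - (s + 1)) - (s * Real.log s - s) := (d1.sub (GG_deriv hs0)).deriv
    rw [e]
    exact key s hs0 hs.2.le

lemma GG_zero : GG 0 = 0 := by simp [GG]

/-- row step -/
lemma GG_row (n l : ℕ) : (GG (l + 1 + n) - GG (l + 1)) - (GG (l + n) - GG l) ≤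
    Real.log (((l + 1 + 1).ascFactorial n : ℕ) : ℝ) := by
  induction n with
  | zero => simp
  | succ n ih =>
    rw [Nat.ascFactorial_succ, Nat.cast_mul, Real.log_mul (by positivity)
      (by exact_mod_cast (Nat.ascFactorial_pos _ _).ne')]
    have h := GG_second (x := (l : ℝ) + n) (by positivity)
    have e1 : ((l + 1 + 1 + n : ℕ) : ℝ) = (l : ℝ) + n + 2 := by push_cast; ring
    rw [e1]
    have e2 : (l : ℝ) + 1 + ((n + 1 : ℕ) : ℝ) = (l : ℝ) + n + 2 := by push_cast; ring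
    have e3 : (l : ℝ) + ((n + 1 : ℕ) : ℝ) = (l : ℝ) + n + 1 := by push_cast; ring
    have e4 : (l : ℝ) + 1 + n = (l : ℝ) + n + 1 := by ring
    rw [e2, e3]
    rw [e4] at ih
    linarith

lemma log_dB (n : ℕ) : GG (5 * n) - GG (4 * n) - GG n ≤ Real.log (dB n : ℝ) := by
  unfold dB
  rw [Nat.cast_prod, Real.log_prod (fun l _ => by exact_mod_cast (Nat.ascFactorial_pos _ _).ne')]
  rw [sum_range_succ']
  have h0 : 0 ≤ Real.log (((0 + 1).ascFactorial n : ℕ) : ℝ) :=
    Real.log_nonneg (by exact_mod_cast Nat.ascFactorial_pos _ _)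
  have h1 : ∀ N : ℕ, (GG (N + n) - GG N) - (GG (0 + n) - GG 0) ≤
      ∑ l ∈ range N, Real.log (((l + 1 + 1).ascFactorial n : ℕ) : ℝ) := by
    intro N
    induction N with
    | zero => simp
    | succ N ih =>
      rw [sum_range_succ]
      have h := GG_row n N
      push_cast at h ⊢
      linarith
  have h2 := h1 (4 * n)
  rw [GG_zero] at h2
  have e1 : ((4 * n : ℕ) : ℝ) + n = 5 * n := by push_cast; ring
  rw [e1] at h2
  push_cast at h2 ⊢
  simp only [zero_add] at h2 h0 ⊢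
  linarith

lemma GG_value {n : ℕ} (hn : 1 ≤ n) : 4 * (n : ℝ) ^ 2 * Real.log n + 3.0264 * (n : ℝ) ^ 2 ≤
    GG (5 * n) - GG (4 * n) - GG n := by
  have hn0 : (0 : ℝ) < n := by exact_mod_cast hn
  unfold GG
  rw [Real.log_mul (by norm_num) hn0.ne', Real.log_mul (by norm_num) hn0.ne']
  have h4 : Real.log 4 = 2 * Real.log 2 := by
    rw [show (4 : ℝ) = 2 ^ 2 by norm_num, Real.log_pow]
    push_cast
    ring
  have h2a := Real.log_two_gt_d9
  have h2b := Real.log_two_lt_d9
  have h5 : 1.609343 ≤ Real.log 5 := by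
    have e1 : Real.log (125 / 128) = 3 * Real.log 5 - 7 * Real.log 2 := by
      rw [Real.log_div (by norm_num) (by norm_num), show (125 : ℝ) = 5 ^ 3 by norm_num,
        show (128 : ℝ) = 2 ^ 7 by norm_num, Real.log_pow, Real.log_pow]
      push_cast
      ring
    have e2 : 1 - (125 / 128 : ℝ)⁻¹ ≤ Real.log (125 / 128) := Real.one_sub_inv_le_log_of_pos (by norm_num)
    norm_num at e2
    linarith
  rw [h4]
  have key : 3.0264 ≤ 25 / 2 * Real.log 5 - 16 * Real.log 2 - 6 := by linarith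
  nlinarith [mul_le_mul_of_nonneg_left key (sq_nonneg (n : ℝ))]

end

end Pool.Agent.LP.PM
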