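import Pool.Agent.H422R2.LP.Defs

/-! Task P_two (helper326), part A: general lemmas. -/

open Polynomial

namespace Pool.Agent.LP.T2

noncomputable section

lemma P2_expand (m : ℕ) (P : ℚ[X]) (h : P.natDegree < m) :
    P = ∑ k : Fin m, (P.coeff k) • (X ^ (k : ℕ) : ℚ[X]) := by
  conv_lhs => rw [P.as_sum_range' m h]
  rw [Fin.sum_univ_eq_sum_range (fun k => (P.coeff k) • (X ^ k : ℚ[X])) m]
  apply Finset.sum_congr rfl
  intro k _
  rw [← Polynomial.C_mul_X_pow_eq_monomial, Polynomial.smul_eq_C_mul]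

/-- change of the two bases of a Hankel determinant -/
theorem P2_det (N : ℚ[X] →ₗ[ℚ] ℚ) (m : ℕ) (P Q : ℕ → ℚ[X])
    (hP : ∀ i < m, (P i).Monic ∧ (P i).natDegree = i)
    (hQ : ∀ i < m, (Q i).Monic ∧ (Q i).natDegree = i) :
    (Matrix.of fun i j : Fin m => N (P i * Q j)).det =
      (Matrix.of fun i j : Fin m => N (X ^ (i.1 + j.1))).det := by
  have h0 : (Matrix.of fun a b : Fin m => N (P a * Q b)) =
      (Matrix.of fun (a : Fin m) (k : Fin m) => (P a).coeff (k : ℕ)) *
        (Matrix.of fun i j : Fin m => N (X ^ (i.1 + j.1))) *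
        (Matrix.of fun (a : Fin m) (k : Fin m) => (Q a).coeff (k : ℕ)).transpose := by
    ext a b
    rw [Matrix.of_apply, Matrix.mul_apply]
    conv_lhs => rw [P2_expand m (P a) (by rw [(hP a a.2).2]; exact a.2),
      P2_expand m (Q b) (by rw [(hQ b b.2).2]; exact b.2), Finset.mul_sum, map_sum]
    apply Finset.sum_congr rfl
    intro l _
    rw [Matrix.mul_apply, Matrix.transpose_apply, Matrix.of_apply, Finset.sum_mul, Finset.sum_mul,
      map_sum]
    apply Finset.sum_congr rfl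
    intro k _
    rw [Matrix.of_apply, Matrix.of_apply, smul_mul_smul_comm, ← pow_add, map_smul, smul_eq_mul]
    ring
  have h2 : ∀ R : ℕ → ℚ[X], (∀ i < m, (R i).Monic ∧ (R i).natDegree = i) →
      (Matrix.of fun (a : Fin m) (k : Fin m) => (R a).coeff (k : ℕ)).det = 1 := by
    intro R hR
    rw [Matrix.det_of_isLowerTriangular]
    · apply Finset.prod_eq_one
      intro i _
      rw [Matrix.of_apply]
      have h3 := (hR i i.2).1
      rw [Polynomial.Monic, Polynomial.leadingCoeff, (hR i i.2).2] at h3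
      exact h3
    · intro i j hij
      rw [Matrix.of_apply]
      apply Polynomial.coeff_eq_zero_of_natDegree_lt
      rw [(hR i i.2).2]
      exact hij
  rw [h0, Matrix.det_mul, Matrix.det_mul, Matrix.det_transpose, h2 P hP, h2 Q hQ, one_mul, mul_one]

theorem P2_leibniz (p : ℕ) [Fact p.Prime] (N : ℕ) (M : Matrix (Fin N) (Fin N) ℚ) (r c : ℕ → ℚ)
    (hr : ∀ i, 0 ≤ r i) (hc : ∀ i, 0 ≤ c i) (h : ∀ i j : Fin N, padicNorm p (M i j) ≤ r i * c j) :
    padicNorm p M.det ≤ (∏ i ∈ Finset.range N, r i) * ∏ j ∈ Finset.range N, c j := by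
  classical
  rw [Matrix.det_apply]
  refine padicNorm.sum_le' (fun σ _ => ?_) (mul_nonneg (Finset.prod_nonneg fun i _ => hr i)
    (Finset.prod_nonneg fun i _ => hc i))
  have hs : padicNorm p (Equiv.Perm.sign σ • ∏ i, M (σ i) i) = ∏ i, padicNorm p (M (σ i) i) := by
    have h1 : padicNorm p (∏ i, M (σ i) i) = ∏ i, padicNorm p (M (σ i) i) := by
      refine Finset.induction_on (Finset.univ : Finset (Fin N)) ?_ ?_
      · simp
      · intro a s ha ih
        rw [Finset.prod_insert ha, Finset.prod_insert ha, padicNorm.mul, ih]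
    rcases Int.units_eq_one_or (Equiv.Perm.sign σ) with hσ | hσ
    · rw [hσ, one_smul, h1]
    · rw [hσ, Units.neg_smul, one_smul, padicNorm.neg, h1]
  rw [hs]
  calc ∏ i, padicNorm p (M (σ i) i) ≤ ∏ i : Fin N, (r (σ i) * c i) :=
        Finset.prod_le_prod (fun i _ => padicNorm.nonneg _) (fun i _ => h (σ i) i)
    _ = (∏ i : Fin N, r (σ i)) * ∏ i : Fin N, c i := Finset.prod_mul_distrib
    _ = (∏ i : Fin N, r i) * ∏ i : Fin N, c i := by
        congr 1
        exact Equiv.prod_comp σ (fun i : Fin N => r i)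
    _ = _ := by rw [Finset.prod_range, Finset.prod_range]

/-! ### Products of consecutive linear factors -/

/-- `∏_{u ≤ k < v} (X + k)` -/
def EE (u v : ℕ) : ℚ[X] := ∏ k ∈ Finset.Ico u v, (X + C (k : ℚ))

lemma EE_monic (u v : ℕ) : (EE u v).Monic := monic_prod_of_monic _ _ fun k _ => monic_X_add_C _

lemma EE_natDegree (u v : ℕ) : (EE u v).natDegree = v - u := by
  unfold EE
  rw [natDegree_prod_of_monic _ _ fun k _ => monic_X_add_C _]
  simp only [natDegree_X_add_C, Finset.sum_const, Nat.card_Ico, smul_eq_mul, mul_one]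

lemma EE_mul {u v w : ℕ} (h1 : u ≤ v) (h2 : v ≤ w) : EE u v * EE v w = EE u w :=
  Finset.prod_Ico_consecutive _ h1 h2

lemma An_eq (a : ℕ) : An a = EE 0 a := by
  unfold An EE
  rw [Finset.range_eq_Ico]

lemma Pn_eq (a b : ℕ) : Pn a b = EE a (b + 1) := by
  unfold Pn EE
  rfl

lemma EE_eval (u v : ℕ) (x : ℚ) : (EE u v).eval x = ∏ i ∈ Finset.range (v - u), (x + u + i) := by
  unfold EE
  rw [eval_prod, Finset.prod_Ico_eq_prod_range]
  refine Finset.prod_congr rfl fun i _ => ?_
  rw [eval_add, eval_X, eval_C]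
  push_cast
  ring

lemma padic_int_dvd {p : ℕ} [Fact p.Prime] {a b : ℤ} (h : a ∣ b) :
    padicNorm p (b : ℚ) ≤ padicNorm p (a : ℚ) := by
  obtain ⟨c, rfl⟩ := h
  push_cast
  rw [padicNorm.mul]
  have h1 : padicNorm p (c : ℚ) ≤ 1 := padicNorm.of_int c
  calc padicNorm p (a : ℚ) * padicNorm p (c : ℚ) ≤ padicNorm p (a : ℚ) * 1 :=
        mul_le_mul_of_nonneg_left h1 (padicNorm.nonneg _)
    _ = _ := mul_one _

/-- values of `EE u v` at integers -/
lemma EE_norm {p : ℕ} [Fact p.Prime] (u v : ℕ) (n : ℤ) :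
    padicNorm p ((EE u v).eval (n : ℚ)) ≤ padicNorm p (((v - u).factorial : ℕ) : ℚ) := by
  rw [EE_eval]
  have h1 : ∏ i ∈ Finset.range (v - u), ((n : ℚ) + u + i) =
      ((∏ i ∈ Finset.range (v - u), ((n + u : ℤ) + i) : ℤ) : ℚ) := by
    push_cast
    rfl
  rw [h1]
  have h2 := padic_int_dvd (p := p) (Nat.factorial_coe_dvd_prod (v - u) (n + u : ℤ))
  exact_mod_cast h2

/-! ### Division by consecutive factors -/

/-- `∏_{i < g} (X - (c + i))` -/
def GG (c : ℚ) (g : ℕ) : ℚ[X] := ∏ i ∈ Finset.range g, (X - C (c + i))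

lemma GG_monic (c : ℚ) (g : ℕ) : (GG c g).Monic := monic_prod_of_monic _ _ fun _ _ => monic_X_sub_C _

lemma GG_natDegree (c : ℚ) (g : ℕ) : (GG c g).natDegree = g := by
  unfold GG
  rw [natDegree_prod_of_monic _ _ fun k _ => monic_X_sub_C _]
  simp only [natDegree_X_sub_C, Finset.sum_const, Finset.card_range, smul_eq_mul, mul_one]

lemma GG_eval (c : ℚ) (g : ℕ) (M : ℕ) : (GG c g).eval (c + M) = ((M.descFactorial g : ℕ) : ℚ) := by
  unfold GG
  rw [eval_prod]
  induction g with
  | zero => simp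
  | succ g ih =>
    rw [Finset.prod_range_succ, ih, Nat.descFactorial_succ, eval_sub, eval_X, eval_C]
    by_cases hg : g ≤ M
    · push_cast [Nat.cast_sub hg]
      ring
    · rw [Nat.descFactorial_eq_zero_iff_lt.2 (by omega)]
      simp

lemma EE_eq_GG {u v : ℕ} (h : u ≤ v) : EE u v = GG (1 - v) (v - u) := by
  unfold EE GG
  rw [Finset.prod_Ico_eq_prod_range, ← Finset.prod_range_reflect]
  refine Finset.prod_congr rfl fun i hi => ?_
  rw [Finset.mem_range] at hi
  have h1 : (((u + (v - u - 1 - i) : ℕ)) : ℚ) = -(1 - v + i) := by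
    rw [show u + (v - u - 1 - i) = v - 1 - i by omega]
    rw [Nat.sub_sub, Nat.cast_sub (by omega)]
    push_cast
    ring
  rw [h1, C_neg]
  exact (sub_eq_add_neg _ _).symm

lemma norm_inv_choose {p : ℕ} [Fact p.Prime] {j g k : ℕ} (hg : g ≤ j) (hk : j < p ^ (k + 1)) :
    padicNorm p (((j.choose g : ℕ) : ℚ)⁻¹) ≤ (p : ℚ) ^ k := by
  have hp1 : 1 < p := (Fact.out : p.Prime).one_lt
  have h0 : j.choose g ≠ 0 := (Nat.choose_pos hg).ne'
  have h0' : ((j.choose g : ℕ) : ℚ) ≠ 0 := by exact_mod_cast h0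
  rw [padicNorm.eq_zpow_of_nonzero (inv_ne_zero h0'), padicValRat.inv, neg_neg, padicValRat.of_nat,
    zpow_natCast]
  refine pow_le_pow_right₀ (by exact_mod_cast hp1.le) ?_
  rw [← Nat.factorization_def _ (Fact.out : p.Prime)]
  refine Nat.factorization_choose_le_log.trans ?_
  rcases Nat.eq_zero_or_pos j with rfl | hj
  · simp
  · have := Nat.log_lt_of_lt_pow hj.ne' hk
    omega

theorem P2_divG {p : ℕ} [Fact p.Prime] {f : ℚ[X]} {k : ℕ} (hd : f.natDegree < p ^ (k + 1)) (g : ℕ)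
    (c : ℤ) {A : ℚ} (hA : 0 ≤ A) (h : ∀ n : ℤ, padicNorm p (f.eval (n : ℚ)) ≤ A) (n : ℤ) :
    padicNorm p ((f /ₘ GG (c : ℚ) g).eval (n : ℚ)) ≤
      (padicNorm p ((g.factorial : ℕ) : ℚ))⁻¹ * (p : ℚ) ^ k * A := by
  have hp1 : 1 < p := (Fact.out : p.Prime).one_lt
  have hpos : 0 ≤ (padicNorm p ((g.factorial : ℕ) : ℚ))⁻¹ * (p : ℚ) ^ k * A :=
    mul_nonneg (mul_nonneg (inv_nonneg.2 (padicNorm.nonneg _)) (by positivity)) hA
  refine int_ball (a := c + g) hpos (fun n hn => ?_) n
  obtain ⟨m, hm⟩ : ∃ m : ℕ, n = c + (g + m : ℕ) := ⟨(n - c - g).toNat, by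
    have := Int.toNat_of_nonneg (show 0 ≤ n - c - g by omega); push_cast; omega⟩
  have hn' : (n : ℚ) = (c : ℚ) + ((g + m : ℕ) : ℚ) := by rw [hm]; push_cast; ring
  set G := GG (c : ℚ) g with hG
  have h0 := modByMonic_add_div f G
  have hfd : ∀ i < g, fd (f %ₘ G) i c = fd f i c := by
    intro i hi
    conv_rhs => rw [← h0, fd_add]
    have h1 : fd (G * (f /ₘ G)) i c = 0 := by
      unfold fd
      refine Finset.sum_eq_zero fun l hl => ?_
      rw [Finset.mem_range] at hl
      rw [eval_mul, hG, GG_eval, Nat.descFactorial_eq_zero_iff_lt.2 (by omega)]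
      simp
    rw [h1, add_zero]
  have hfd2 : ∀ i, g ≤ i → fd (f %ₘ G) i c = 0 := by
    intro i hi
    rcases Nat.eq_zero_or_pos g with hg | hg
    · have h2 : f %ₘ G = 0 := by
        rw [hG, hg]
        unfold GG
        simp
      rw [h2]
      simp [fd]
    · refine fd_of_lt (lt_of_lt_of_le ?_ hi) _
      have := natDegree_modByMonic_lt f (GG_monic (c : ℚ) g) (by
        intro h1
        have h2 := GG_natDegree (c : ℚ) g
        rw [h1, natDegree_one] at h2
        omega)
      rwa [GG_natDegree] at this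
  have h3 : (G.eval ((c : ℚ) + ((g + m : ℕ) : ℚ))) * (f /ₘ G).eval (n : ℚ) =
      ∑ i ∈ Finset.range (m + 1), (((g + m).choose (g + i) : ℕ) : ℚ) * fd f (g + i) c := by
    have h4 := congrArg (eval (n : ℚ)) h0
    rw [eval_add, eval_mul] at h4
    rw [← hn']
    have h5 := newton f c (g + m)
    have h6 := newton (f %ₘ G) c (g + m)
    rw [← hn', show g + m + 1 = g + (m + 1) by ring, Finset.sum_range_add] at h5 h6
    have h7 : ∑ x ∈ Finset.range g, ((g + m).choose x : ℚ) * fd (f %ₘ G) x c =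
        ∑ x ∈ Finset.range g, ((g + m).choose x : ℚ) * fd f x c :=
      Finset.sum_congr rfl fun x hx => by rw [hfd x (Finset.mem_range.1 hx)]
    have h8 : ∑ x ∈ Finset.range (m + 1), ((g + m).choose (g + x) : ℚ) * fd (f %ₘ G) (g + x) c = 0 :=
      Finset.sum_eq_zero fun x _ => by rw [hfd2 _ (Nat.le_add_right _ _), mul_zero]
    rw [h7, h8] at h6
    linear_combination h4 - h6 + h5
  have hD : G.eval ((c : ℚ) + ((g + m : ℕ) : ℚ)) = ((g.factorial : ℕ) : ℚ) * (((g + m).choose g : ℕ) : ℚ) := by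
    rw [hG, GG_eval, Nat.descFactorial_eq_factorial_mul_choose]
    push_cast
    ring
  have hg0 : ((g.factorial : ℕ) : ℚ) ≠ 0 := by exact_mod_cast g.factorial_ne_zero
  have hc0 : (((g + m).choose g : ℕ) : ℚ) ≠ 0 := by
    exact_mod_cast (Nat.choose_pos (Nat.le_add_right g m)).ne'
  have h9 : (f /ₘ G).eval (n : ℚ) = ∑ i ∈ Finset.range (m + 1),
      (((g.factorial : ℕ) : ℚ))⁻¹ * ((((g + i).choose g : ℕ) : ℚ)⁻¹ *
        (((m.choose i : ℕ) : ℚ) * fd f (g + i) c)) := by
    rw [hD] at h3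
    apply mul_left_cancel₀ (mul_ne_zero hg0 hc0)
    rw [h3, Finset.mul_sum]
    refine Finset.sum_congr rfl fun i hi => ?_
    rw [Finset.mem_range] at hi
    have h10 := Nat.choose_mul (n := g + m) (k := g + i) (s := g) (by omega)
    rw [show g + m - g = m by omega, show g + i - g = i by omega] at h10
    have h11 : (((g + m).choose (g + i) : ℕ) : ℚ) * (((g + i).choose g : ℕ) : ℚ) =
        (((g + m).choose g : ℕ) : ℚ) * ((m.choose i : ℕ) : ℚ) := by exact_mod_cast h10
    have h12 : (((g + i).choose g : ℕ) : ℚ) ≠ 0 := by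
      exact_mod_cast (Nat.choose_pos (Nat.le_add_right g i)).ne'
    have h13 : (((g + m).choose (g + i) : ℕ) : ℚ) =
        (((g + m).choose g : ℕ) : ℚ) * ((m.choose i : ℕ) : ℚ) * (((g + i).choose g : ℕ) : ℚ)⁻¹ := by
      rw [← h11, mul_assoc, mul_inv_cancel₀ h12, mul_one]
    rw [h13]
    field_simp
  rw [h9]
  refine padicNorm.sum_le' (fun i _ => ?_) hpos
  rw [padicNorm.mul, padicNorm.mul, padicNorm.mul]
  by_cases hi : g + i ≤ f.natDegree
  · have h14 : padicNorm p ((m.choose i : ℕ) : ℚ) ≤ 1 := padicNorm.of_nat _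
    have h15 : padicNorm p ((((g + i).choose g : ℕ) : ℚ)⁻¹) ≤ (p : ℚ) ^ k :=
      norm_inv_choose (Nat.le_add_right g i) (by omega)
    have h16 : padicNorm p (fd f (g + i) c) ≤ A := by
      refine norm_fd hA fun l _ => ?_
      have := h (c + l)
      push_cast at this
      exact this
    have h17 : padicNorm p (((g.factorial : ℕ) : ℚ)⁻¹) = (padicNorm p ((g.factorial : ℕ) : ℚ))⁻¹ := by
      rw [inv_eq_one_div, padicNorm.div, padicNorm.one, one_div]
    rw [h17, mul_assoc]
    refine mul_le_mul_of_nonneg_left ?_ (inv_nonneg.2 (padicNorm.nonneg _))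
    refine mul_le_mul h15 ?_ (mul_nonneg (padicNorm.nonneg _) (padicNorm.nonneg _)) (by positivity)
    calc _ ≤ 1 * A := mul_le_mul h14 h16 (padicNorm.nonneg _) zero_le_one
      _ = A := one_mul A
  · rw [fd_of_lt (by omega), padicNorm.zero, mul_zero, mul_zero, mul_zero]
    exact hpos

/-- cancellation of a common monic factor in the quotient -/
lemma divByMonic_cancel {A G B : ℚ[X]} (hG : G.Monic) (hB : B.Monic) : (A * B) /ₘ (G * B) = A /ₘ G := by
  refine (div_modByMonic_unique (A /ₘ G) ((A %ₘ G) * B) (hG.mul hB) ⟨?_, ?_⟩).1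
  · have h1 := modByMonic_add_div A G
    calc A %ₘ G * B + G * B * (A /ₘ G) = (A %ₘ G + G * (A /ₘ G)) * B := by ring
      _ = A * B := by rw [h1]
  · rw [degree_mul, degree_mul]
    have h2 := degree_modByMonic_lt A hG
    have hB0 : B.degree ≠ ⊥ := by
      rw [Ne, degree_eq_bot]
      exact hB.ne_zero
    exact WithBot.add_lt_add_right hB0 h2

/-! ### Factorials at `2` -/

lemma two_fact (n : ℕ) : padicNorm 2 ((n.factorial : ℕ) : ℚ) = (2 : ℚ) ^ (-(padicValNat 2 n.factorial : ℤ)) := by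
  have h : ((n.factorial : ℕ) : ℚ) ≠ 0 := by exact_mod_cast n.factorial_ne_zero
  rw [padicNorm.eq_zpow_of_nonzero h, padicValRat.of_nat]
  norm_num

lemma two_val_le (n : ℕ) : padicValNat 2 n.factorial ≤ n := by
  have h := sub_one_mul_padicValNat_factorial (p := 2) n
  simp only [Nat.add_one_sub_one, one_mul] at h
  rw [h]
  omega

lemma two_val_ge (n : ℕ) : n ≤ padicValNat 2 n.factorial + Nat.log 2 n + 1 := by
  have h := sub_one_mul_padicValNat_factorial (p := 2) n
  simp only [Nat.add_one_sub_one, one_mul] at h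
  have h1 : (Nat.digits 2 n).sum ≤ (Nat.digits 2 n).length := by
    have h2 : ∀ l : List ℕ, (∀ d ∈ l, d < 2) → l.sum ≤ l.length := by
      intro l
      induction l with
      | nil => intro _; simp
      | cons a t ih =>
        intro h3
        have h4 := h3 a (by simp)
        have h5 := ih fun d hd => h3 d (by simp [hd])
        simp only [List.sum_cons, List.length_cons]
        omega
    exact h2 _ fun d hd => Nat.digits_lt_base (by norm_num) hd
  rcases Nat.eq_zero_or_pos n with rfl | hn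
  · simp
  · rw [Nat.length_digits 2 n (by norm_num) hn.ne'] at h1
    omega

end

end Pool.Agent.LP.T2
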