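import Pool.Agent.H422R2.LP.Bridge

/-!
# Hankel determinants of `L a b` in node bases with removed nodes
-/

open Polynomial

namespace Pool.Agent.LP

noncomputable section

/-- nodes `-ν i` -/
def xv {m : ℕ} (ν : Fin m → ℕ) (i : Fin m) : ℚ := -(ν i : ℚ)

lemma lag_xv {m : ℕ} (ν : Fin m → ℕ) (hν : Function.Injective ν) (i : Fin m) :
    lag (xv ν) i = nd ((Finset.univ.image ν).erase (ν i)) := by
  unfold lag nd
  have h2 : (Finset.univ.image ν).erase (ν i) = (Finset.univ.erase i).image ν := by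
    rw [Finset.image_erase hν]
  rw [h2, Finset.prod_image (fun a _ b _ hab => hν hab)]
  refine Finset.prod_congr rfl fun j _ => ?_
  unfold xv
  rw [C_neg, sub_neg_eq_add]

theorem norm_hankel_gen {p : ℕ} [Fact p.Prime] (L : ℚ[X] →ₗ[ℚ] ℚ) {m : ℕ} (ν : Fin m → ℕ)
    (hν : Function.Injective ν) (S : Finset ℕ) (hS : Finset.univ.image ν = S) (μ : ℕ → ℚ) (g : ℕ → ℚ[X])
    (c u : ℕ → ℚ) (hg : ∀ k ∈ S, C (μ k) * nd (S.erase k) = g k)
    (hc : ∀ k ∈ S, padicNorm p (c k) * padicNorm p (u k) * padicNorm p ((g k).eval (-(k : ℚ))) = 1) :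
    padicNorm p (∏ k ∈ S, μ k) * padicNorm p (HkQ L m).det = (∏ k ∈ S, padicNorm p (u k)) *
      padicNorm p (Matrix.of fun i j : Fin m => c (ν j) * L (g (ν i) * g (ν j))).det := by
  have hx : Function.Injective (xv ν) := by
    intro i j hij
    unfold xv at hij
    have h1 : ((ν i : ℕ) : ℚ) = ((ν j : ℕ) : ℚ) := neg_injective hij
    exact hν (by exact_mod_cast h1)
  have h1 := norm_hankel_lag (p := p) L (xv ν) hx
  have hmem : ∀ i : Fin m, ν i ∈ S := fun i => by
    rw [← hS]; exact Finset.mem_image_of_mem _ (Finset.mem_univ _)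
  have hP : ∀ F : ℕ → ℚ, ∏ k ∈ S, F k = ∏ i : Fin m, F (ν i) := by
    intro F
    rw [← hS, Finset.prod_image (fun a _ b _ hab => hν hab)]
  have hlag : ∀ i : Fin m, C (μ (ν i)) * lag (xv ν) i = g (ν i) := by
    intro i
    rw [lag_xv ν hν, hS]
    exact hg _ (hmem i)
  have h2 : (Matrix.of fun i j : Fin m => c (ν j) * L (g (ν i) * g (ν j))) =
      Matrix.diagonal (fun i : Fin m => μ (ν i)) *
        (Matrix.of fun i j : Fin m => L (lag (xv ν) i * lag (xv ν) j)) *
        Matrix.diagonal (fun i : Fin m => μ (ν i) * c (ν i)) := by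
    ext i j
    rw [Matrix.mul_diagonal, Matrix.diagonal_mul]
    simp only [Matrix.of_apply]
    rw [← hlag i, ← hlag j]
    have h3 : C (μ (ν i)) * lag (xv ν) i * (C (μ (ν j)) * lag (xv ν) j) =
        (μ (ν i) * μ (ν j)) • (lag (xv ν) i * lag (xv ν) j) := by
      rw [smul_eq_C_mul, C_mul]
      ring
    rw [h3, map_smul, smul_eq_mul]
    ring
  rw [h2, Matrix.det_mul, Matrix.det_mul, Matrix.det_diagonal, Matrix.det_diagonal, padicNorm.mul,
    padicNorm.mul, h1, hP μ, hP fun k => padicNorm p (u k)]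
  have h4 : (∏ i : Fin m, padicNorm p (u (ν i))) *
      (padicNorm p (∏ i : Fin m, (lag (xv ν) i).eval (xv ν i)) *
      padicNorm p (∏ i : Fin m, μ (ν i) * c (ν i))) = 1 := by
    rw [norm_prod, norm_prod, ← Finset.prod_mul_distrib, ← Finset.prod_mul_distrib]
    refine Finset.prod_eq_one fun i _ => ?_
    have h5 := congrArg (eval (xv ν i)) (hlag i)
    rw [eval_mul, eval_C] at h5
    have h6 := hc _ (hmem i)
    have h7 : padicNorm p ((g (ν i)).eval (-((ν i : ℕ) : ℚ))) = padicNorm p (μ (ν i)) *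
        padicNorm p ((lag (xv ν) i).eval (xv ν i)) := by
      have h8 : (g (ν i)).eval (-((ν i : ℕ) : ℚ)) = (g (ν i)).eval (xv ν i) := rfl
      rw [h8, ← h5, padicNorm.mul]
    rw [h7] at h6
    rw [padicNorm.mul]
    linear_combination h6
  linear_combination (-(padicNorm p (∏ i : Fin m, μ (ν i)) * padicNorm p (HkQ L m).det)) * h4

/-! ### the three families -/

/-- coefficient of `ℓ_s` -/
def la0 (r s k : ℕ) : ℚ := if r = 0 then 0 else if r = 1 then 1 else 1 - ((k : ℚ) - s)

/-- coefficient of `ℓ_{s+1}` -/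
def la1 (r s k : ℕ) : ℚ := if r = 0 then 0 else if r = 1 then 0 else (k : ℚ) - s

/-- the constant -/
def mm (r s k : ℕ) : ℚ := if r = 0 then 1 else if r = 1 then -((k : ℚ) - s) else ((k : ℚ) - s) * ((k : ℚ) - (s + 1 : ℕ))

/-- set of nodes -/
def SS (a b r s : ℕ) : Finset ℕ :=
  if r = 0 then Finset.Icc a b else if r = 1 then (Finset.Icc a b).erase s else ((Finset.Icc a b).erase s).erase (s + 1)

/-- polynomials of degree `< b - a + 1 - r` -/
def gg (a b r s k : ℕ) : ℚ[X] := el a b k - C (la0 r s k) * el a b s - C (la1 r s k) * el a b (s + 1)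

lemma nd_insert {S : Finset ℕ} {j : ℕ} (hj : j ∈ S) : (X + C (j : ℚ)) * nd (S.erase j) = nd S := by
  unfold nd
  exact Finset.mul_prod_erase S (fun j : ℕ => (X + C (j : ℚ) : ℚ[X])) hj

lemma mm_nd {a b r s k : ℕ} (hr : r ≤ 2) (hs : 1 ≤ r → s ∈ Finset.Icc a b)
    (hs1 : r = 2 → s + 1 ∈ Finset.Icc a b) (hk : k ∈ SS a b r s) :
    C (mm r s k) * nd ((SS a b r s).erase k) = gg a b r s k := by
  interval_cases r
  · simp [mm, gg, la0, la1, SS, el]
  · simp only [SS] at hk ⊢
    simp only [one_ne_zero, if_false, if_true] at hk ⊢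
    rw [Finset.mem_erase] at hk
    obtain ⟨hks, hkT⟩ := hk
    have hsT := hs le_rfl
    have h1 : el a b k = (X + C (s : ℚ)) * nd (((Finset.Icc a b).erase s).erase k) := by
      unfold el
      rw [Finset.erase_right_comm, nd_insert (Finset.mem_erase.2 ⟨fun h => hks h.symm, hsT⟩)]
    have h2 : el a b s = (X + C (k : ℚ)) * nd (((Finset.Icc a b).erase s).erase k) := by
      unfold el
      rw [nd_insert (Finset.mem_erase.2 ⟨hks, hkT⟩)]
    unfold gg
    rw [h1, h2]
    simp only [mm, la0, la1]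
    simp
    ring
  · simp only [SS] at hk ⊢
    rw [if_neg two_ne_zero, if_neg (by norm_num : ¬ (2 : ℕ) = 1)] at hk ⊢
    rw [Finset.mem_erase, Finset.mem_erase] at hk
    obtain ⟨hks1, hks, hkT⟩ := hk
    have hsT := hs (by norm_num)
    have hs1T := hs1 rfl
    set N := nd ((((Finset.Icc a b).erase s).erase (s + 1)).erase k) with hN
    have h1 : el a b k = (X + C (s : ℚ)) * ((X + C ((s + 1 : ℕ) : ℚ)) * N) := by
      unfold el
      have e1 : ((((Finset.Icc a b).erase s).erase (s + 1)).erase k) =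
          ((((Finset.Icc a b).erase k).erase s).erase (s + 1)) := by
        ext j; simp only [Finset.mem_erase]; tauto
      rw [hN, e1, nd_insert, nd_insert]
      · exact Finset.mem_erase.2 ⟨fun h => hks h.symm, hsT⟩
      · rw [Finset.mem_erase, Finset.mem_erase]
        exact ⟨by omega, fun h => hks1 h.symm, hs1T⟩
    have h2 : el a b s = (X + C ((s + 1 : ℕ) : ℚ)) * ((X + C (k : ℚ)) * N) := by
      unfold el
      rw [hN, nd_insert, nd_insert]
      · rw [Finset.mem_erase]
        exact ⟨by omega, hs1T⟩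
      · rw [Finset.mem_erase, Finset.mem_erase]
        exact ⟨hks1, hks, hkT⟩
    have h3 : el a b (s + 1) = (X + C (s : ℚ)) * ((X + C (k : ℚ)) * N) := by
      unfold el
      have e1 : ((((Finset.Icc a b).erase s).erase (s + 1)).erase k) =
          ((((Finset.Icc a b).erase (s + 1)).erase s).erase k) := by
        ext j; simp only [Finset.mem_erase]; tauto
      rw [hN, e1, nd_insert, nd_insert]
      · rw [Finset.mem_erase]
        exact ⟨by omega, hsT⟩
      · rw [Finset.mem_erase, Finset.mem_erase]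
        exact ⟨hks, hks1, hkT⟩
    unfold gg
    rw [h1, h2, h3]
    simp only [mm, la0, la1]
    simp
    ring

lemma el_eval_ne {a b j k : ℕ} (hj : j ∈ Finset.Icc a b) (hjk : j ≠ k) :
    (el a b k).eval (-(j : ℚ)) = 0 := by
  unfold el
  rw [nd_eval]
  refine Finset.prod_eq_zero (Finset.mem_erase.2 ⟨hjk, hj⟩) ?_
  ring

lemma SS_sub (a b r s : ℕ) : SS a b r s ⊆ Finset.Icc a b := by
  unfold SS
  split_ifs
  · exact Finset.Subset.refl _
  · exact Finset.erase_subset _ _
  · exact (Finset.erase_subset _ _).trans (Finset.erase_subset _ _)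

lemma gg_eval {a b r s k : ℕ} (hr : r ≤ 2) (hk : k ∈ SS a b r s) :
    (gg a b r s k).eval (-(k : ℚ)) = (el a b k).eval (-(k : ℚ)) := by
  have hkT := SS_sub a b r s hk
  unfold gg
  rw [eval_sub, eval_sub, eval_mul, eval_mul, eval_C, eval_C]
  interval_cases r
  · simp [la0, la1]
  · simp only [SS] at hk
    simp only [one_ne_zero, if_false, if_true] at hk
    rw [Finset.mem_erase] at hk
    rw [el_eval_ne hkT hk.1]
    simp [la1]
  · simp only [SS] at hk
    rw [if_neg two_ne_zero, if_neg (by norm_num : ¬ (2 : ℕ) = 1), Finset.mem_erase, Finset.mem_erase] at hk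
    rw [el_eval_ne hkT hk.2.1, el_eval_ne hkT hk.1]
    simp

lemma SS_card {a b r s : ℕ} (hr : r ≤ 2) (hs : 1 ≤ r → s ∈ Finset.Icc a b)
    (hs1 : r = 2 → s + 1 ∈ Finset.Icc a b) {m : ℕ} (hm : a + m + r = b + 1) : (SS a b r s).card = m := by
  interval_cases r
  · simp [SS]
    omega
  · simp only [SS]
    simp only [one_ne_zero, if_false, if_true]
    rw [Finset.card_erase_of_mem (hs le_rfl), Nat.card_Icc]
    omega
  · simp only [SS]
    rw [if_neg two_ne_zero, if_neg (by norm_num : ¬ (2 : ℕ) = 1), Finset.card_erase_of_mem,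
      Finset.card_erase_of_mem (hs (by norm_num)), Nat.card_Icc]
    · omega
    · rw [Finset.mem_erase]
      exact ⟨by omega, hs1 rfl⟩

lemma norm_cc_An_el {p : ℕ} [Fact p.Prime] {a b k : ℕ} (hk : k ∈ Finset.Icc a b) :
    padicNorm p (cc b k) * padicNorm p ((An a).eval (-(k : ℚ))) *
      padicNorm p ((el a b k).eval (-(k : ℚ))) = 1 := by
  have h1 : (An a * el a b k).eval (-(k : ℚ)) = (-1) ^ k / cc b k := by
    rw [An_mul_el hk, n1_eval_self (Finset.mem_Icc.1 hk).2]
  have h9 : cc b k ≠ 0 := (cc_pos _ _).ne'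
  rw [eval_mul, eq_div_iff h9] at h1
  have h2 := congrArg (padicNorm p) h1
  rw [padicNorm.mul, padicNorm.mul, norm_neg_one_pow] at h2
  linear_combination h2

/-- main determinant bound -/
theorem norm_DD {p : ℕ} [Fact p.Prime] {a b r s m : ℕ} (hr : r ≤ 2) (hs : 1 ≤ r → s ∈ Finset.Icc a b)
    (hs1 : r = 2 → s + 1 ∈ Finset.Icc a b) (hm : a + m + r = b + 1) (α β γ : ℚ) (B : ℕ → ℚ)
    (hB : ∀ k l : ℕ, k ∈ SS a b r s → l ∈ SS a b r s →
      padicNorm p (cc b l * L a b α β γ (gg a b r s k * gg a b r s l)) ≤ B l) :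
    padicNorm p (∏ k ∈ SS a b r s, mm r s k) * padicNorm p (DD a b m α β γ) ≤
      (∏ k ∈ SS a b r s, padicNorm p ((An a).eval (-(k : ℚ)))) * ∏ l ∈ SS a b r s, B l := by
  have hcard := SS_card hr hs hs1 hm
  set ν : Fin m → ℕ := fun i => (SS a b r s).orderEmbOfFin hcard i with hνdef
  have hν : Function.Injective ν := ((SS a b r s).orderEmbOfFin hcard).injective
  have hS : Finset.univ.image ν = SS a b r s := Finset.image_orderEmbOfFin_univ _ hcard
  have hmem : ∀ i : Fin m, ν i ∈ SS a b r s := fun i => Finset.orderEmbOfFin_mem _ hcard i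
  have h1 := norm_hankel_gen (p := p) (L a b α β γ) ν hν (SS a b r s) hS (mm r s) (gg a b r s) (cc b)
    (fun k => (An a).eval (-(k : ℚ))) (fun k hk => mm_nd hr hs hs1 hk) (fun k hk => by
      rw [gg_eval hr hk]
      exact norm_cc_An_el (SS_sub _ _ _ _ hk))
  have h2 : DD a b m α β γ = (HkQ (L a b α β γ) m).det := rfl
  rw [h2, h1]
  refine mul_le_mul_of_nonneg_left ?_ (Finset.prod_nonneg fun k _ => padicNorm.nonneg _)
  have h3 : ∏ l ∈ SS a b r s, B l = ∏ i : Fin m, B (ν i) := by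
    rw [← hS, Finset.prod_image (fun a _ b _ hab => hν hab)]
  rw [h3]
  exact norm_det _ (fun j => B (ν j)) fun i j => hB _ _ (hmem i) (hmem j)

end

end Pool.Agent.LP
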