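import Pool.Agent.H422R2.LP.PMainFin
import Pool.Agent.H422R2.LP.PL
import Pool.Agent.H97R2.LPB.BMain
import Pool.Agent.H422R2.LP.NMain
import Pool.Agent.H337R2.LP.BAbs
import Pool.Agent.H757R2.LP.A4
import Pool.Agent.H336R2.HD.A5

/-!
# Assembly: `1, log 2, π²` are linearly independent over `ℚ` (from the blocks)
-/

open Polynomial Filter Topology MeasureTheory

namespace Pool.Agent.LP

noncomputable section

/-- archimedean bound, norms -/
def StBm : Prop := ∀ᶠ n : ℕ in atTop, ∀ m : ℕ, 4 * n - 1 ≤ m → m ≤ 4 * n + 1 → ∃ q : ℕ → ℝ[X],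
    (∀ i < m, (q i).Monic ∧ (q i).natDegree = i) ∧
    ∏ i ∈ Finset.range m, ∫ y : ℝ, (q i).eval y ^ 2 * ww n (5 * n) y ≤
      Real.exp (4 * (n : ℝ) ^ 2 * Real.log n - 28.5 * (n : ℝ) ^ 2)

/-- p-adic bound -/
def StP : Prop := ∀ᶠ n : ℕ in atTop, ∀ m : ℕ, 4 * n - 1 ≤ m → m ≤ 4 * n + 1 → ∀ α β γ : ℤ,
    DD n (5 * n) m α β γ ≠ 0 →
    ∑ p ∈ (Finset.range (5 * n + 1)).filter Nat.Prime,
      Real.log ((padicNorm p (DD n (5 * n) m α β γ) : ℚ) : ℝ) ≤
    -(4 * (n : ℝ) ^ 2 * Real.log n) + 28.1 * (n : ℝ) ^ 2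

/-- large primes -/
def StL : Prop := ∀ n m p : ℕ, p.Prime → 1 ≤ n → 5 * n < p → m ≤ 4 * n + 1 → ∀ α β γ : ℤ,
    padicNorm p (DD n (5 * n) m α β γ) ≤ 1

/-- the core: no integer relation -/
theorem no_relation (hBm : StBm) (hP : StP) (hL : StL) (α β γ : ℤ)
    (hrel : (α : ℝ) * Real.log 2 + (β : ℝ) * (Real.pi ^ 2 / 12) = (γ : ℝ)) (hne : α ≠ 0 ∨ β ≠ 0) : False := by
  have hlogE : ∀ᶠ n : ℕ in atTop, Real.log (5 * (n : ℝ)) ≤ 1 / 200 * (5 * (n : ℝ)) := by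
    have h1 := (Real.isLittleO_log_id_atTop).def (by norm_num : (0 : ℝ) < 1 / 200)
    have h2 : Tendsto (fun n : ℕ => (5 * (n : ℝ))) atTop atTop :=
      (tendsto_natCast_atTop_atTop).const_mul_atTop (by norm_num)
    filter_upwards [h2.eventually h1, eventually_ge_atTop 1] with n hn hn1
    have hn1' : (1 : ℝ) ≤ n := by exact_mod_cast hn1
    rw [Real.norm_of_nonneg (Real.log_nonneg (by linarith)), id, Real.norm_of_nonneg (by linarith)] at hn
    exact hn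
  have h12 := (hBm.and hP).and hlogE
  rw [eventually_atTop] at h12
  obtain ⟨N1, hN1⟩ := h12
  set c : ℝ := 2 * |(α : ℝ)| + 2 * |(β : ℝ)| with hc
  have hc1 : 1 ≤ c := by
    have h1 : 1 ≤ |(α : ℝ)| ∨ 1 ≤ |(β : ℝ)| := by
      rcases hne with h | h
      · left
        have := Int.one_le_abs h
        exact_mod_cast this
      · right
        have := Int.one_le_abs h
        exact_mod_cast this
    have h2 := abs_nonneg (α : ℝ)
    have h3 := abs_nonneg (β : ℝ)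
    rcases h1 with h | h <;> rw [hc] <;> linarith
  have hlc : 0 ≤ Real.log c := Real.log_nonneg hc1
  obtain ⟨N3, hN3⟩ := exists_nat_gt (20 * Real.log c)
  obtain ⟨n, hn⟩ : ∃ n : ℕ, n = N1 + N3 + 2 := ⟨_, rfl⟩
  have hn2 : 2 ≤ n := by omega
  obtain ⟨m, hm1, hm2, hD⟩ := N_main (n := n) (by omega) (α : ℚ) (β : ℚ) (γ : ℚ)
    (by rcases hne with h | h
        · exact Or.inl (by exact_mod_cast h)
        · exact Or.inr (by exact_mod_cast h))
  obtain ⟨⟨hB, hPn⟩, hlg⟩ := hN1 n (by omega)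
  obtain ⟨q, hq, hqb⟩ := hB m hm1 hm2
  have hA := B_abs n (5 * n) m (α : ℚ) (β : ℚ) (γ : ℚ)
    (Pool.Agent.H757R2.LP.A_line n (5 * n) (by omega) (α : ℚ) (β : ℚ) (γ : ℚ) (by exact_mod_cast hrel)) q hq
  have hPn := hPn m hm1 hm2 α β γ hD
  set z : ℚ := DD n (5 * n) m α β γ with hz
  set S : Finset ℕ := (Finset.range (5 * n + 1)).filter Nat.Prime with hS
  have hpf := Pool.Agent.H336R2.HD.A5_prod_formula z hD S (fun p hp => (Finset.mem_filter.1 hp).2)
    (fun p => ((padicNorm p z : ℚ) : ℝ)) (fun p _ => le_rfl) (fun p hp hpS => by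
      rw [hS, Finset.mem_filter, Finset.mem_range] at hpS
      have h1 : 5 * n < p := by
        by_contra h; exact hpS ⟨by omega, hp⟩
      exact hL n m p hp (by omega) h1 hm2 α β γ)
  have hpos : ∀ p ∈ S, 0 < ((padicNorm p z : ℚ) : ℝ) := by
    intro p hp
    have : Fact p.Prime := ⟨(Finset.mem_filter.1 hp).2⟩
    have h1 : 0 < padicNorm p z := lt_of_le_of_ne (padicNorm.nonneg _) (Ne.symm (padicNorm.nonzero hD))
    exact_mod_cast h1
  have hprodpos : 0 < ∏ p ∈ S, ((padicNorm p z : ℚ) : ℝ) := Finset.prod_pos hpos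
  have hzabs : 0 < |(z : ℝ)| := abs_pos.2 (by exact_mod_cast hD)
  have hlog := Real.log_nonneg hpf
  rw [Real.log_mul hzabs.ne' hprodpos.ne', Real.log_prod (fun p hp => (hpos p hp).ne')] at hlog
  have hn0 : (0 : ℝ) < n := by exact_mod_cast (by omega : 0 < n)
  have hcm : (2 * |(((α : ℤ) : ℚ) : ℝ)| + 2 * |(((β : ℤ) : ℚ) : ℝ)|) = c := by
    rw [hc]; push_cast; rfl
  rw [hcm] at hA
  have hc0 : 0 < c := by linarith
  have hm5 : m ≤ 5 * n := by omega
  have hfac : (m.factorial : ℝ) ≤ (5 * (n : ℝ)) ^ (5 * n) := by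
    have h1 : m.factorial ≤ (5 * n) ^ (5 * n) := by
      calc m.factorial ≤ (5 * n).factorial := Nat.factorial_le hm5
        _ ≤ (5 * n) ^ (5 * n) := Nat.factorial_le_pow _
    exact_mod_cast h1
  have hlz : Real.log |(z : ℝ)| ≤ ((5 * n : ℕ) : ℝ) * Real.log (5 * (n : ℝ)) +
      (m * Real.log c + (4 * (n : ℝ) ^ 2 * Real.log n - 28.5 * (n : ℝ) ^ 2)) := by
    have h1 : |(z : ℝ)| ≤ (5 * (n : ℝ)) ^ (5 * n) *
        (c ^ m * Real.exp (4 * (n : ℝ) ^ 2 * Real.log n - 28.5 * (n : ℝ) ^ 2)) := by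
      refine hA.trans ?_
      refine mul_le_mul hfac (mul_le_mul_of_nonneg_left hqb (by positivity)) ?_ (by positivity)
      refine mul_nonneg (by positivity) (Finset.prod_nonneg fun i _ => ?_)
      exact integral_nonneg fun y => mul_nonneg (sq_nonneg _) (ww_nonneg _ _ _)
    calc Real.log |(z : ℝ)| ≤ Real.log ((5 * (n : ℝ)) ^ (5 * n) *
          (c ^ m * Real.exp (4 * (n : ℝ) ^ 2 * Real.log n - 28.5 * (n : ℝ) ^ 2))) :=
          Real.log_le_log hzabs h1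
      _ = ((5 * n : ℕ) : ℝ) * Real.log (5 * (n : ℝ)) +
          (m * Real.log c + (4 * (n : ℝ) ^ 2 * Real.log n - 28.5 * (n : ℝ) ^ 2)) := by
          rw [Real.log_mul (by positivity) (by positivity), Real.log_mul (by positivity) (Real.exp_pos _).ne',
            Real.log_pow, Real.log_pow, Real.log_exp]
  have hmq : ((m : ℕ) : ℝ) * Real.log c ≤ 5 * n * Real.log c := by
    apply mul_le_mul_of_nonneg_right _ hlc
    have : m ≤ 5 * n := by omega
    exact_mod_cast this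
  have hnN3 : (N3 : ℝ) ≤ n := by exact_mod_cast (by omega : N3 ≤ n)
  have h1 : 5 * n * Real.log c ≤ (n : ℝ) ^ 2 / 4 := by
    have : 20 * Real.log c ≤ n := by linarith
    nlinarith
  have h2 : (0 : ℝ) < (n : ℝ) ^ 2 := by positivity
  have h3 : ((5 * n : ℕ) : ℝ) * Real.log (5 * (n : ℝ)) ≤ (n : ℝ) ^ 2 / 8 := by
    push_cast
    nlinarith
  nlinarith

theorem Z_of (hBm : StBm) (hP : StP) (hL : StL) :
    LinearIndependent ℚ ![(1 : ℝ), Real.log 2, Real.pi ^ 2] := by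
  rw [Fintype.linearIndependent_iff]
  intro g hg
  rw [Fin.sum_univ_three] at hg
  simp only [Matrix.cons_val_zero, Matrix.cons_val_one, Matrix.cons_val_two, Matrix.head_cons,
    Matrix.tail_cons, Rat.smul_def, mul_one, Matrix.cons_val] at hg
  -- common denominator
  obtain ⟨d, hd⟩ : ∃ d : ℕ, d = (g 0).den * (g 1).den * (g 2).den := ⟨_, rfl⟩
  have hd0 : d ≠ 0 := by
    rw [hd]
    exact mul_ne_zero (mul_ne_zero (g 0).den_nz (g 1).den_nz) (g 2).den_nz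
  have e0 : ((d : ℚ) * g 0) = (((g 0).num * (g 1).den * (g 2).den : ℤ) : ℚ) := by
    rw [hd]
    have := Rat.mul_den_eq_num (g 0)
    push_cast
    rw [← this]
    ring
  have e1 : ((d : ℚ) * g 1) = (((g 1).num * (g 0).den * (g 2).den : ℤ) : ℚ) := by
    rw [hd]
    have := Rat.mul_den_eq_num (g 1)
    push_cast
    rw [← this]
    ring
  have e2 : ((d : ℚ) * g 2) = (((g 2).num * (g 0).den * (g 1).den : ℤ) : ℚ) := by
    rw [hd]
    have := Rat.mul_den_eq_num (g 2)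
    push_cast
    rw [← this]
    ring
  obtain ⟨A, hA⟩ : ∃ A : ℤ, A = (g 0).num * (g 1).den * (g 2).den := ⟨_, rfl⟩
  obtain ⟨B, hB⟩ : ∃ B : ℤ, B = (g 1).num * (g 0).den * (g 2).den := ⟨_, rfl⟩
  obtain ⟨C, hC⟩ : ∃ C : ℤ, C = (g 2).num * (g 0).den * (g 1).den := ⟨_, rfl⟩
  rw [← hA] at e0
  rw [← hB] at e1
  rw [← hC] at e2
  have e0' : (d : ℝ) * (g 0 : ℝ) = (A : ℝ) := by exact_mod_cast e0
  have e1' : (d : ℝ) * (g 1 : ℝ) = (B : ℝ) := by exact_mod_cast e1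
  have e2' : (d : ℝ) * (g 2 : ℝ) = (C : ℝ) := by exact_mod_cast e2
  have hrel : (B : ℝ) * Real.log 2 + ((12 * C : ℤ) : ℝ) * (Real.pi ^ 2 / 12) = ((-A : ℤ) : ℝ) := by
    push_cast
    rw [← e0', ← e1', ← e2']
    have : (d : ℝ) * ((g 0 : ℝ) + (g 1 : ℝ) * Real.log 2 + (g 2 : ℝ) * Real.pi ^ 2) = 0 := by
      rw [hg, mul_zero]
    linarith
  have hBC : B = 0 ∧ C = 0 := by
    by_contra hcon
    refine no_relation hBm hP hL B (12 * C) (-A) hrel ?_
    by_contra h2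
    push Not at h2
    apply hcon
    exact ⟨h2.1, by omega⟩
  have hdR : (d : ℝ) ≠ 0 := by exact_mod_cast hd0
  have hdQ : (d : ℚ) ≠ 0 := by exact_mod_cast hd0
  have hA0 : A = 0 := by
    rw [hBC.1, hBC.2] at hrel
    have : ((-A : ℤ) : ℝ) = 0 := by rw [← hrel]; simp
    have h3 : (-A : ℤ) = 0 := by exact_mod_cast this
    omega
  intro i
  fin_cases i
  · have : (d : ℚ) * g 0 = 0 := by rw [e0, hA0]; simp
    exact (mul_eq_zero.1 this).resolve_left hdQ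
  · have : (d : ℚ) * g 1 = 0 := by rw [e1, hBC.1]; simp
    exact (mul_eq_zero.1 this).resolve_left hdQ
  · have : (d : ℚ) * g 2 = 0 := by rw [e2, hBC.2]; simp
    exact (mul_eq_zero.1 this).resolve_left hdQ

end

end Pool.Agent.LP
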