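import Pool.Agent.H422R2.LP.ZCore

/-!
# `1, log 2, π²` are linearly independent over `ℚ`
-/

open Filter

namespace Pool.Agent.LP

/-- `1, log 2, π²` are linearly independent over `ℚ` -/
theorem Z_main : LinearIndependent ℚ ![(1 : ℝ), Real.log 2, Real.pi ^ 2] :=
  Z_of B_main P_main (fun n m p hp hn h5 hm α β γ => by
    haveI : Fact p.Prime := ⟨hp⟩
    exact P_big hn h5 hm α β γ)

/-- the five monomials `1, X, Y, XY, Y²` at `(log 2, log (-1)) = (log 2, π i)` are linearly independent over `ℚ` -/
theorem Z_quad : LinearIndependent ℚ ![(1 : ℂ), Complex.log 2, Complex.log (-1),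
    Complex.log 2 * Complex.log (-1), Complex.log (-1) ^ 2] := by
  have hli := Z_main
  rw [Fintype.linearIndependent_iff] at hli ⊢
  intro g hg
  rw [Fin.sum_univ_five] at hg
  have hl2 : Complex.log 2 = ((Real.log 2 : ℝ) : ℂ) := by
    rw [Complex.ofReal_log (by norm_num)]
    norm_num
  rw [hl2, Complex.log_neg_one] at hg
  simp only [Matrix.cons_val, Matrix.cons_val_zero, Matrix.cons_val_one, Rat.smul_def, mul_one] at hg
  have hsq : ((Real.pi : ℂ) * Complex.I) ^ 2 = -(((Real.pi ^ 2 : ℝ)) : ℂ) := by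
    rw [mul_pow, Complex.I_sq]
    push_cast
    ring
  rw [hsq] at hg
  have hre := congrArg Complex.re hg
  have him := congrArg Complex.im hg
  have hcast : ∀ q : ℚ, ((q : ℚ) : ℂ) = (((q : ℚ) : ℝ) : ℂ) := fun q => by push_cast; rfl
  simp only [hcast] at hre him
  simp only [Complex.add_re, Complex.add_im, Complex.mul_re, Complex.mul_im, Complex.ofReal_re, Complex.ofReal_im,
    Complex.I_re, Complex.I_im, Complex.neg_re, Complex.neg_im, Complex.zero_re, Complex.zero_im, mul_zero, mul_one,
    zero_mul, sub_zero, add_zero, zero_add, neg_zero] at hre him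
  have h1 := hli ![g 0, g 1, -g 4] (by
    rw [Fin.sum_univ_three]
    simp only [Matrix.cons_val_zero, Matrix.cons_val_one, Matrix.cons_val, Rat.smul_def, mul_one]
    push_cast
    linarith)
  have hpi : Real.pi ≠ 0 := Real.pi_ne_zero
  have him2 : (g 2 : ℝ) + (g 3 : ℝ) * Real.log 2 = 0 := by
    have : Real.pi * ((g 2 : ℝ) + (g 3 : ℝ) * Real.log 2) = 0 := by linarith
    exact (mul_eq_zero.1 this).resolve_left hpi
  have h2 := hli ![g 2, g 3, 0] (by
    rw [Fin.sum_univ_three]
    simp only [Matrix.cons_val_zero, Matrix.cons_val_one, Matrix.cons_val, Rat.smul_def, mul_one]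
    push_cast
    linarith)
  have a0 := h1 0
  have a1 := h1 1
  have a2 := h1 2
  have b0 := h2 0
  have b1 := h2 1
  simp only [Matrix.cons_val_zero, Matrix.cons_val_one, Matrix.cons_val, neg_eq_zero] at a0 a1 a2 b0 b1
  intro i
  fin_cases i
  · exact a0
  · exact a1
  · exact b0
  · exact b1
  · exact a2

end Pool.Agent.LP
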